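import Mathlib
import Pool.Agent.Helper832.AutC.Burnside
import Pool.Agent.Helper832.AutC.Three

/-!
Finite p-groups with as many class-preserving automorphisms as possible: set-up, exchange lemma,
quotients.
-/

set_option autoImplicit false

open scoped commutatorElement

namespace Pool.Agent.X255.ACmax

open Pool.Agent.Helper832.AutC

/-- the quotient by the Frattini subgroup is abelian -/
@[reducible] noncomputable def fratComm {p : ℕ} [Fact p.Prime] {G : Type} [Group G] [Finite G]
    (hG : IsPGroup p G) : CommGroup (G ⧸ frattini G) :=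
  { (inferInstance : Group (G ⧸ frattini G)) with
    mul_comm := by
      intro a b
      obtain ⟨a, rfl⟩ := QuotientGroup.mk'_surjective (frattini G) a
      obtain ⟨b, rfl⟩ := QuotientGroup.mk'_surjective (frattini G) b
      rw [← commutatorElement_eq_one_iff_mul_comm, ← map_commutatorElement]
      exact (QuotientGroup.eq_one_iff _).mpr ((frattini_facts hG).1 a b) }

theorem comm_le_frattini {p : ℕ} [Fact p.Prime] {G : Type} [Group G] [Finite G]
    (hG : IsPGroup p G) : commutator G ≤ frattini G := by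
  rw [commutator_def, Subgroup.commutator_le]
  intro a _ b _
  exact (frattini_facts hG).1 a b

theorem comm_mem {G : Type} [Group G] (a b : G) : ⁅a, b⁆ ∈ commutator G :=
  Subgroup.commutator_mem_commutator (Subgroup.mem_top _) (Subgroup.mem_top _)

theorem top_of_sup {G : Type} [Group G] [Finite G] {K N : Subgroup G} (hN : N ≤ frattini G)
    (h : K ⊔ N = ⊤) : K = ⊤ := by
  apply frattini_nongenerating
  rw [eq_top_iff, ← h]
  exact sup_le_sup_left hN K

/-- exchange lemma -/
theorem exchange {p : ℕ} [hp : Fact p.Prime] {G : Type} [Group G] [Finite G]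
    (hG : IsPGroup p G) {d : ℕ} (x : Fin d → G) (hx : Subgroup.closure (Set.range x) = ⊤)
    (s : Set (Fin d)) (g : G) (hg : g ∉ Subgroup.closure (x '' s) ⊔ frattini G) :
    ∃ j, j ∉ s ∧ Subgroup.closure (Set.range (Function.update x j g)) = ⊤ := by
  classical
  letI := fratComm hG
  let π : G →* (G ⧸ frattini G) := QuotientGroup.mk' (frattini G)
  have hπs : Function.Surjective π := QuotientGroup.mk'_surjective (frattini G)
  have hexp : ∀ v : G ⧸ frattini G, v ^ p = 1 := by
    intro v
    obtain ⟨a, rfl⟩ := hπs v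
    rw [← map_pow]
    exact (QuotientGroup.eq_one_iff _).mpr ((frattini_facts hG).2 a)
  have hgen : Subgroup.closure (Set.range (fun i => π (x i))) = ⊤ := by
    have e1 : Set.range (fun i => π (x i)) = π '' Set.range x := Set.range_comp π x
    rw [e1, ← MonoidHom.map_closure, hx, Subgroup.map_top_of_surjective _ hπs]
  obtain ⟨a, ha⟩ := exists_exp (fun i => π (x i)) (π g) (by rw [hgen]; exact Subgroup.mem_top _)
  have hj : ∃ j, j ∉ s ∧ ¬ (p : ℤ) ∣ a j := by
    by_contra hcon
    push Not at hcon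
    apply hg
    have h1 : π g ∈ (Subgroup.closure (x '' s)).map π := by
      rw [ha]
      refine Subgroup.prod_mem _ (fun i _ => ?_)
      by_cases hi : i ∈ s
      · refine zpow_mem ?_ _
        exact ⟨x i, Subgroup.subset_closure ⟨i, hi, rfl⟩, rfl⟩
      · obtain ⟨k, hk⟩ := hcon i hi
        rw [hk, zpow_mul, zpow_natCast, hexp, one_zpow]
        exact one_mem _
    obtain ⟨h, hh, hhg⟩ := h1
    have e2 : h⁻¹ * g ∈ frattini G := QuotientGroup.eq.mp hhg
    have e3 : g = h * (h⁻¹ * g) := by group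
    rw [e3]
    exact mul_mem ((le_sup_left : _ ≤ Subgroup.closure (x '' s) ⊔ frattini G) hh)
      ((le_sup_right : _ ≤ Subgroup.closure (x '' s) ⊔ frattini G) e2)
  obtain ⟨j, hjs, hpj⟩ := hj
  refine ⟨j, hjs, ?_⟩
  apply frattini_nongenerating
  set K := Subgroup.closure (Set.range (Function.update x j g)) with hK
  have hgK : g ∈ K := Subgroup.subset_closure ⟨j, by simp⟩
  have hiK : ∀ i, i ≠ j → x i ∈ K := fun i hi => Subgroup.subset_closure ⟨i, by
    rw [Function.update_of_ne hi]⟩
  have hmapj : π (x j) ∈ K.map π := by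
    have h1 : π (x j) ^ a j ∈ K.map π := by
      have h2 : π g = π (x j) ^ a j * ∏ i ∈ Finset.univ.erase j, π (x i) ^ a i := by
        rw [ha]
        exact (Finset.mul_prod_erase Finset.univ (fun i => π (x i) ^ a i)
          (Finset.mem_univ j)).symm
      have h3 : π (x j) ^ a j = π g * (∏ i ∈ Finset.univ.erase j, π (x i) ^ a i)⁻¹ := by
        rw [h2, mul_inv_cancel_right]
      rw [h3]
      refine mul_mem ⟨g, hgK, rfl⟩ (inv_mem (Subgroup.prod_mem _ (fun i hi => ?_)))
      exact zpow_mem (Subgroup.mem_map_of_mem π (hiK i (Finset.ne_of_mem_erase hi))) _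
    have hQ : IsPGroup p (G ⧸ frattini G) := hG.to_quotient _
    exact mem_of_zpow_mem hQ _ _ _ hpj h1
  obtain ⟨h, hh, hhj⟩ := hmapj
  have e2 : h⁻¹ * x j ∈ frattini G := QuotientGroup.eq.mp hhj
  rw [eq_top_iff, ← hx, Subgroup.closure_le]
  rintro _ ⟨i, rfl⟩
  by_cases hij : i = j
  · subst hij
    have e4 : x i = h * (h⁻¹ * x i) := by group
    rw [e4]
    exact mul_mem ((le_sup_left : _ ≤ K ⊔ frattini G) hh)
      ((le_sup_right : _ ≤ K ⊔ frattini G) e2)
  · exact (le_sup_left : _ ≤ K ⊔ frattini G) (hiK i hij)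

/-- relations of a minimal generating family modulo the derived subgroup have exponents divisible
by `p`; more generally this holds for products in the Frattini subgroup -/
theorem exp_dvd {p : ℕ} [hp : Fact p.Prime] {G : Type} [Group G] [Finite G]
    (hG : IsPGroup p G) {d : ℕ} (x : Fin d → G) (hx : IsMinGen x) (a : Fin d → ℤ) (g : G)
    (hg : g ∈ frattini G) (h : (Abelianization.of g) = ∏ i, (Abelianization.of (x i)) ^ a i)
    (j : Fin d) : (p : ℤ) ∣ a j := by
  classical
  by_contra hpj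
  letI := fratComm hG
  let π : G →* (G ⧸ frattini G) := QuotientGroup.mk' (frattini G)
  have hπs : Function.Surjective π := QuotientGroup.mk'_surjective (frattini G)
  have h0 : π g = ∏ i, π (x i) ^ a i := by
    let ψ : Abelianization G →* (G ⧸ frattini G) := Abelianization.lift π
    have h1 := congrArg ψ h
    rw [map_prod] at h1
    simpa [ψ] using h1
  have h0' : π g = 1 := (QuotientGroup.eq_one_iff g).mpr hg
  rw [h0'] at h0
  set K := Subgroup.closure (x '' {j}ᶜ) with hK
  have hiK : ∀ i, i ≠ j → x i ∈ K := fun i hi => Subgroup.subset_closure ⟨i, hi, rfl⟩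
  have hmapj : π (x j) ∈ K.map π := by
    have h1 : π (x j) ^ a j ∈ K.map π := by
      have h2 : 1 = π (x j) ^ a j * ∏ i ∈ Finset.univ.erase j, π (x i) ^ a i := by
        rw [h0]
        exact (Finset.mul_prod_erase Finset.univ (fun i => π (x i) ^ a i)
          (Finset.mem_univ j)).symm
      have h3 : π (x j) ^ a j = (∏ i ∈ Finset.univ.erase j, π (x i) ^ a i)⁻¹ :=
        eq_inv_of_mul_eq_one_left h2.symm
      rw [h3]
      refine (inv_mem (Subgroup.prod_mem _ (fun i hi => ?_)))
      exact zpow_mem (Subgroup.mem_map_of_mem π (hiK i (Finset.ne_of_mem_erase hi))) _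
    have hQ : IsPGroup p (G ⧸ frattini G) := hG.to_quotient _
    exact mem_of_zpow_mem hQ _ _ _ hpj h1
  obtain ⟨h, hh, hhj⟩ := hmapj
  have e2 : h⁻¹ * x j ∈ frattini G := QuotientGroup.eq.mp hhj
  have e3 : K ⊔ frattini G = ⊤ := by
    rw [eq_top_iff, ← hx.gen, Subgroup.closure_le]
    rintro _ ⟨i, rfl⟩
    by_cases hij : i = j
    · subst hij
      have e4 : x i = h * (h⁻¹ * x i) := by group
      rw [e4]
      exact mul_mem ((le_sup_left : _ ≤ K ⊔ frattini G) hh)
        ((le_sup_right : _ ≤ K ⊔ frattini G) e2)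
    · exact (le_sup_left : _ ≤ K ⊔ frattini G) (hiK i hij)
  refine hx.minimal {j}ᶜ ?_ (frattini_nongenerating e3)
  intro h
  have : j ∈ ({j}ᶜ : Set (Fin d)) := by rw [h]; trivial
  exact this rfl

theorem isMinGen_of {G : Type} [Group G] {d : ℕ}
    (hmin : ∀ n, ∀ x : Fin n → G, Subgroup.closure (Set.range x) = ⊤ → d ≤ n)
    (x : Fin d → G) (hx : Subgroup.closure (Set.range x) = ⊤) : IsMinGen x := by
  classical
  refine ⟨hx, fun s hs hcl => ?_⟩
  have hfin : s.Finite := Set.toFinite s
  let t : Finset (Fin d) := hfin.toFinset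
  have ht : (t : Set (Fin d)) = s := hfin.coe_toFinset
  let e := t.equivFin
  have h1 := hmin t.card (fun i => x ((e.symm i : t) : Fin d)) (by
    rw [← hcl]
    congr 1
    ext g
    constructor
    · rintro ⟨i, rfl⟩
      exact ⟨_, by rw [← ht]; exact (e.symm i).2, rfl⟩
    · rintro ⟨i, hi, rfl⟩
      rw [← ht] at hi
      exact ⟨e ⟨i, hi⟩, by simp⟩)
  have h2 : t.card < d := by
    have h3 : t.card < (Finset.univ : Finset (Fin d)).card := by
      apply Finset.card_lt_card
      rw [Finset.ssubset_univ_iff]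
      intro h
      apply hs
      rw [← ht, h, Finset.coe_univ]
    simpa using h3
  omega

/-- standing hypotheses: `d` is the minimal number of generators, and all choices of images of a
generating family in the cosets of the derived subgroup come from class-preserving
automorphisms -/
structure Hyp (p : ℕ) (G : Type) [Group G] (d : ℕ) : Prop where
  pg : IsPGroup p G
  real : ∀ x : Fin d → G, Subgroup.closure (Set.range x) = ⊤ →
    ∀ c : Fin d → G, (∀ i, c i ∈ commutator G) → ∃ α ∈ AutC G, ∀ i, α (x i) = c i * x i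
  gen : ∃ x : Fin d → G, Subgroup.closure (Set.range x) = ⊤
  min : ∀ n, ∀ x : Fin n → G, Subgroup.closure (Set.range x) = ⊤ → d ≤ n

theorem map_commutator {G H : Type} [Group G] [Group H] (f : G →* H)
    (hf : Function.Surjective f) : (commutator G).map f = commutator H := by
  rw [commutator_def, commutator_def, Subgroup.map_commutator,
    Subgroup.map_top_of_surjective _ hf]

theorem Hyp.surjP {p : ℕ} {G : Type} [Group G] {d : ℕ} (h : Hyp p G d) (x : Fin d → G)
    (hx : Subgroup.closure (Set.range x) = ⊤) : SurjP x := by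
  intro y hy
  obtain ⟨α, hα, hαx⟩ := h.real x hx (fun i => y i * (x i)⁻¹) (by
    intro i
    obtain ⟨g, hg⟩ := isConj_iff.mp (hy i)
    rw [← hg]
    exact comm_mem g (x i))
  exact ⟨α, hα, fun i => by rw [hαx i, inv_mul_cancel_right]⟩

theorem Hyp.quot {p : ℕ} {G : Type} [Group G] [Finite G] {d : ℕ} (h : Hyp p G d)
    (N : Subgroup G) [N.Normal] (hN : N ≤ frattini G) : Hyp p (G ⧸ N) d := by
  have hπs : Function.Surjective (QuotientGroup.mk' N) := QuotientGroup.mk'_surjective N
  have lift : ∀ (n : ℕ) (y : Fin n → G), Subgroup.closure (Set.range (fun i => (y i : G ⧸ N))) = ⊤ →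
      Subgroup.closure (Set.range y) = ⊤ := by
    intro n y hy
    apply top_of_sup hN
    have e1 : Set.range (fun i => (y i : G ⧸ N)) = QuotientGroup.mk' N '' Set.range y :=
      Set.range_comp (QuotientGroup.mk' N) y
    rw [e1, ← MonoidHom.map_closure] at hy
    have h2 := congrArg (Subgroup.comap (QuotientGroup.mk' N)) hy
    rw [Subgroup.comap_map_eq, QuotientGroup.ker_mk', Subgroup.comap_top] at h2
    exact h2
  refine ⟨h.pg.to_quotient N, ?_, ?_, ?_⟩
  · intro x hx c hc
    choose y hy using fun i => QuotientGroup.mk_surjective (x i)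
    have hxy : x = fun i => (y i : G ⧸ N) := funext (fun i => (hy i).symm)
    have hcc : ∀ i, ∃ e ∈ commutator G, ((e : G) : G ⧸ N) = c i := by
      intro i
      have h1 := hc i
      rw [← map_commutator (QuotientGroup.mk' N) hπs] at h1
      obtain ⟨e, he, hee⟩ := h1
      exact ⟨e, he, hee⟩
    choose e he hee using hcc
    rw [hxy] at hx
    have hy' := lift d y hx
    have hs := surjP_quot (h.surjP y hy') N
    obtain ⟨α, hα, hαx⟩ := h.real y hy' e he
    obtain ⟨β, hβ, hβx⟩ := hs (fun i => c i * x i) (by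
      intro i
      obtain ⟨t, ht⟩ := isConj_iff.mp (hα (y i))
      refine isConj_iff.mpr ⟨(t : G ⧸ N), ?_⟩
      show ((t * y i * t⁻¹ : G) : G ⧸ N) = c i * x i
      rw [ht, hαx i, QuotientGroup.mk_mul, hee i, hy i])
    exact ⟨β, hβ, fun i => by rw [← hy i]; rw [hβx i, hy i]⟩
  · obtain ⟨x, hx⟩ := h.gen
    refine ⟨fun i => (x i : G ⧸ N), ?_⟩
    have e1 : Set.range (fun i => (x i : G ⧸ N)) = QuotientGroup.mk' N '' Set.range x :=
      Set.range_comp (QuotientGroup.mk' N) x
    rw [e1, ← MonoidHom.map_closure, hx, Subgroup.map_top_of_surjective _ hπs]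
  · intro n x hx
    choose y hy using fun i => QuotientGroup.mk_surjective (x i)
    have hxy : x = fun i => (y i : G ⧸ N) := funext (fun i => (hy i).symm)
    rw [hxy] at hx
    exact h.min n y (lift n y hx)

/-- a generating family through a given element outside the Frattini subgroup -/
theorem Hyp.exists_through {p : ℕ} [Fact p.Prime] {G : Type} [Group G] [Finite G] {d : ℕ}
    (h : Hyp p G d) (g : G) (hg : g ∉ frattini G) :
    ∃ (x : Fin d → G) (j : Fin d), Subgroup.closure (Set.range x) = ⊤ ∧ x j = g := by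
  classical
  obtain ⟨x, hx⟩ := h.gen
  obtain ⟨j, _, hj⟩ := exchange h.pg x hx ∅ g (by
    rw [Set.image_empty, Subgroup.closure_empty, bot_sup_eq]; exact hg)
  exact ⟨Function.update x j g, j, hj, by simp⟩

/-- every element of the derived subgroup is a commutator with a given element outside the
Frattini subgroup -/
theorem Hyp.comm {p : ℕ} [Fact p.Prime] {G : Type} [Group G] [Finite G] {d : ℕ}
    (h : Hyp p G d) (g : G) (hg : g ∉ frattini G) (c : G) (hc : c ∈ commutator G) :
    ∃ t : G, ⁅t, g⁆ = c := by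
  obtain ⟨x, j, hx, hj⟩ := h.exists_through g hg
  obtain ⟨α, hα, hαx⟩ := h.real x hx (fun _ => c) (fun _ => hc)
  obtain ⟨t, ht⟩ := isConj_iff.mp (hα (x j))
  refine ⟨t, ?_⟩
  rw [hαx j, hj] at ht
  rw [commutatorElement_def, ht, mul_inv_cancel_right]

theorem eq_bot_of_le_comm {Q : Type} [Group Q] [hQ : Group.IsNilpotent Q] (K : Subgroup Q)
    (h : K ≤ ⁅K, (⊤ : Subgroup Q)⁆) : K = ⊥ := by
  obtain ⟨n, hn⟩ := Subgroup.nilpotent_iff_lowerCentralSeries.mp hQ
  rw [eq_bot_iff, ← hn]
  clear hn
  induction n with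
  | zero => exact le_top
  | succ n ih => exact h.trans (Subgroup.commutator_mono ih le_top)

/-- between a normal subgroup and a smaller one there is a normal subgroup of the first with
central quotient of order `p` -/
theorem exists_between {p : ℕ} [hp : Fact p.Prime] {G : Type} [Group G] [Finite G]
    (hG : IsPGroup p G) (H N₀ : Subgroup G) [hH : H.Normal] [hN₀ : N₀.Normal] (hlt : N₀ < H) :
    ∃ N : Subgroup G, N.Normal ∧ N₀ ≤ N ∧ N ≤ H ∧ (∀ h ∈ H, ∀ g : G, ⁅h, g⁆ ∈ N) ∧
      ∃ v ∈ H, v ∉ N ∧ v ^ p ∈ N ∧ ∀ h ∈ H, ∃ k : ℤ, v ^ k * h⁻¹ ∈ N := by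
  classical
  have hnil : Group.IsNilpotent G := hG.isNilpotent
  let L : Subgroup G := ⁅H, (⊤ : Subgroup G)⁆ ⊔ N₀
  have hLH : L ≤ H := sup_le (Subgroup.commutator_le_left H ⊤) hlt.le
  have hLne : L ≠ H := by
    intro hL
    have hnil2 : Group.IsNilpotent (G ⧸ N₀) := inferInstance
    have h1 : H.map (QuotientGroup.mk' N₀) ≤ ⁅H.map (QuotientGroup.mk' N₀), ⊤⁆ := by
      have h2 : H.map (QuotientGroup.mk' N₀) ≤ L.map (QuotientGroup.mk' N₀) := by rw [hL]
      refine h2.trans ?_
      rw [Subgroup.map_sup, Subgroup.map_commutator,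
        Subgroup.map_top_of_surjective _ (QuotientGroup.mk'_surjective N₀)]
      refine sup_le le_rfl ?_
      rw [QuotientGroup.map_mk'_self]
      exact bot_le
    have h3 := eq_bot_of_le_comm _ h1
    rw [Subgroup.map_eq_bot_iff, QuotientGroup.ker_mk'] at h3
    exact absurd h3 (not_le_of_gt hlt)
  let S : Set (Subgroup G) := {N | L ≤ N ∧ N < H}
  have hSf : S.Finite := Set.toFinite S
  have hSn : S.Nonempty := ⟨L, le_refl _, lt_of_le_of_ne hLH hLne⟩
  obtain ⟨N, hNmax⟩ := hSf.exists_maximal hSn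
  obtain ⟨hLN, hNH⟩ := hNmax.1
  have hcen : ∀ h ∈ H, ∀ g : G, ⁅h, g⁆ ∈ N := fun h hh g =>
    hLN ((le_sup_left : _ ≤ L) (Subgroup.commutator_mem_commutator hh (Subgroup.mem_top g)))
  have hNn : N.Normal := by
    constructor
    intro n hn g
    have h1 : g * n * g⁻¹ = (⁅n, g⁆)⁻¹ * n := by rw [commutatorElement_def]; group
    rw [h1]
    exact mul_mem (inv_mem (hcen n (hNH.le hn) g)) hn
  have hbig : ∀ g ∈ H, g ∉ N → ∀ h ∈ H, ∃ k : ℤ, g ^ k * h⁻¹ ∈ N := by
    intro g hg hgN h hh
    have h1 : N ⊔ Subgroup.zpowers g = H := by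
      by_contra hne
      have h2 : N ⊔ Subgroup.zpowers g ∈ S := by
        refine ⟨hLN.trans le_sup_left, lt_of_le_of_ne (sup_le hNH.le ?_) hne⟩
        rw [Subgroup.zpowers_le]; exact hg
      have h3 := hNmax.2 h2 le_sup_left
      exact hgN (h3 ((le_sup_right : _ ≤ N ⊔ Subgroup.zpowers g) (Subgroup.mem_zpowers g)))
    rw [← h1, Subgroup.mem_sup_of_normal_left] at hh
    obtain ⟨n, hn, z, hz, rfl⟩ := hh
    obtain ⟨k, rfl⟩ := hz
    refine ⟨k, ?_⟩
    have h2 : (fun x ↦ g ^ x) k = g ^ k := rfl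
    rw [h2]
    have h3 : g ^ k * (n * g ^ k)⁻¹ = n⁻¹ := by group
    rw [h3]
    exact inv_mem hn
  obtain ⟨v, hvH, hvN⟩ := Set.exists_of_ssubset hNH
  refine ⟨N, hNn, le_sup_right.trans hLN, hNH.le, hcen, v, hvH, hvN, ?_, hbig v hvH hvN⟩
  by_contra hvp
  obtain ⟨k, hk⟩ := hbig (v ^ p) (pow_mem hvH p) hvp v hvH
  have h1 : v ^ ((p : ℤ) * k - 1) ∈ N := by
    rw [zpow_sub_one, zpow_mul, zpow_natCast]; exact hk
  refine hvN (mem_of_zpow_mem hG N v _ ?_ h1)
  intro hd
  have h2 : (p : ℤ) ∣ 1 := by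
    have h7 := dvd_sub (dvd_mul_right (p : ℤ) k) hd
    rwa [sub_sub_cancel] at h7
  have h8 : p ∣ 1 := by exact_mod_cast h2
  exact hp.out.one_lt.ne' (Nat.dvd_one.mp h8)

end Pool.Agent.X255.ACmax
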