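import Mathlib
import Pool.Agent.X255.ACmax.Basic

/-!
Finite p-groups with as many class-preserving automorphisms as possible: if the class is at least
three then the group has two generators.
-/

set_option autoImplicit false

open scoped commutatorElement

namespace Pool.Agent.X255.ACmax

open Pool.Agent.Helper832.AutC

/-- the third term of the lower central series -/
abbrev g3 (G : Type) [Group G] : Subgroup G := ⁅commutator G, (⊤ : Subgroup G)⁆

theorem g3_mem {G : Type} [Group G] {c : G} (hc : c ∈ commutator G) (g : G) : ⁅c, g⁆ ∈ g3 G :=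
  Subgroup.commutator_mem_commutator hc (Subgroup.mem_top g)

theorem g3_le {G : Type} [Group G] : g3 G ≤ commutator G := Subgroup.commutator_le_left _ _

theorem g3_map {G H : Type} [Group G] [Group H] (f : G →* H)
    (hf : Function.Surjective f) : (g3 G).map f = g3 H := by
  rw [g3, g3, Subgroup.map_commutator, map_commutator f hf, Subgroup.map_top_of_surjective _ hf]

theorem exists_isMinGen {G : Type} [Group G] [Finite G] :
    ∃ (d : ℕ) (x : Fin d → G), IsMinGen x := by
  obtain ⟨n, ⟨e⟩⟩ := Finite.exists_equiv_fin G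
  obtain ⟨d, φ, _, h⟩ := exists_min (fun i : Fin n => e.symm i) (by
    rw [e.symm.surjective.range_eq, Subgroup.closure_univ])
  exact ⟨d, _, h⟩

theorem exists_exp_ab {G : Type} [Group G] {d : ℕ} (x : Fin d → G)
    (hx : Subgroup.closure (Set.range x) = ⊤) (g : G) :
    ∃ a : Fin d → ℤ, (Abelianization.of g) = ∏ i, (Abelianization.of (x i)) ^ a i := by
  apply exists_exp (fun i => Abelianization.of (x i))
  have e1 : Set.range (fun i => Abelianization.of (x i)) = Abelianization.of '' Set.range x :=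
    Set.range_comp Abelianization.of x
  rw [e1, ← MonoidHom.map_closure, hx]
  exact Subgroup.mem_map_of_mem _ (Subgroup.mem_top g)

theorem of_eq_iff {G : Type} [Group G] (a b : G) :
    Abelianization.of a = Abelianization.of b ↔ ∃ c ∈ commutator G, a = b * c := by
  constructor
  · intro h
    refine ⟨b⁻¹ * a, ?_, by group⟩
    have h1 : Abelianization.of (b⁻¹ * a) = 1 := by
      rw [map_mul, map_inv, h, inv_mul_cancel]
    exact (QuotientGroup.eq_one_iff _).mp h1
  · rintro ⟨c, hc, rfl⟩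
    have h1 : Abelianization.of c = 1 := (QuotientGroup.eq_one_iff c).mpr hc
    rw [map_mul, h1, mul_one]

/-- elements of the Frattini subgroup -/
theorem frattini_form {p : ℕ} [hp : Fact p.Prime] {G : Type} [Group G] [Finite G]
    (hG : IsPGroup p G) (g : G) (hg : g ∈ frattini G) :
    ∃ h : G, ∃ c ∈ commutator G, g = h ^ p * c := by
  obtain ⟨d, x, hx⟩ := exists_isMinGen (G := G)
  obtain ⟨a, ha⟩ := exists_exp_ab x hx.gen g
  choose b hb using exp_dvd hG x hx a g hg ha
  have hsurj : Function.Surjective (Abelianization.of : G →* Abelianization G) :=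
    fun b => QuotientGroup.mk_surjective b
  obtain ⟨h, hh'⟩ := hsurj (∏ i, (Abelianization.of (x i)) ^ b i)
  refine ⟨h, (of_eq_iff g (h ^ p)).mp ?_⟩
  rw [ha, map_pow, hh', ← Finset.prod_pow]
  refine Finset.prod_congr rfl (fun i _ => ?_)
  rw [hb i, mul_comm, zpow_mul, zpow_natCast]

theorem IsMinGen.not_mem {p : ℕ} [hp : Fact p.Prime] {G : Type} [Group G] [Finite G]
    (hG : IsPGroup p G) {d : ℕ} (x : Fin d → G) (hx : IsMinGen x) (i : Fin d) :
    x i ∉ frattini G := by
  classical
  intro hi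
  have h := exp_dvd hG x hx (Pi.single i 1) (x i) hi (by
    rw [Finset.prod_eq_single i]
    · rw [Pi.single_eq_same, zpow_one]
    · intro j _ hj
      rw [Pi.single_eq_of_ne hj, zpow_zero]
    · intro h; exact absurd (Finset.mem_univ i) h) i
  rw [Pi.single_eq_same] at h
  have h8 : p ∣ 1 := by exact_mod_cast h
  exact hp.out.one_lt.ne' (Nat.dvd_one.mp h8)

section ClassThree

variable {G : Type} [Group G]

theorem g2_comm (hc : ∀ c ∈ commutator G, ∀ g h : G, ⁅⁅c, g⁆, h⁆ = 1) {a b : G}
    (ha : a ∈ commutator G) (hb : b ∈ commutator G) : a * b = b * a := by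
  have h1 : ⁅⁅commutator G, (⊤ : Subgroup G)⁆, (⊤ : Subgroup G)⁆ = ⊥ := by
    rw [eq_bot_iff, Subgroup.commutator_le]
    intro u hu g _
    rw [Subgroup.mem_bot, commutatorElement_eq_one_iff_mul_comm]
    have h2 : g3 G ≤ Subgroup.center G := by
      rw [g3, Subgroup.commutator_le]
      intro c hcm k _
      rw [Subgroup.mem_center_iff]
      intro m
      exact (commutatorElement_eq_one_iff_mul_comm.mp (hc c hcm k m)).symm
    exact ((Subgroup.mem_center_iff.mp (h2 hu)) g).symm
  have h2 : ⁅⁅(⊤ : Subgroup G), (⊤ : Subgroup G)⁆, commutator G⁆ = ⊥ := by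
    apply Subgroup.commutator_commutator_eq_bot_of_rotate
    · rw [Subgroup.commutator_comm ⊤ (commutator G)]
      exact h1
    · exact h1
  have h3 : ⁅a, b⁆ ∈ (⊥ : Subgroup G) := by
    rw [← h2]
    exact Subgroup.commutator_mem_commutator ha hb
  exact commutatorElement_eq_one_iff_mul_comm.mp (Subgroup.mem_bot.mp h3)

theorem c_mul_right (hc : ∀ c ∈ commutator G, ∀ g h : G, ⁅⁅c, g⁆, h⁆ = 1) {c : G}
    (hcc : c ∈ commutator G) (g h : G) : ⁅c, g * h⁆ = ⁅c, g⁆ * ⁅c, h⁆ := by
  have h1 := commutatorElement_eq_one_iff_mul_comm.mp (hc c hcc h g)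
  calc ⁅c, g * h⁆ = ⁅c, g⁆ * (g * ⁅c, h⁆ * g⁻¹) := by simp only [commutatorElement_def]; group
    _ = ⁅c, g⁆ * ⁅c, h⁆ := by rw [← h1, mul_inv_cancel_right]

theorem c_mul_left (hc : ∀ c ∈ commutator G, ∀ g h : G, ⁅⁅c, g⁆, h⁆ = 1) {a b : G}
    (_ha : a ∈ commutator G) (hb : b ∈ commutator G) (g : G) :
    ⁅a * b, g⁆ = ⁅a, g⁆ * ⁅b, g⁆ := by
  have h1 := commutatorElement_eq_one_iff_mul_comm.mp (hc b hb g a)
  have h2 := commutatorElement_eq_one_iff_mul_comm.mp (hc b hb g ⁅a, g⁆)
  calc ⁅a * b, g⁆ = (a * ⁅b, g⁆ * a⁻¹) * ⁅a, g⁆ := by simp only [commutatorElement_def]; group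
    _ = ⁅b, g⁆ * ⁅a, g⁆ := by rw [← h1, mul_inv_cancel_right]
    _ = _ := h2

theorem c_pow_right (hc : ∀ c ∈ commutator G, ∀ g h : G, ⁅⁅c, g⁆, h⁆ = 1) {c : G}
    (hcc : c ∈ commutator G) (g : G) (n : ℕ) : ⁅c, g ^ n⁆ = ⁅c, g⁆ ^ n := by
  induction n with
  | zero => simp
  | succ n ih => rw [pow_succ, c_mul_right hc hcc, ih, pow_succ]

theorem c_pow_left (hc : ∀ c ∈ commutator G, ∀ g h : G, ⁅⁅c, g⁆, h⁆ = 1) {c : G}
    (hcc : c ∈ commutator G) (g : G) (n : ℕ) : ⁅c ^ n, g⁆ = ⁅c, g⁆ ^ n := by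
  induction n with
  | zero => simp
  | succ n ih => rw [pow_succ, c_mul_left hc (pow_mem hcc n) hcc, ih, pow_succ]

/-- elements of the Frattini subgroup centralise the derived subgroup -/
theorem frattini_cen {p : ℕ} [hp : Fact p.Prime] [Finite G] (hG : IsPGroup p G)
    (hc : ∀ c ∈ commutator G, ∀ g h : G, ⁅⁅c, g⁆, h⁆ = 1) (hv : ∀ c ∈ g3 G, c ^ p = 1) {g : G}
    (hg : g ∈ frattini G) {c : G} (hcc : c ∈ commutator G) : ⁅c, g⁆ = 1 := by
  obtain ⟨h, e, he, rfl⟩ := frattini_form hG g hg
  rw [c_mul_right hc hcc, c_pow_right hc hcc, hv _ (g3_mem hcc h), one_mul]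
  exact commutatorElement_eq_one_iff_mul_comm.mpr (g2_comm hc hcc he)

/-- there is an element outside the Frattini subgroup centralising the derived subgroup -/
theorem exists_central {p : ℕ} [hp : Fact p.Prime] [Finite G] {d : ℕ} (h : Hyp p G d)
    (hd : 0 < d)
    (hc : ∀ c ∈ commutator G, ∀ g h : G, ⁅⁅c, g⁆, h⁆ = 1)
    (hcard : Nat.card (g3 G) ≤ p) : ∃ x₀ : G, x₀ ∉ frattini G ∧ ∀ c ∈ commutator G, ⁅c, x₀⁆ = 1 := by
  classical
  obtain ⟨x, hx⟩ := h.gen
  have hmin := isMinGen_of h.min x hx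
  let i0 : Fin d := ⟨0, hd⟩
  let T := {i : Fin d // i ≠ i0} → g3 G
  let θ : G →* T :=
    { toFun := fun g i => ⟨⁅⁅x i0, x i⁆, g⁆, g3_mem (comm_mem _ _) g⟩
      map_one' := by
        funext i
        apply Subtype.ext
        exact commutatorElement_one_right _
      map_mul' := by
        intro a b
        funext i
        apply Subtype.ext
        exact c_mul_right hc (comm_mem _ _) a b }
  -- the kernel is not inside the Frattini subgroup
  have hker : ¬ θ.ker ≤ frattini G := by
    intro hle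
    have h1 : (frattini G).index ≤ θ.ker.index :=
      Nat.le_of_dvd (Nat.pos_of_ne_zero Subgroup.index_ne_zero_of_finite)
        (Subgroup.index_dvd_of_le hle)
    have h2 : θ.ker.index ≤ p ^ (d - 1) := by
      rw [Subgroup.index_ker]
      have h3 : Nat.card θ.range ≤ Nat.card T := Nat.card_le_card_of_injective _
        Subtype.val_injective
      refine h3.trans ?_
      rw [Nat.card_fun, Nat.card_eq_fintype_card (α := {i : Fin d // i ≠ i0})]
      have h4 : Fintype.card {i : Fin d // i ≠ i0} = d - 1 := by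
        rw [Fintype.card_subtype_compl, Fintype.card_fin, Fintype.card_subtype_eq]
      rw [h4]
      exact Nat.pow_le_pow_left hcard _
    have h3 : p ^ d ≤ (frattini G).index := by
      letI := fratComm h.pg
      let π : G →* (G ⧸ frattini G) := QuotientGroup.mk' (frattini G)
      have hπs : Function.Surjective π := QuotientGroup.mk'_surjective (frattini G)
      refine le_card_of_min (V := G ⧸ frattini G) (p := p) ?_ (fun i => π (x i)) ?_
      · intro v
        obtain ⟨a, rfl⟩ := hπs v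
        rw [← map_pow]
        exact (QuotientGroup.eq_one_iff _).mpr ((frattini_facts h.pg).2 a)
      · intro j hj
        have e1 : (fun i => π (x i)) '' {j}ᶜ = π '' (x '' {j}ᶜ) := by rw [Set.image_image]
        rw [e1, ← MonoidHom.map_closure] at hj
        obtain ⟨k, hk, hkj⟩ := hj
        have e2 : k⁻¹ * x j ∈ frattini G := QuotientGroup.eq.mp hkj
        have e3 : Subgroup.closure (x '' {j}ᶜ) ⊔ frattini G = ⊤ := by
          rw [eq_top_iff, ← hmin.gen, Subgroup.closure_le]
          rintro _ ⟨i, rfl⟩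
          by_cases hij : i = j
          · subst hij
            have e4 : x i = k * (k⁻¹ * x i) := by group
            rw [e4]
            exact mul_mem ((le_sup_left : _ ≤ Subgroup.closure (x '' {i}ᶜ) ⊔ frattini G) hk)
              ((le_sup_right : _ ≤ Subgroup.closure (x '' {i}ᶜ) ⊔ frattini G) e2)
          · exact (le_sup_left : _ ≤ Subgroup.closure (x '' {j}ᶜ) ⊔ frattini G)
              (Subgroup.subset_closure ⟨i, hij, rfl⟩)
        refine hmin.minimal {j}ᶜ ?_ (frattini_nongenerating e3)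
        intro h
        have : j ∈ ({j}ᶜ : Set (Fin d)) := by rw [h]; trivial
        exact this rfl
    have h4 : p ^ (d - 1) < p ^ d := Nat.pow_lt_pow_right hp.out.one_lt (by omega)
    omega
  obtain ⟨x₀, hx₀, hx₀F⟩ := Set.not_subset.mp hker
  refine ⟨x₀, hx₀F, ?_⟩
  have hi : ∀ i, ⁅⁅x i0, x i⁆, x₀⁆ = 1 := by
    intro i
    by_cases hi : i = i0
    · rw [hi, commutatorElement_self, commutatorElement_one_left]
    · have h1 : θ x₀ ⟨i, hi⟩ = 1 := by
        have h2 : θ x₀ = 1 := hx₀
        rw [h2]; rfl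
      exact congrArg Subtype.val h1
  have ht : ∀ t : G, ⁅⁅x i0, t⁆, x₀⁆ = 1 := by
    intro t
    have htm : t ∈ Subgroup.closure (Set.range x) := by rw [hx]; exact Subgroup.mem_top t
    have hmul : ∀ s t : G, ⁅⁅x i0, s * t⁆, x₀⁆ = ⁅⁅x i0, s⁆, x₀⁆ * ⁅⁅x i0, t⁆, x₀⁆ := by
      intro s t
      have e1 : ⁅x i0, s * t⁆ = ⁅x i0, s⁆ * (⁅s, ⁅x i0, t⁆⁆ * ⁅x i0, t⁆) := by
        simp only [commutatorElement_def]; group
      have e2 : ⁅s, ⁅x i0, t⁆⁆ ∈ commutator G := comm_mem _ _
      have e3 : ⁅⁅s, ⁅x i0, t⁆⁆, x₀⁆ = 1 := by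
        have e4 : ⁅s, ⁅x i0, t⁆⁆ = (⁅⁅x i0, t⁆, s⁆)⁻¹ := (commutatorElement_inv _ _).symm
        have e5 := commutatorElement_eq_one_iff_commute.mp (hc _ (comm_mem (x i0) t) s x₀)
        rw [e4]
        exact commutatorElement_eq_one_iff_commute.mpr e5.inv_left
      rw [e1, c_mul_left hc (comm_mem _ _) (mul_mem e2 (comm_mem _ _)),
        c_mul_left hc e2 (comm_mem _ _), e3, one_mul]
    induction htm using Subgroup.closure_induction with
    | mem t ht =>
      obtain ⟨i, rfl⟩ := ht
      exact hi i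
    | one => simp
    | mul s t _ _ hs ht => rw [hmul, hs, ht, one_mul]
    | inv s _ hs =>
      have h1 := hmul s s⁻¹
      rw [mul_inv_cancel, commutatorElement_one_right, commutatorElement_one_left, hs,
        one_mul] at h1
      exact h1.symm
  intro c hcc
  obtain ⟨t, htc⟩ := h.comm (x i0) (IsMinGen.not_mem h.pg x hmin i0) c⁻¹ (inv_mem hcc)
  have h1 : c = ⁅x i0, t⁆ := by
    rw [← commutatorElement_inv, htc, inv_inv]
  rw [h1]
  exact ht t

/-- with a third term of order `p`, there are at most two generators -/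
theorem le_two {p : ℕ} [hp : Fact p.Prime] [Finite G] {d : ℕ} (h : Hyp p G d)
    (hc : ∀ c ∈ commutator G, ∀ g h : G, ⁅⁅c, g⁆, h⁆ = 1) (hv : ∀ c ∈ g3 G, c ^ p = 1)
    (hcard : Nat.card (g3 G) ≤ p) (hne : g3 G ≠ ⊥) : d ≤ 2 := by
  classical
  by_contra hd
  push Not at hd
  obtain ⟨x₀, hx₀F, hx₀⟩ := exists_central h (by omega) hc hcard
  -- an element not centralising the derived subgroup
  have hy : ∃ y : G, ∃ c ∈ commutator G, ⁅c, y⁆ ≠ 1 := by
    by_contra hcon
    push Not at hcon
    apply hne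
    rw [eq_bot_iff, g3, Subgroup.commutator_le]
    intro c hcc g _
    exact hcon g c hcc
  obtain ⟨y, cy, hcy, hcyy⟩ := hy
  let C : Subgroup G := Subgroup.centralizer (commutator G : Set G)
  have hC : ∀ g : G, g ∈ C ↔ ∀ c ∈ commutator G, ⁅c, g⁆ = 1 := by
    intro g
    rw [Subgroup.mem_centralizer_iff]
    constructor
    · intro h c hc
      exact commutatorElement_eq_one_iff_mul_comm.mpr (h c hc)
    · intro h c hc
      exact commutatorElement_eq_one_iff_mul_comm.mp (h c hc)
  have hFC : frattini G ≤ C := fun g hg => (hC g).mpr (fun c hcc => frattini_cen h.pg hc hv hg hcc)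
  obtain ⟨x, j0, hx, hj0⟩ := h.exists_through x₀ hx₀F
  obtain ⟨j1, hj1, hx'⟩ := exchange h.pg x hx {j0} y (by
    intro hmem
    have h1 : Subgroup.closure (x '' {j0}) ⊔ frattini G ≤ C := by
      refine sup_le ?_ hFC
      rw [Subgroup.closure_le, Set.image_singleton, Set.singleton_subset_iff, hj0]
      exact (hC x₀).mpr hx₀
    exact hcyy ((hC y).mp (h1 hmem) cy hcy))
  set x' := Function.update x j1 y with hx'def
  have hj01 : j0 ≠ j1 := fun h => hj1 h.symm
  have e0 : x' j0 = x₀ := by rw [hx'def, Function.update_of_ne hj01, hj0]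
  have e1 : x' j1 = y := by rw [hx'def, Function.update_self]
  obtain ⟨j2, hj20, hj21⟩ : ∃ j2 : Fin d, j2 ≠ j0 ∧ j2 ≠ j1 := by
    by_contra hcon
    push Not at hcon
    have h1 : (Finset.univ : Finset (Fin d)) ⊆ {j0, j1} := by
      intro j _
      rw [Finset.mem_insert, Finset.mem_singleton]
      by_cases hj : j = j0
      · exact Or.inl hj
      · exact Or.inr (hcon j hj)
    have h2 := Finset.card_le_card h1
    have h3 := Finset.card_le_two (a := j0) (b := j1)
    rw [Finset.card_univ, Fintype.card_fin] at h2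
    omega
  set z := x' j2 with hz
  -- the commutator of `y` and `z` is not central
  have hyz : ∃ g : G, ⁅⁅y, z⁆, g⁆ ≠ 1 := by
    by_contra hcon
    push Not at hcon
    obtain ⟨α, hα, hαx⟩ := h.real x' hx' (Function.update (fun _ => 1) j2 cy) (by
      intro i
      by_cases hi : i = j2
      · rw [hi, Function.update_self]; exact hcy
      · rw [Function.update_of_ne hi]; exact one_mem _)
    have a1 : α y = y := by
      have := hαx j1
      rwa [Function.update_of_ne hj21.symm, one_mul, e1] at this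
    have a2 : α z = cy * z := by
      have := hαx j2
      rwa [Function.update_self] at this
    obtain ⟨g, hg⟩ := isConj_iff.mp (hα ⁅y, z⁆)
    have h1 : g * ⁅y, z⁆ * g⁻¹ = ⁅y, z⁆ := by
      rw [← commutatorElement_eq_one_iff_mul_comm.mp (hcon g), mul_inv_cancel_right]
    rw [h1, map_commutatorElement, a1, a2] at hg
    have h2 : ⁅y, cy * z⁆ = ⁅y, cy⁆ * (cy * ⁅y, z⁆ * cy⁻¹) := by
      simp only [commutatorElement_def]; group
    rw [h2, g2_comm hc hcy (comm_mem y z), mul_inv_cancel_right] at hg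
    have h3 : ⁅y, cy⁆ = 1 := by
      have := congrArg (fun t => t * (⁅y, z⁆)⁻¹) hg
      simpa using this.symm
    apply hcyy
    rw [← commutatorElement_inv, h3, inv_one]
  obtain ⟨gz, hgz⟩ := hyz
  obtain ⟨t, ht⟩ := h.comm x₀ hx₀F ⁅y, z⁆ (comm_mem y z)
  -- `t` does not centralise the derived subgroup
  have htC : t ∉ C := by
    intro htC
    have h1 : ⁅⁅C, C⁆, (⊤ : Subgroup G)⁆ = ⊥ := by
      have h2 : ⁅commutator G, C⁆ = ⊥ := by
        rw [eq_bot_iff, Subgroup.commutator_le]
        intro c hcc g hg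
        exact (hC g).mp hg c hcc
      apply Subgroup.commutator_commutator_eq_bot_of_rotate
      · rw [eq_bot_iff, ← h2]
        exact Subgroup.commutator_mono (Subgroup.commutator_mono le_top le_rfl) le_rfl
      · rw [eq_bot_iff, ← h2]
        exact Subgroup.commutator_mono (Subgroup.commutator_mono le_rfl le_top) le_rfl
    apply hgz
    have h3 : ⁅⁅t, x₀⁆, gz⁆ ∈ (⊥ : Subgroup G) := by
      rw [← h1]
      exact Subgroup.commutator_mem_commutator
        (Subgroup.commutator_mem_commutator htC ((hC x₀).mpr hx₀)) (Subgroup.mem_top _)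
    rw [ht] at h3
    exact Subgroup.mem_bot.mp h3
  have htc : ∃ c ∈ commutator G, ⁅c, t⁆ ≠ 1 := by
    by_contra hcon
    push Not at hcon
    exact htC ((hC t).mpr hcon)
  obtain ⟨c, hcc, hct⟩ := htc
  obtain ⟨α, hα, hαx⟩ := h.real x' hx' (Function.update (fun _ => 1) j0 c) (by
    intro i
    by_cases hi : i = j0
    · rw [hi, Function.update_self]; exact hcc
    · rw [Function.update_of_ne hi]; exact one_mem _)
  have a0 : α x₀ = c * x₀ := by
    have := hαx j0
    rwa [Function.update_self, e0] at this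
  have a1 : α y = y := by
    have := hαx j1
    rwa [Function.update_of_ne hj01.symm, one_mul, e1] at this
  have a2 : α z = z := by
    have := hαx j2
    rwa [Function.update_of_ne hj20, one_mul] at this
  obtain ⟨g, hg⟩ := isConj_iff.mp (hα t)
  have h1 : α ⁅y, z⁆ = ⁅y, z⁆ := by rw [map_commutatorElement, a1, a2]
  rw [← ht, map_commutatorElement, a0, ← hg] at h1
  set e := ⁅g, t⁆ with he
  have hee : e ∈ commutator G := comm_mem g t
  have h2 : g * t * g⁻¹ = e * t := by rw [he, commutatorElement_def]; group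
  rw [h2] at h1
  have h3 : ⁅e, c * x₀⁆ = 1 := by
    have k1 : Commute e c := g2_comm hc hee hcc
    have k2 : Commute e x₀ := commutatorElement_eq_one_iff_commute.mp (hx₀ e hee)
    exact commutatorElement_eq_one_iff_commute.mpr (k1.mul_right k2)
  have h4 : ⁅e * t, c * x₀⁆ = e * ⁅t, c * x₀⁆ * e⁻¹ * ⁅e, c * x₀⁆ := by
    simp only [commutatorElement_def]; group
  have h5 : ⁅t, c * x₀⁆ = ⁅t, c⁆ * (c * ⁅t, x₀⁆ * c⁻¹) := by
    simp only [commutatorElement_def]; group
  rw [h4, h3, mul_one, g2_comm hc hee (comm_mem _ _), mul_inv_cancel_right, h5,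
    g2_comm hc hcc (comm_mem t x₀), mul_inv_cancel_right] at h1
  have h6 : ⁅t, c⁆ = 1 := by
    have := congrArg (fun s => s * (⁅t, x₀⁆)⁻¹) h1
    simpa using this
  apply hct
  rw [← commutatorElement_inv, h6, inv_one]

end ClassThree

end Pool.Agent.X255.ACmax
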