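import Mathlib
import Pool.Agent.X255.ACmax.Rank
import Pool.Agent.Helper832.AutC.Nec

/-!
Finite p-groups with as many class-preserving automorphisms as possible: two-generator groups.
-/

set_option autoImplicit false

open scoped commutatorElement

namespace Pool.Agent.X255.ACmax

open Pool.Agent.Helper832.AutC

/-- the third term of the lower central series is central, generated by `v` of order `p` -/
structure Small (p : ℕ) (Q : Type) [Group Q] (v : Q) : Prop where
  cen : ∀ c ∈ commutator Q, ∀ g h : Q, ⁅⁅c, g⁆, h⁆ = 1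
  mem : v ∈ g3 Q
  ne : v ≠ 1
  pow : v ^ p = 1
  gen : ∀ h ∈ g3 Q, ∃ k : ℤ, v ^ k = h

theorem small_quot {p : ℕ} {G : Type} [Group G] (N : Subgroup G) [N.Normal]
    (hcen : ∀ h ∈ g3 G, ∀ g : G, ⁅h, g⁆ ∈ N) (v : G) (hv : v ∈ g3 G) (hvN : v ∉ N)
    (hvp : v ^ p ∈ N) (hgen : ∀ h ∈ g3 G, ∃ k : ℤ, v ^ k * h⁻¹ ∈ N) :
    Small p (G ⧸ N) (v : G ⧸ N) := by
  let π := QuotientGroup.mk' N
  have hπs : Function.Surjective π := QuotientGroup.mk'_surjective N
  refine ⟨?_, ?_, ?_, ?_, ?_⟩
  · intro c hc g h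
    rw [← map_commutator π hπs] at hc
    obtain ⟨c, hc, rfl⟩ := hc
    obtain ⟨g, rfl⟩ := hπs g
    obtain ⟨h, rfl⟩ := hπs h
    rw [← map_commutatorElement, ← map_commutatorElement]
    exact (QuotientGroup.eq_one_iff _).mpr (hcen _ (g3_mem hc g) h)
  · rw [← g3_map π hπs]
    exact Subgroup.mem_map_of_mem π hv
  · intro h
    exact hvN ((QuotientGroup.eq_one_iff v).mp h)
  · exact (QuotientGroup.eq_one_iff (v ^ p)).mpr hvp
  · intro h hh
    rw [← g3_map π hπs] at hh
    obtain ⟨h, hh, rfl⟩ := hh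
    obtain ⟨k, hk⟩ := hgen h hh
    refine ⟨k, ?_⟩
    have h1 : π (v ^ k * h⁻¹) = 1 := (QuotientGroup.eq_one_iff _).mpr hk
    rw [map_mul, map_inv, map_zpow, mul_inv_eq_one] at h1
    exact h1

theorem Small.card_le {p : ℕ} [hp : Fact p.Prime] {Q : Type} [Group Q] [Finite Q] {v : Q}
    (h : Small p Q v) : Nat.card (g3 Q) ≤ p := by
  have h1 : g3 Q ≤ Subgroup.zpowers v := by
    intro c hc
    obtain ⟨k, hk⟩ := h.gen c hc
    exact ⟨k, hk⟩
  have h2 := Nat.le_of_dvd Nat.card_pos (Subgroup.card_dvd_of_le h1)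
  rw [Nat.card_zpowers] at h2
  exact h2.trans (Nat.le_of_dvd hp.out.pos (orderOf_dvd_of_pow_eq_one h.pow))

theorem Small.pow_eq {p : ℕ} {Q : Type} [Group Q] {v : Q}
    (h : Small p Q v) {c : Q} (hc : c ∈ g3 Q) : c ^ p = 1 := by
  obtain ⟨k, rfl⟩ := h.gen c hc
  rw [← zpow_natCast, ← zpow_mul, mul_comm, zpow_mul, zpow_natCast, h.pow, one_zpow]

theorem Small.ne_bot {p : ℕ} {Q : Type} [Group Q] {v : Q}
    (h : Small p Q v) : g3 Q ≠ ⊥ := by
  intro h1
  have := h.mem
  rw [h1, Subgroup.mem_bot] at this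
  exact h.ne this

theorem Small.central {p : ℕ} {Q : Type} [Group Q] {v : Q}
    (h : Small p Q v) {c : Q} (hc : c ∈ g3 Q) (g : Q) : c * g = g * c := by
  have h2 : g3 Q ≤ Subgroup.center Q := by
    rw [g3, Subgroup.commutator_le]
    intro c hcm k _
    rw [Subgroup.mem_center_iff]
    intro m
    exact (commutatorElement_eq_one_iff_mul_comm.mp (h.cen c hcm k m)).symm
  exact ((Subgroup.mem_center_iff.mp (h2 hc)) g).symm

/-- class at least three implies two generators -/
theorem eq_two {p : ℕ} [hp : Fact p.Prime] {G : Type} [Group G] [Finite G] {d : ℕ}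
    (h : Hyp p G d) (hne : g3 G ≠ ⊥) : d = 2 := by
  apply le_antisymm
  · obtain ⟨N, hN, -, hNH, hcen, v, hv, hvN, hvp, hgen⟩ :=
      exists_between h.pg (g3 G) ⊥ (bot_lt_iff_ne_bot.mpr hne)
    have hs : Small p (G ⧸ N) (v : G ⧸ N) := small_quot N hcen v hv hvN hvp hgen
    have hQ := h.quot N ((hNH.trans g3_le).trans (comm_le_frattini h.pg))
    exact le_two hQ hs.cen (fun c hc => hs.pow_eq hc) hs.card_le hs.ne_bot
  · by_contra hd
    push Not at hd
    apply hne
    have hcyc : ∃ g : G, Subgroup.zpowers g = ⊤ := by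
      obtain ⟨x, hx⟩ := h.gen
      rcases Nat.lt_succ_iff.mp hd |>.lt_or_eq with h0 | h1
      · have h0' : d = 0 := by omega
        subst h0'
        refine ⟨1, ?_⟩
        rw [← hx]
        simp
      · subst h1
        refine ⟨x 0, ?_⟩
        rw [← hx, Subgroup.zpowers_eq_closure]
        congr 1
        ext g
        simp [Set.mem_range, eq_comm]
    obtain ⟨g, hg⟩ := hcyc
    have hcomm : ∀ a b : G, a * b = b * a := by
      intro a b
      have ha : a ∈ Subgroup.zpowers g := by rw [hg]; exact Subgroup.mem_top a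
      have hb : b ∈ Subgroup.zpowers g := by rw [hg]; exact Subgroup.mem_top b
      obtain ⟨i, rfl⟩ := ha
      obtain ⟨j, rfl⟩ := hb
      show g ^ i * g ^ j = g ^ j * g ^ i
      rw [← zpow_add, ← zpow_add, add_comm]
    rw [eq_bot_iff, g3, Subgroup.commutator_le]
    intro a _ b _
    exact commutatorElement_eq_one_iff_mul_comm.mpr (hcomm a b)

/-- if `N` is normal and contains the commutator of two generators, it contains the derived
subgroup -/
theorem comm_le_of_pair {G : Type} [Group G] {x y : G} (hgen : Subgroup.closure {x, y} = ⊤)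
    (N : Subgroup G) [N.Normal] (h : ⁅x, y⁆ ∈ N) : commutator G ≤ N := by
  let π := QuotientGroup.mk' N
  have hπs : Function.Surjective π := QuotientGroup.mk'_surjective N
  have hxy : π x * π y = π y * π x := by
    rw [← commutatorElement_eq_one_iff_mul_comm, ← map_commutatorElement]
    exact (QuotientGroup.eq_one_iff _).mpr h
  have hg2 : Subgroup.closure ({π x, π y} : Set (G ⧸ N)) = ⊤ := by
    have e1 : ({π x, π y} : Set _) = π '' {x, y} := by rw [Set.image_pair]
    rw [e1, ← MonoidHom.map_closure, hgen, Subgroup.map_top_of_surjective _ hπs]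
  have hcomm : ∀ a b : G ⧸ N, a * b = b * a := by
    have h1 : ∀ a ∈ ({π x, π y} : Set (G ⧸ N)), ∀ b ∈ ({π x, π y} : Set (G ⧸ N)),
        a * b = b * a := by
      rintro a (rfl | rfl) b (rfl | rfl)
      · rfl
      · exact hxy
      · exact hxy.symm
      · rfl
    have h2 := Subgroup.isMulCommutative_closure h1
    intro a b
    have ha : a ∈ Subgroup.closure ({π x, π y} : Set (G ⧸ N)) := by rw [hg2]; trivial
    have hb : b ∈ Subgroup.closure ({π x, π y} : Set (G ⧸ N)) := by rw [hg2]; trivial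
    exact congrArg Subtype.val (h2.is_comm.comm ⟨a, ha⟩ ⟨b, hb⟩)
  rw [commutator_def, Subgroup.commutator_le]
  intro a _ b _
  rw [← QuotientGroup.eq_one_iff]
  show π ⁅a, b⁆ = 1
  rw [map_commutatorElement]
  exact commutatorElement_eq_one_iff_mul_comm.mpr (hcomm _ _)

/-- normal form with respect to a generator and a normal subgroup containing the other -/
theorem form_pair {G : Type} [Group G] {x y : G} (hgen : Subgroup.closure {x, y} = ⊤)
    (K : Subgroup G) [K.Normal] (hx : x ∈ K) (t : G) : ∃ m : ℤ, ∃ s ∈ K, t = y ^ m * s := by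
  have h1 : Subgroup.zpowers y ⊔ K = ⊤ := by
    rw [eq_top_iff, ← hgen, Subgroup.closure_le]
    rintro g (hg | hg)
    · rw [hg]; exact (le_sup_right : K ≤ Subgroup.zpowers y ⊔ K) hx
    · rw [show g = y from hg]
      exact (le_sup_left : Subgroup.zpowers y ≤ Subgroup.zpowers y ⊔ K)
        (Subgroup.mem_zpowers y)
  have h2 : t ∈ Subgroup.zpowers y ⊔ K := by rw [h1]; trivial
  rw [Subgroup.mem_sup_of_normal_right] at h2
  obtain ⟨a, ⟨m, rfl⟩, s, hs, rfl⟩ := h2
  exact ⟨m, s, hs, rfl⟩

theorem normal_of_comm_le {G : Type} [Group G] (K : Subgroup G) (h : commutator G ≤ K) :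
    K.Normal := by
  constructor
  intro n hn g
  have h1 : g * n * g⁻¹ = ⁅g, n⁆ * n := by rw [commutatorElement_def]; group
  rw [h1]
  exact mul_mem (h (comm_mem g n)) hn

theorem exists_nat_pow {G : Type} [Group G] [Finite G] (y : G) (m : ℤ) :
    ∃ n : ℕ, y ^ n = y ^ m := by
  have : y ^ m ∈ Submonoid.powers y := by
    rw [mem_powers_iff_mem_zpowers]; exact ⟨m, rfl⟩
  exact this

/-- generating pairs through an element outside the Frattini subgroup -/
theorem Hyp.exists_pair {p : ℕ} [Fact p.Prime] {G : Type} [Group G] [Finite G]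
    (h : Hyp p G 2) (g : G) (hg : g ∉ frattini G) :
    ∃ y : G, Subgroup.closure {g, y} = ⊤ := by
  obtain ⟨x, j, hx, hj⟩ := h.exists_through g hg
  have e : Set.range x = {x 0, x 1} := by
    ext t
    constructor
    · rintro ⟨i, rfl⟩
      fin_cases i
      · exact Or.inl rfl
      · exact Or.inr rfl
    · rintro (rfl | rfl)
      · exact ⟨0, rfl⟩
      · exact ⟨1, rfl⟩
  rw [e] at hx
  fin_cases j
  · refine ⟨x 1, ?_⟩
    have : x 0 = g := hj
    rw [← this]; exact hx
  · refine ⟨x 0, ?_⟩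
    have : x 1 = g := hj
    rw [← this, Set.pair_comm]; exact hx

theorem range_pair {G : Type} (x y : G) : Set.range ![x, y] = {x, y} := by
  ext t
  constructor
  · rintro ⟨i, rfl⟩
    fin_cases i
    · exact Or.inl rfl
    · exact Or.inr rfl
  · rintro (rfl | rfl)
    · exact ⟨0, rfl⟩
    · exact ⟨1, rfl⟩

/-- realisation of pairs -/
theorem Hyp.pair {p : ℕ} {G : Type} [Group G] (h : Hyp p G 2) {x y : G}
    (hgen : Subgroup.closure {x, y} = ⊤) {a b : G} (ha : a ∈ commutator G)
    (hb : b ∈ commutator G) : ∃ α ∈ AutC G, α x = a * x ∧ α y = b * y := by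
  obtain ⟨α, hα, h1⟩ := h.real ![x, y] (by rw [range_pair]; exact hgen) ![a, b] (by
    intro i
    fin_cases i
    · exact ha
    · exact hb)
  exact ⟨α, hα, h1 0, h1 1⟩

/-- generators are not in the Frattini subgroup -/
theorem Hyp.not_mem {p : ℕ} [Fact p.Prime] {G : Type} [Group G] [Finite G]
    (h : Hyp p G 2) {x y : G} (hgen : Subgroup.closure {x, y} = ⊤) : x ∉ frattini G := by
  have hx : Subgroup.closure (Set.range ![x, y]) = ⊤ := by rw [range_pair]; exact hgen
  exact IsMinGen.not_mem h.pg ![x, y] (isMinGen_of h.min _ hx) 0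

/-- the structure of the commutators when the third term has order `p` -/
theorem small_form {p : ℕ} [hp : Fact p.Prime] {Q : Type} [Group Q] [Finite Q]
    (h : Hyp p Q 2) {v : Q} (hs : Small p Q v) :
    ∃ u ∈ commutator Q, ∃ w ∈ g3 Q, w ≠ 1 ∧ u ∉ g3 Q ∧
      (∀ c ∈ commutator Q, ∃ m : ℕ, c = u ^ m * (w ^ (m.choose 2))⁻¹) := by
  obtain ⟨x, hxF, hx⟩ := exists_central h (by norm_num) hs.cen hs.card_le
  obtain ⟨y, hgen⟩ := h.exists_pair x hxF
  let u := ⁅x, y⁆
  let w := ⁅u, y⁆
  have hu : u ∈ commutator Q := comm_mem x y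
  have hw : w ∈ g3 Q := g3_mem hu y
  have hwc : ∀ g, w * g = g * w := fun g => hs.central hw g
  have hux : ⁅u, x⁆ = 1 := hx u hu
  have hw1 : w ≠ 1 := by
    intro hw1
    apply hs.ne_bot
    have hcenu : ∀ g : Q, ⁅u, g⁆ = 1 := by
      intro g
      have hg : g ∈ Subgroup.closure {x, y} := by rw [hgen]; trivial
      have h1 : Subgroup.closure {x, y} ≤ Subgroup.centralizer {u} := by
        rw [Subgroup.closure_le]
        rintro k (hk | hk)
        · rw [SetLike.mem_coe, Subgroup.mem_centralizer_singleton_iff, hk]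
          exact (commutatorElement_eq_one_iff_mul_comm.mp hux).symm
        · rw [SetLike.mem_coe, Subgroup.mem_centralizer_singleton_iff, show k = y from hk]
          exact (commutatorElement_eq_one_iff_mul_comm.mp hw1).symm
      have h2 := h1 hg
      rw [Subgroup.mem_centralizer_singleton_iff] at h2
      exact commutatorElement_eq_one_iff_mul_comm.mpr h2.symm
    have hcen : commutator Q ≤ Subgroup.center Q := by
      apply comm_le_of_pair hgen
      rw [Subgroup.mem_center_iff]
      intro g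
      exact (commutatorElement_eq_one_iff_mul_comm.mp (hcenu g)).symm
    rw [eq_bot_iff, g3, Subgroup.commutator_le]
    intro c hc g _
    exact commutatorElement_eq_one_iff_mul_comm.mpr
      ((Subgroup.mem_center_iff.mp (hcen hc)) g).symm
  refine ⟨u, hu, w, hw, hw1, ?_, ?_⟩
  · intro hu3
    exact hw1 (commutatorElement_eq_one_iff_mul_comm.mpr (hs.central hu3 y))
  · intro c hc
    obtain ⟨t, ht⟩ := h.comm x hxF c⁻¹ (inv_mem hc)
    let K : Subgroup Q := Subgroup.centralizer {x}
    have hKx : ∀ s, s ∈ K ↔ s * x = x * s := fun s => Subgroup.mem_centralizer_singleton_iff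
    have hK : commutator Q ≤ K := by
      intro e he
      rw [hKx]
      exact commutatorElement_eq_one_iff_mul_comm.mp (hx e he)
    haveI := normal_of_comm_le K hK
    obtain ⟨m, s, hsK, rfl⟩ := form_pair hgen K ((hKx x).mpr rfl) t
    obtain ⟨n, hn⟩ := exists_nat_pow y m
    refine ⟨n, ?_⟩
    have h1 : c = ⁅x, y ^ n * s⁆ := by
      rw [hn, ← commutatorElement_inv, ht, inv_inv]
    have h2 : s * x⁻¹ = x⁻¹ * s := by
      have := (hKx s).mp hsK
      have h3 : Commute s x := this
      exact h3.inv_right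
    have h3 : ⁅x, y ^ n * s⁆ = x * y ^ n * x⁻¹ * (y ^ n)⁻¹ := by
      rw [commutatorElement_def]
      calc x * (y ^ n * s) * x⁻¹ * (y ^ n * s)⁻¹ = x * y ^ n * (s * x⁻¹) * s⁻¹ * (y ^ n)⁻¹ := by
            group
        _ = _ := by rw [h2]; group
    have h4 : x * y ^ n * x⁻¹ = (u * y) ^ n := by
      rw [← conj_pow]
      congr 1
      show x * y * x⁻¹ = ⁅x, y⁆ * y
      rw [commutatorElement_def]; group
    have h5 := pow_form u y w hwc (by
      show u * y = ⁅u, y⁆ * y * u
      rw [commutatorElement_def]; group) n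
    have hwk : ∀ (k : ℕ) (g : Q), w ^ k * g = g * w ^ k := fun k g => Commute.pow_left (hwc g) k
    rw [h1, h3, h4]
    have h6 : (u * y) ^ n = u ^ n * y ^ n * (w ^ n.choose 2)⁻¹ := by
      rw [← h5, mul_inv_cancel_right]
    have h7 : (w ^ n.choose 2)⁻¹ * (y ^ n)⁻¹ = (y ^ n)⁻¹ * (w ^ n.choose 2)⁻¹ := by
      rw [← mul_inv_rev, ← hwk, mul_inv_rev]
    rw [h6, mul_assoc (u ^ n * y ^ n), h7]
    group

end Pool.Agent.X255.ACmax
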