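import Mathlib
import Pool.Agent.X255.ACmax.Two

/-!
Finite p-groups with as many class-preserving automorphisms as possible: two-generator groups,
the cyclic case and the reduction of the remaining case.
-/

set_option autoImplicit false

open scoped commutatorElement

namespace Pool.Agent.X255.ACmax

open Pool.Agent.Helper832.AutC

/-- the exponent `p` or `4` -/
def qq (p : ℕ) : ℕ := if p = 2 then 4 else p

theorem mem_of_pow_not_dvd {p : ℕ} [hp : Fact p.Prime] {G : Type} [Group G]
    (hG : IsPGroup p G) (K : Subgroup G) (h : G) (k : ℕ) (hk : ¬ p ∣ k)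
    (hK : h ^ k ∈ K) : h ∈ K := by
  refine mem_of_zpow_mem hG K h k (fun hd => hk ?_) ?_
  · exact_mod_cast hd
  · rw [zpow_natCast]; exact hK

theorem small_pow {p : ℕ} [hp : Fact p.Prime] {Q : Type} [Group Q] [Finite Q]
    (h : Hyp p Q 2) {v : Q} (hs : Small p Q v)
    (hcase : p ≠ 2 ∨ ∃ c ∈ commutator Q, c ^ 2 ∉ g3 Q) :
    ∀ c ∈ g3 Q, ∃ e ∈ commutator Q, c = e ^ (qq p) := by
  obtain ⟨u, hu, w, hw, hw1, hu3, hform⟩ := small_form h hs
  intro c hc
  obtain ⟨m, hm⟩ := hform c (g3_le hc)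
  have hum : u ^ m ∈ g3 Q := by
    have h1 : u ^ m = c * w ^ (m.choose 2) := by rw [hm, inv_mul_cancel_right]
    rw [h1]
    exact mul_mem hc (pow_mem hw _)
  have hpm : p ∣ m := by
    by_contra hpm
    exact hu3 (mem_of_pow_not_dvd h.pg _ u m hpm hum)
  have hwp : w ^ p = 1 := hs.pow_eq hw
  by_cases hp2 : p = 2
  · subst hp2
    have hc2 : ∃ c ∈ commutator Q, c ^ 2 ∉ g3 Q := by
      rcases hcase with h1 | h1
      · exact absurd rfl h1
      · exact h1
    obtain ⟨e, he, he2⟩ := hc2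
    have hu2 : u ^ 2 ∉ g3 Q := by
      intro hu2
      apply he2
      obtain ⟨k, hk⟩ := hform e he
      have hcom : Commute (u ^ k) (w ^ k.choose 2)⁻¹ := by
        have h1 : Commute w u := hs.central hw u
        exact (h1.symm.pow_pow k _).inv_right
      rw [hk, hcom.mul_pow, ← pow_mul, mul_comm k 2, pow_mul]
      exact mul_mem (pow_mem hu2 k) (pow_mem (inv_mem (pow_mem hw _)) 2)
    obtain ⟨m', rfl⟩ := hpm
    rw [pow_mul] at hum
    have hpm' : 2 ∣ m' := by
      by_contra hpm'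
      exact hu2 (mem_of_pow_not_dvd h.pg _ (u ^ 2) m' hpm' hum)
    obtain ⟨k, rfl⟩ := hpm'
    refine ⟨u ^ k, pow_mem hu k, ?_⟩
    have h1 : 2 ∣ (2 * (2 * k)).choose 2 := by
      have h2 : (2 * (2 * k)).choose 2 * 2 = (2 * (2 * k)) * (2 * (2 * k) - 1) := by
        rw [Nat.choose_two_right, Nat.div_mul_cancel (Nat.even_mul_pred_self _).two_dvd]
      have h3 : (2 * (2 * k)).choose 2 = 2 * (k * (2 * (2 * k) - 1)) := by
        have h4 : (2 * (2 * k)) * (2 * (2 * k) - 1) = (2 * (k * (2 * (2 * k) - 1))) * 2 := by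
          ring
        rw [h4] at h2
        exact Nat.eq_of_mul_eq_mul_right (by norm_num) h2
      rw [h3]
      exact dvd_mul_right _ _
    obtain ⟨l, hl⟩ := h1
    have h5 : w ^ ((2 * (2 * k)).choose 2) = 1 := by
      rw [hl, pow_mul, hwp, one_pow]
    rw [hm, h5, inv_one, mul_one]
    show _ = (u ^ k) ^ (if 2 = 2 then 4 else 2)
    rw [if_pos rfl, ← pow_mul]
    congr 1; ring
  · obtain ⟨m', rfl⟩ := hpm
    refine ⟨u ^ m', pow_mem hu m', ?_⟩
    obtain ⟨l, hl⟩ := dvd_choose_two hp.out hp2 (dvd_mul_right p m')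
    have h5 : w ^ ((p * m').choose 2) = 1 := by
      rw [hl, pow_mul, hwp, one_pow]
    rw [hm, h5, inv_one, mul_one]
    show _ = (u ^ m') ^ (if p = 2 then 4 else p)
    rw [if_neg hp2, ← pow_mul, mul_comm]

/-- generation of the derived subgroup modulo the third term -/
theorem comm_form {G : Type} [Group G] {x y : G} (hgen : Subgroup.closure {x, y} = ⊤)
    {c : G} (hc : c ∈ commutator G) : ∃ k : ℤ, ∃ e ∈ g3 G, c = ⁅x, y⁆ ^ k * e := by
  let K : Subgroup G := Subgroup.zpowers ⁅x, y⁆ ⊔ g3 G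
  have hg3 : (g3 G).Normal := inferInstance
  have hK : K.Normal := by
    constructor
    intro n hn g
    have hle : K ≤ commutator G := sup_le (by rw [Subgroup.zpowers_le]; exact comm_mem x y) g3_le
    have h1 : g * n * g⁻¹ = (⁅n, g⁆)⁻¹ * n := by rw [commutatorElement_def]; group
    rw [h1]
    exact mul_mem (inv_mem ((le_sup_right : g3 G ≤ K) (g3_mem (hle hn) g))) hn
  have h1 := comm_le_of_pair hgen K ((le_sup_left : _ ≤ K) (Subgroup.mem_zpowers _)) hc
  rw [Subgroup.mem_sup_of_normal_right] at h1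
  obtain ⟨a, ⟨k, rfl⟩, e, he, rfl⟩ := h1
  exact ⟨k, e, he, rfl⟩

theorem cyc_case {p : ℕ} [hp : Fact p.Prime] {G : Type} [Group G] [Finite G]
    (h : Hyp p G 2)
    (hcase : p ≠ 2 ∨ ∃ c ∈ commutator G, c ^ 2 ∉ g3 G) :
    IsCyclic (commutator G) ∧ (p = 2 → ∀ v ∈ g3 G, ∃ c ∈ commutator G, c ^ 4 = v) := by
  obtain ⟨z, hz⟩ : ∃ z : G, z ∉ frattini G := by
    by_contra hcon
    push Not at hcon
    obtain ⟨x, hx⟩ := h.gen
    exact IsMinGen.not_mem h.pg x (isMinGen_of h.min x hx) 0 (hcon _)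
  obtain ⟨y, hgen⟩ := h.exists_pair z hz
  let u := ⁅z, y⁆
  have hu : u ∈ commutator G := comm_mem z y
  -- the Frattini subgroup of the derived subgroup
  let F : Subgroup G := (frattini (commutator G)).map (commutator G).subtype
  have hPc : IsPGroup p (commutator G) := h.pg.to_subgroup _
  have hFpow : ∀ c ∈ commutator G, c ^ p ∈ F := by
    intro c hc
    exact ⟨⟨c, hc⟩ ^ p, (frattini_facts hPc).2 ⟨c, hc⟩, rfl⟩
  have hFq : ∀ c ∈ commutator G, c ^ (qq p) ∈ F := by
    intro c hc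
    unfold qq
    by_cases hp2 : p = 2
    · rw [if_pos hp2]
      have h1 : c ^ 4 = (c ^ 2) ^ p := by rw [hp2, ← pow_mul]
      rw [h1]
      exact hFpow _ (pow_mem hc 2)
    · rw [if_neg hp2]
      exact hFpow c hc
  have hFn : F.Normal := by
    have : (frattini (commutator G)).Characteristic := inferInstance
    exact ConjAct.normal_of_characteristic_of_normal
  have hle : g3 G ≤ F := by
    by_contra hle
    have hN0 : (g3 G ⊓ F).Normal := Subgroup.normal_inf_normal _ _
    have hlt : g3 G ⊓ F < g3 G := lt_of_le_of_ne inf_le_left (fun heq => hle (inf_eq_left.mp heq))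
    obtain ⟨N, hN, h0N, hNH, hcen, v, hv, hvN, hvp, hgenv⟩ :=
      exists_between h.pg (g3 G) (g3 G ⊓ F) hlt
    let π := QuotientGroup.mk' N
    have hπs : Function.Surjective π := QuotientGroup.mk'_surjective N
    have hs : Small p (G ⧸ N) (v : G ⧸ N) := small_quot N hcen v hv hvN hvp hgenv
    have hQ := h.quot N ((hNH.trans g3_le).trans (comm_le_frattini h.pg))
    have hcase' : p ≠ 2 ∨ ∃ c ∈ commutator (G ⧸ N), c ^ 2 ∉ g3 (G ⧸ N) := by
      rcases hcase with h1 | ⟨c, hc, hc2⟩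
      · exact Or.inl h1
      · refine Or.inr ⟨π c, ?_, ?_⟩
        · rw [← map_commutator π hπs]; exact Subgroup.mem_map_of_mem π hc
        · intro h3
          rw [← g3_map π hπs, ← map_pow] at h3
          obtain ⟨e, he, hee⟩ := h3
          have h4 : e⁻¹ * c ^ 2 ∈ N := QuotientGroup.eq.mp hee
          apply hc2
          have h5 : c ^ 2 = e * (e⁻¹ * c ^ 2) := by group
          rw [h5]
          exact mul_mem he (hNH h4)
    obtain ⟨e, he, hee⟩ := small_pow hQ hs hcase' (v : G ⧸ N) hs.mem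
    rw [← map_commutator π hπs] at he
    obtain ⟨e, he, rfl⟩ := he
    rw [← map_pow] at hee
    have h4 : v⁻¹ * e ^ (qq p) ∈ N := QuotientGroup.eq.mp hee
    have h5 : e ^ (qq p) ∈ g3 G := by
      have h6 : e ^ (qq p) = v * (v⁻¹ * e ^ (qq p)) := by group
      rw [h6]
      exact mul_mem hv (hNH h4)
    have h6 : e ^ (qq p) ∈ N := h0N ⟨h5, hFq e he⟩
    apply hvN
    have h7 : v = e ^ (qq p) * (v⁻¹ * e ^ (qq p))⁻¹ := by group
    rw [h7]
    exact mul_mem h6 (inv_mem h4)
  -- the derived subgroup is generated by `u`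
  have hcyc : ∀ c ∈ commutator G, ∃ k : ℤ, c = u ^ k := by
    let u' : commutator G := ⟨u, hu⟩
    have h1 : Subgroup.zpowers u' ⊔ frattini (commutator G) = ⊤ := by
      rw [eq_top_iff]
      rintro ⟨c, hc⟩ _
      obtain ⟨k, e, he, hce⟩ := comm_form hgen hc
      obtain ⟨e', he', hee⟩ := hle he
      have h2 : (⟨c, hc⟩ : commutator G) = u' ^ k * e' := by
        apply Subtype.ext
        show c = ((u' ^ k * e' : commutator G) : G)
        rw [hce, Subgroup.coe_mul, Subgroup.coe_zpow, ← hee]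
        rfl
      rw [h2]
      exact mul_mem ((le_sup_left : Subgroup.zpowers u' ≤ _) ⟨k, rfl⟩)
        ((le_sup_right : frattini (commutator G) ≤ _) he')
    have h2 := frattini_nongenerating h1
    intro c hc
    have h3 : (⟨c, hc⟩ : commutator G) ∈ Subgroup.zpowers u' := by rw [h2]; trivial
    obtain ⟨k, hk⟩ := h3
    refine ⟨k, ?_⟩
    have h4 := congrArg Subtype.val hk
    exact h4.symm
  refine ⟨⟨⟨⟨u, hu⟩, ?_⟩⟩, ?_⟩
  · rintro ⟨c, hc⟩
    obtain ⟨k, hk⟩ := hcyc c hc
    exact ⟨k, Subtype.ext hk.symm⟩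
  · intro hp2 v hv
    subst hp2
    have hu2 : u ^ 2 ∉ g3 G := by
      rcases hcase with h1 | ⟨c, hc, hc2⟩
      · exact absurd rfl h1
      · intro hu2
        apply hc2
        obtain ⟨k, hk⟩ := hcyc c hc
        have : c ^ 2 = (u ^ 2) ^ k := by
          rw [hk, ← zpow_natCast, ← zpow_mul, mul_comm, zpow_mul, zpow_natCast]
        rw [this]
        exact zpow_mem hu2 k
    obtain ⟨k, hk⟩ := hcyc v (g3_le hv)
    obtain ⟨n, hn⟩ := exists_nat_pow u k
    rw [hk, ← hn] at hv
    have h1 : 2 ∣ n := by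
      by_contra h1
      exact hu2 (pow_mem (mem_of_pow_not_dvd h.pg _ u n h1 hv) 2)
    obtain ⟨n', rfl⟩ := h1
    rw [pow_mul] at hv
    have h1 : 2 ∣ n' := by
      by_contra h1
      exact hu2 (mem_of_pow_not_dvd h.pg _ (u ^ 2) n' h1 hv)
    obtain ⟨l, rfl⟩ := h1
    refine ⟨u ^ l, pow_mem hu l, ?_⟩
    rw [hk, ← hn, ← pow_mul]
    congr 1; ring

/-- the other case: squares die in the small quotients -/
theorem small_sq {Q : Type} [Group Q] [Finite Q]
    (h : Hyp 2 Q 2) {v : Q} (hs : Small 2 Q v)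
    (hcase : ∀ c ∈ commutator Q, c ^ 2 ∈ g3 Q) : ∀ c ∈ commutator Q, c ^ 2 = 1 := by
  obtain ⟨u, hu, w, hw, hw1, hu3, hform⟩ := small_form h hs
  have hw2 : w ^ 2 = 1 := hs.pow_eq hw
  have hwv : w = v := by
    obtain ⟨k, hk⟩ := hs.gen w hw
    rcases Int.even_or_odd' k with ⟨l, hl | hl⟩
    · exfalso
      apply hw1
      rw [← hk, hl, zpow_mul]
      have : v ^ (2 : ℤ) = 1 := by
        have := hs.pow
        exact_mod_cast this
      rw [this, one_zpow]
    · rw [← hk, hl, zpow_add, zpow_mul]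
      have : v ^ (2 : ℤ) = 1 := by
        have := hs.pow
        exact_mod_cast this
      rw [this, one_zpow, one_mul, zpow_one]
  -- the elements of `g3`
  have hg3 : ∀ c ∈ g3 Q, c = 1 ∨ c = w := by
    intro c hc
    obtain ⟨k, hk⟩ := hs.gen c hc
    rcases Int.even_or_odd' k with ⟨l, hl | hl⟩
    · left
      rw [← hk, hl, zpow_mul]
      have : v ^ (2 : ℤ) = 1 := by
        have := hs.pow
        exact_mod_cast this
      rw [this, one_zpow]
    · right
      rw [← hk, hl, zpow_add, zpow_mul]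
      have : v ^ (2 : ℤ) = 1 := by
        have := hs.pow
        exact_mod_cast this
      rw [this, one_zpow, one_mul, zpow_one, hwv]
  have hu2 : u ^ 2 = 1 := by
    rcases hg3 (u ^ 2) (hcase u hu) with h1 | h1
    · exact h1
    · exfalso
      obtain ⟨m, hm⟩ := hform w (g3_le hw)
      have hum : u ^ m ∈ g3 Q := by
        have h1 : u ^ m = w * w ^ (m.choose 2) := (eq_mul_inv_iff_mul_eq.mp hm).symm
        rw [h1]
        exact mul_mem hw (pow_mem hw _)
      have hpm : 2 ∣ m := by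
        by_contra hpm
        exact hu3 (mem_of_pow_not_dvd h.pg _ u m hpm hum)
      obtain ⟨k, rfl⟩ := hpm
      have h3 : (2 * k).choose 2 = k * (2 * k - 1) := by
        have h2 : (2 * k).choose 2 * 2 = (2 * k) * (2 * k - 1) := by
          rw [Nat.choose_two_right, Nat.div_mul_cancel (Nat.even_mul_pred_self _).two_dvd]
        have h4 : (2 * k) * (2 * k - 1) = (k * (2 * k - 1)) * 2 := by ring
        rw [h4] at h2
        exact Nat.eq_of_mul_eq_mul_right (by norm_num) h2
      rw [pow_mul, h1, h3] at hm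
      apply hw1
      have h4 : w ^ (k * (2 * k - 1)) = w ^ k := by
        rcases Nat.eq_zero_or_pos k with hk | hk
        · subst hk; simp
        · have h5 : k * (2 * k - 1) = k + 2 * (k * (k - 1)) := by
            obtain ⟨j, rfl⟩ : ∃ j, k = j + 1 := ⟨k - 1, by omega⟩
            have e1 : 2 * (j + 1) - 1 = 2 * j + 1 := by omega
            have e2 : j + 1 - 1 = j := by omega
            rw [e1, e2]; ring
          rw [h5, pow_add, pow_mul, hw2, one_pow, mul_one]
      rw [h4, mul_inv_cancel] at hm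
      exact hm
  intro c hc
  obtain ⟨k, hk⟩ := hform c hc
  have hcom : Commute (u ^ k) (w ^ k.choose 2)⁻¹ := by
    have h1 : Commute w u := hs.central hw u
    exact (h1.symm.pow_pow k _).inv_right
  rw [hk, hcom.mul_pow, ← pow_mul, mul_comm k 2, pow_mul, hu2, one_pow, one_mul, inv_pow,
    ← pow_mul, mul_comm, pow_mul, hw2, one_pow, inv_one]

/-- the fourth term of the lower central series -/
abbrev g4 (G : Type) [Group G] : Subgroup G := ⁅g3 G, (⊤ : Subgroup G)⁆

theorem g4_mem {G : Type} [Group G] {c : G} (hc : c ∈ g3 G) (g : G) : ⁅c, g⁆ ∈ g4 G :=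
  Subgroup.commutator_mem_commutator hc (Subgroup.mem_top g)

theorem g4_le {G : Type} [Group G] : g4 G ≤ g3 G := Subgroup.commutator_le_left _ _

theorem g4_map {G H : Type} [Group G] [Group H] (f : G →* H)
    (hf : Function.Surjective f) : (g4 G).map f = g4 H := by
  rw [g4, g4, Subgroup.map_commutator, g3_map f hf, Subgroup.map_top_of_surjective _ hf]

/-- squares of elements of the derived subgroup are in the fourth term -/
theorem sq_mem_g4 {G : Type} [Group G] [Finite G] (h : Hyp 2 G 2)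
    (hcase : ∀ c ∈ commutator G, c ^ 2 ∈ g3 G) : ∀ c ∈ commutator G, c ^ 2 ∈ g4 G := by
  classical
  haveI : Fact (Nat.Prime 2) := ⟨Nat.prime_two⟩
  -- squares of elements of `g3` are in `g4`
  have hsq3 : ∀ c ∈ g3 G, c ^ 2 ∈ g4 G := by
    let π := QuotientGroup.mk' (g4 G)
    have hcomm3 : ∀ a ∈ g3 G, ∀ g : G, π a * π g = π g * π a := by
      intro a ha g
      rw [← commutatorElement_eq_one_iff_mul_comm, ← map_commutatorElement]
      exact (QuotientGroup.eq_one_iff _).mpr (g4_mem ha g)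
    intro c hc
    have key : π c ^ 2 = 1 := by
      have hc' : c ∈ Subgroup.closure {x : G | ∃ a ∈ commutator G, ∃ g ∈ (⊤ : Subgroup G),
          ⁅a, g⁆ = x} := hc
      clear hc
      induction hc' using Subgroup.closure_induction with
      | mem x hx =>
        obtain ⟨a, ha, g, _, rfl⟩ := hx
        have e1 : ⁅a ^ 2, g⁆ ∈ g4 G := g4_mem (hcase a ha) g
        have e2 : π ⁅a ^ 2, g⁆ = 1 := (QuotientGroup.eq_one_iff _).mpr e1
        have e3 : ⁅a ^ 2, g⁆ = (a * ⁅a, g⁆ * a⁻¹) * ⁅a, g⁆ := by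
          simp only [commutatorElement_def, pow_two]; group
        have e4 := hcomm3 _ (g3_mem ha g) a
        rw [e3, map_mul, map_mul, map_mul, map_inv, ← e4, mul_inv_cancel_right] at e2
        rw [pow_two]
        exact e2
      | one => simp
      | mul a b ha hb iha ihb =>
        have ha' : a ∈ g3 G := ha
        have h1 : Commute (π a) (π b) := hcomm3 a ha' b
        rw [map_mul, h1.mul_pow, iha, ihb, one_mul]
      | inv a _ iha => rw [map_inv, inv_pow, iha, inv_one]
    rw [← map_pow] at key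
    exact (QuotientGroup.eq_one_iff _).mp key
  intro c hc
  by_contra hc4
  let S : Set (Subgroup G) := {N | g4 G ≤ N ∧ N ≤ g3 G ∧ c ^ 2 ∉ N}
  have hSf : S.Finite := Set.toFinite S
  obtain ⟨N, hNmax⟩ := hSf.exists_maximal ⟨g4 G, le_refl _, g4_le, hc4⟩
  obtain ⟨h4N, hN3, hcN⟩ := hNmax.1
  have hcen : ∀ a ∈ g3 G, ∀ g : G, ⁅a, g⁆ ∈ N := fun a ha g => h4N (g4_mem ha g)
  have hNn : N.Normal := by
    constructor
    intro n hn g
    have h1 : g * n * g⁻¹ = (⁅n, g⁆)⁻¹ * n := by rw [commutatorElement_def]; group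
    rw [h1]
    exact mul_mem (inv_mem (hcen n (hN3 hn) g)) hn
  have hgenv : ∀ a ∈ g3 G, ∃ k : ℤ, (c ^ 2) ^ k * a⁻¹ ∈ N := by
    intro a ha
    by_cases haN : a ∈ N
    · exact ⟨0, by rw [zpow_zero, one_mul]; exact inv_mem haN⟩
    · have h1 : c ^ 2 ∈ N ⊔ Subgroup.zpowers a := by
        by_contra h1
        have h2 : N ⊔ Subgroup.zpowers a ∈ S := ⟨h4N.trans le_sup_left,
          sup_le hN3 (by rw [Subgroup.zpowers_le]; exact ha), h1⟩
        have h3 := hNmax.2 h2 le_sup_left
        exact haN (h3 ((le_sup_right : _ ≤ N ⊔ Subgroup.zpowers a) (Subgroup.mem_zpowers a)))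
      rw [Subgroup.mem_sup_of_normal_left] at h1
      obtain ⟨n, hn, _, ⟨k, rfl⟩, hnk⟩ := h1
      have hnk' : n * a ^ k = c ^ 2 := hnk
      have ha2 : (a ^ (2 : ℤ)) ∈ N := by
        have := h4N (hsq3 a ha)
        exact_mod_cast this
      rcases Int.even_or_odd' k with ⟨l, hl | hl⟩
      · exfalso
        apply hcN
        rw [← hnk', hl, zpow_mul]
        exact mul_mem hn (zpow_mem ha2 l)
      · refine ⟨1, ?_⟩
        rw [zpow_one, ← hnk', hl, zpow_add, zpow_mul, zpow_one, mul_assoc, mul_assoc,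
          mul_inv_cancel, mul_one]
        exact mul_mem hn (zpow_mem ha2 l)
  have hvp : (c ^ 2) ^ 2 ∈ N := h4N (hsq3 _ (hcase c hc))
  have hs : Small 2 (G ⧸ N) ((c ^ 2 : G) : G ⧸ N) :=
    small_quot N hcen (c ^ 2) (hcase c hc) hcN hvp hgenv
  have hQ := h.quot N ((hN3.trans g3_le).trans (comm_le_frattini h.pg))
  let π := QuotientGroup.mk' N
  have hπs : Function.Surjective π := QuotientGroup.mk'_surjective N
  have h1 := small_sq hQ hs (by
    intro e he
    rw [← map_commutator π hπs] at he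
    obtain ⟨e, he, rfl⟩ := he
    rw [← map_pow, ← g3_map π hπs]
    exact Subgroup.mem_map_of_mem π (hcase e he)) (π c) (by
    rw [← map_commutator π hπs]; exact Subgroup.mem_map_of_mem π hc)
  rw [← map_pow] at h1
  exact hcN ((QuotientGroup.eq_one_iff _).mp h1)

end Pool.Agent.X255.ACmax
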