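import Mathlib
import Pool.Agent.X255.ACmax.Cyc

/-!
Finite p-groups with as many class-preserving automorphisms as possible: two-generator 2-groups
whose derived subgroup has exponent two modulo the fourth term have class at most three.
-/

set_option autoImplicit false

open scoped commutatorElement

namespace Pool.Agent.X255.ACmax

open Pool.Agent.Helper832.AutC

/-- the minimal situation to be excluded -/
structure Four (Q : Type) [Group Q] (w : Q) : Prop where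
  hyp : Hyp 2 Q 2
  w4 : w ∈ g4 Q
  wne : w ≠ 1
  w2 : w * w = 1
  wc : ∀ g : Q, w * g = g * w
  two : ∀ c ∈ g4 Q, c = 1 ∨ c = w
  sq : ∀ c ∈ commutator Q, c * c ∈ g4 Q

namespace Four

variable {Q : Type} [Group Q] {w : Q}

theorem cen4 (h : Four Q w) {c : Q} (hc : c ∈ g4 Q) (g : Q) : c * g = g * c := by
  rcases h.two c hc with rfl | rfl
  · simp
  · exact h.wc g

theorem inv4 (h : Four Q w) {c : Q} (hc : c ∈ g4 Q) : c⁻¹ = c := by
  rcases h.two c hc with rfl | rfl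
  · simp
  · exact inv_eq_of_mul_eq_one_left h.w2

theorem sq4 (h : Four Q w) {c : Q} (hc : c ∈ g4 Q) : c * c = 1 := by
  rcases h.two c hc with rfl | rfl
  · simp
  · exact h.w2

theorem ab23 (h : Four Q w) {a b : Q} (ha : a ∈ commutator Q) (hb : b ∈ g3 Q) :
    a * b = b * a := by
  have h1 : ⁅⁅g3 Q, (⊤ : Subgroup Q)⁆, (⊤ : Subgroup Q)⁆ = ⊥ := by
    rw [eq_bot_iff, Subgroup.commutator_le]
    intro u hu g _
    rw [Subgroup.mem_bot, commutatorElement_eq_one_iff_mul_comm]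
    exact h.cen4 hu g
  have h2 : ⁅⁅(⊤ : Subgroup Q), (⊤ : Subgroup Q)⁆, g3 Q⁆ = ⊥ := by
    apply Subgroup.commutator_commutator_eq_bot_of_rotate
    · rw [Subgroup.commutator_comm ⊤ (g3 Q)]
      exact h1
    · exact h1
  have h3 : ⁅a, b⁆ ∈ (⊥ : Subgroup Q) := by
    rw [← h2]
    exact Subgroup.commutator_mem_commutator ha hb
  exact commutatorElement_eq_one_iff_mul_comm.mp (Subgroup.mem_bot.mp h3)

theorem ab [Finite Q] (h : Four Q w) {a b : Q} (ha : a ∈ commutator Q)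
    (hb : b ∈ commutator Q) : a * b = b * a := by
  haveI : Fact (Nat.Prime 2) := ⟨Nat.prime_two⟩
  obtain ⟨z, hz⟩ : ∃ z : Q, z ∉ frattini Q := by
    by_contra hcon
    push Not at hcon
    obtain ⟨x, hx⟩ := h.hyp.gen
    exact IsMinGen.not_mem h.hyp.pg x (isMinGen_of h.hyp.min x hx) 0 (hcon _)
  obtain ⟨y, hgen⟩ := h.hyp.exists_pair z hz
  obtain ⟨k, e, he, rfl⟩ := comm_form hgen ha
  obtain ⟨l, f, hf, rfl⟩ := comm_form hgen hb
  have h1 : Commute (⁅z, y⁆ ^ k) (⁅z, y⁆ ^ l) := Commute.zpow_zpow (Commute.refl _) k l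
  have h2 : Commute (⁅z, y⁆ ^ k) f := h.ab23 (zpow_mem (comm_mem z y) k) hf
  have h3 : Commute e (⁅z, y⁆ ^ l) := (h.ab23 (zpow_mem (comm_mem z y) l) he).symm
  have h4 : Commute e f := h.ab23 (g3_le he) hf
  exact (h1.mul_right h2).mul_left (h3.mul_right h4)

/-- `⁅a b, t⁆` for `a` in the third term -/
theorem tl (h : Four Q w) {a b : Q} (ha : a ∈ g3 Q) (hb : b ∈ g3 Q) (t : Q) :
    ⁅a * b, t⁆ = ⁅a, t⁆ * ⁅b, t⁆ := by
  have h1 := h.cen4 (g4_mem hb t) a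
  have h2 := h.cen4 (g4_mem hb t) ⁅a, t⁆
  calc ⁅a * b, t⁆ = (a * ⁅b, t⁆ * a⁻¹) * ⁅a, t⁆ := by simp only [commutatorElement_def]; group
    _ = ⁅b, t⁆ * ⁅a, t⁆ := by rw [← h1, mul_inv_cancel_right]
    _ = _ := h2

theorem tr (h : Four Q w) {a : Q} (ha : a ∈ g3 Q) (s t : Q) :
    ⁅a, s * t⁆ = ⁅a, s⁆ * ⁅a, t⁆ := by
  have h1 := h.cen4 (g4_mem ha t) s
  calc ⁅a, s * t⁆ = ⁅a, s⁆ * (s * ⁅a, t⁆ * s⁻¹) := by simp only [commutatorElement_def]; group
    _ = _ := by rw [← h1, mul_inv_cancel_right]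

theorem conj3 (h : Four Q w) {a : Q} (ha : a ∈ g3 Q) (s : Q) :
    s * a * s⁻¹ = ⁅a, s⁆ * a := by
  have h1 : s * a * s⁻¹ = (⁅a, s⁆)⁻¹ * a := by rw [commutatorElement_def]; group
  rw [h1, h.inv4 (g4_mem ha s)]

theorem sq3 [Finite Q] (h : Four Q w) {v : Q} (hv : v ∈ g3 Q) : v * v = 1 := by
  have hc' : v ∈ Subgroup.closure {x : Q | ∃ a ∈ commutator Q, ∃ g ∈ (⊤ : Subgroup Q),
      ⁅a, g⁆ = x} := hv
  clear hv
  induction hc' using Subgroup.closure_induction with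
  | mem x hx =>
    obtain ⟨a, ha, g, _, rfl⟩ := hx
    have e1 : ⁅a * a, g⁆ = 1 :=
      commutatorElement_eq_one_iff_mul_comm.mpr (h.cen4 (h.sq a ha) g)
    have e3 : ⁅a * a, g⁆ = (a * ⁅a, g⁆ * a⁻¹) * ⁅a, g⁆ := by
      simp only [commutatorElement_def]; group
    have e4 := h.ab23 ha (g3_mem ha g)
    rw [e3, e4, mul_inv_cancel_right] at e1
    exact e1
  | one => simp
  | mul a b ha hb iha ihb =>
    have ha' : a ∈ g3 Q := ha
    have hb' : b ∈ g3 Q := hb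
    have h1 := h.ab23 (g3_le ha') hb'
    calc a * b * (a * b) = a * (b * a) * b := by group
      _ = (a * a) * (b * b) := by rw [← h1]; group
      _ = 1 := by rw [iha, ihb, one_mul]
  | inv a _ iha =>
    rw [← mul_inv_rev, iha, inv_one]

theorem comm2 (h : Four Q w) {c : Q} (hc : c ∈ commutator Q) (s t : Q) :
    ⁅c, s * t⁆ = ⁅c, s⁆ * (⁅⁅c, t⁆, s⁆ * ⁅c, t⁆) := by
  rw [← h.conj3 (g3_mem hc t) s]
  simp only [commutatorElement_def]; group

theorem Ml (h : Four Q w) {c : Q} (hc : c ∈ commutator Q) (s t r : Q) :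
    ⁅⁅c, s * t⁆, r⁆ = ⁅⁅c, s⁆, r⁆ * ⁅⁅c, t⁆, r⁆ := by
  have h1 := g3_mem hc t
  have h2 := g3_mem hc s
  have h3 : ⁅⁅⁅c, t⁆, s⁆, r⁆ = 1 :=
    commutatorElement_eq_one_iff_mul_comm.mpr (h.cen4 (g4_mem h1 s) r)
  rw [h.comm2 hc, h.tl h2 (mul_mem (g4_le (g4_mem h1 s)) h1), h.tl (g4_le (g4_mem h1 s)) h1, h3,
    one_mul]

theorem Msymm [Finite Q] (h : Four Q w) {c : Q} (hc : c ∈ commutator Q) (s t : Q) :
    ⁅⁅c, s⁆, t⁆ = ⁅⁅c, t⁆, s⁆ := by
  have h1 := h.comm2 hc s t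
  have h2 := h.comm2 hc t s
  have h3 : ⁅c, s * t⁆ = ⁅c, t * s⁆ := by
    have e1 : s * t = ⁅s, t⁆ * (t * s) := by rw [commutatorElement_def]; group
    have e2 : ⁅c, ⁅s, t⁆ * (t * s)⁆
        = ⁅c, ⁅s, t⁆⁆ * (⁅s, t⁆ * ⁅c, t * s⁆ * (⁅s, t⁆)⁻¹) := by
      simp only [commutatorElement_def]; group
    have e3 : ⁅c, ⁅s, t⁆⁆ = 1 :=
      commutatorElement_eq_one_iff_mul_comm.mpr (h.ab hc (comm_mem s t))
    rw [e1, e2, e3, one_mul, h.ab23 (comm_mem s t) (g3_mem hc _), mul_inv_cancel_right]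
  rw [h1, h2] at h3
  have e4 : Commute ⁅c, s⁆ ⁅c, t⁆ := h.ab23 (g3_le (g3_mem hc s)) (g3_mem hc t)
  have c1 := h.cen4 (g4_mem (g3_mem hc t) s) ⁅c, s⁆
  have c2 := h.cen4 (g4_mem (g3_mem hc s) t) ⁅c, t⁆
  rw [← mul_assoc, ← c1, ← mul_assoc, ← c2, mul_assoc, mul_assoc, e4.eq] at h3
  exact (mul_right_cancel h3).symm

/-- the form takes two values -/
theorem Mval (h : Four Q w) {c : Q} (hc : c ∈ commutator Q) (s t : Q) :
    ⁅⁅c, s⁆, t⁆ = 1 ∨ ⁅⁅c, s⁆, t⁆ = w := h.two _ (g4_mem (g3_mem hc s) t)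

theorem Mc (h : Four Q w) {a b : Q} (ha : a ∈ commutator Q) (hb : b ∈ commutator Q) (s t : Q) :
    ⁅⁅a * b, s⁆, t⁆ = ⁅⁅a, s⁆, t⁆ * ⁅⁅b, s⁆, t⁆ := by
  have h1 : ⁅a * b, s⁆ = (a * ⁅b, s⁆ * a⁻¹) * ⁅a, s⁆ := by
    simp only [commutatorElement_def]; group
  rw [h1, h.ab23 ha (g3_mem hb s), mul_inv_cancel_right, h.tl (g3_mem hb s) (g3_mem ha s)]
  exact h.cen4 (g4_mem (g3_mem hb s) t) _

theorem M3 (h : Four Q w) {a : Q} (ha : a ∈ g3 Q) (s t : Q) : ⁅⁅a, s⁆, t⁆ = 1 :=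
  commutatorElement_eq_one_iff_mul_comm.mpr (h.cen4 (g4_mem ha s) t)

theorem Mzpow (h : Four Q w) {a : Q} (ha : a ∈ commutator Q) (s t : Q) (k : ℤ) :
    ⁅⁅a ^ k, s⁆, t⁆ = ⁅⁅a, s⁆, t⁆ ^ k := by
  let φ : commutator Q →* Q :=
    { toFun := fun c => ⁅⁅(c : Q), s⁆, t⁆
      map_one' := by simp
      map_mul' := fun a b => h.Mc a.2 b.2 s t }
  exact map_zpow φ ⟨a, ha⟩ k

/-- the form does not depend on the generating pair -/
theorem Mtrans (h : Four Q w) {x y x' y' : Q} (hg : Subgroup.closure {x, y} = ⊤)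
    (hg' : Subgroup.closure {x', y'} = ⊤) (s t : Q) : ⁅⁅⁅x', y'⁆, s⁆, t⁆ = ⁅⁅⁅x, y⁆, s⁆, t⁆ := by
  obtain ⟨k, e, he, hk⟩ := comm_form hg (comm_mem x' y')
  have h1 : ⁅⁅⁅x', y'⁆, s⁆, t⁆ = ⁅⁅⁅x, y⁆, s⁆, t⁆ ^ k := by
    rw [hk, h.Mc (zpow_mem (comm_mem x y) k) (g3_le he), h.M3 he, mul_one,
      h.Mzpow (comm_mem x y)]
  rcases Int.even_or_odd' k with ⟨l, hl | hl⟩
  · have h2 : ⁅x', y'⁆ ∈ g3 Q := by
      rw [hk, hl, zpow_mul]
      refine mul_mem (zpow_mem ?_ l) he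
      have := g4_le (h.sq _ (comm_mem x y))
      rwa [← zpow_two] at this
    have h3 : ⁅x, y⁆ ∈ g3 Q := by
      obtain ⟨k', e', he', hk'⟩ := comm_form hg' (comm_mem x y)
      rw [hk']
      exact mul_mem (zpow_mem h2 k') he'
    rw [h.M3 h2, h.M3 h3]
  · have h2 : ⁅⁅⁅x, y⁆, s⁆, t⁆ ^ (2 : ℤ) = 1 := by
      rw [zpow_two]
      exact h.sq4 (g4_mem (g3_mem (comm_mem x y) s) t)
    rw [h1, hl, zpow_add, zpow_mul, h2, one_zpow, one_mul, zpow_one]

/-- generators suffice to see that the form is trivial in one variable -/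
theorem Mgen [Finite Q] (h : Four Q w) {x y : Q} (hg : Subgroup.closure {x, y} = ⊤) {c s : Q}
    (hc : c ∈ commutator Q) (h1 : ⁅⁅c, s⁆, x⁆ = 1) (h2 : ⁅⁅c, s⁆, y⁆ = 1) (t : Q) :
    ⁅⁅c, s⁆, t⁆ = 1 := by
  have ht : t ∈ Subgroup.closure {x, y} := by rw [hg]; trivial
  have h3 : Subgroup.closure {x, y} ≤ Subgroup.centralizer {⁅c, s⁆} := by
    rw [Subgroup.closure_le]
    rintro k (hk | hk)
    · rw [SetLike.mem_coe, Subgroup.mem_centralizer_singleton_iff, hk]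
      exact (commutatorElement_eq_one_iff_mul_comm.mp h1).symm
    · rw [SetLike.mem_coe, Subgroup.mem_centralizer_singleton_iff, show k = y from hk]
      exact (commutatorElement_eq_one_iff_mul_comm.mp h2).symm
  have h4 := h3 ht
  rw [Subgroup.mem_centralizer_singleton_iff] at h4
  exact commutatorElement_eq_one_iff_mul_comm.mpr h4.symm

/-- the third term is centralised by the radical of the form -/
theorem cen3x [Finite Q] (h : Four Q w) {x y : Q} (hg : Subgroup.closure {x, y} = ⊤) {s : Q}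
    (hs : ∀ t : Q, ⁅⁅⁅x, y⁆, s⁆, t⁆ = 1) {v : Q} (hv : v ∈ g3 Q) : ⁅v, s⁆ = 1 := by
  have hc' : v ∈ Subgroup.closure {x : Q | ∃ a ∈ commutator Q, ∃ g ∈ (⊤ : Subgroup Q),
      ⁅a, g⁆ = x} := hv
  clear hv
  induction hc' using Subgroup.closure_induction with
  | mem z hz =>
    obtain ⟨a, ha, g, _, rfl⟩ := hz
    obtain ⟨k, e, he, rfl⟩ := comm_form hg ha
    rw [h.Mc (zpow_mem (comm_mem x y) k) (g3_le he), h.M3 he, mul_one,
      h.Mzpow (comm_mem x y), h.Msymm (comm_mem x y), hs, one_zpow]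
  | one => simp
  | mul a b ha hb iha ihb => rw [h.tl ha hb, iha, ihb, one_mul]
  | inv a _ iha =>
    have h1 := commutatorElement_eq_one_iff_commute.mp iha
    exact commutatorElement_eq_one_iff_commute.mpr h1.inv_left

/-- the form is not trivial -/
theorem Mne [Finite Q] (h : Four Q w) {x y : Q} (hg : Subgroup.closure {x, y} = ⊤)
    (h1 : ⁅⁅⁅x, y⁆, x⁆, x⁆ = 1) (h2 : ⁅⁅⁅x, y⁆, x⁆, y⁆ = 1) (h3 : ⁅⁅⁅x, y⁆, y⁆, y⁆ = 1) :
    False := by
  have hx : ∀ t : Q, ⁅⁅⁅x, y⁆, x⁆, t⁆ = 1 := h.Mgen hg (comm_mem x y) h1 h2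
  have hy : ∀ t : Q, ⁅⁅⁅x, y⁆, y⁆, t⁆ = 1 := h.Mgen hg (comm_mem x y)
    (by rw [h.Msymm (comm_mem x y)]; exact h2) h3
  have hall : ∀ v ∈ g3 Q, ∀ t : Q, ⁅v, t⁆ = 1 := by
    intro v hv t
    have ht : t ∈ Subgroup.closure {x, y} := by rw [hg]; trivial
    have h3 : Subgroup.closure {x, y} ≤ Subgroup.centralizer {v} := by
      rw [Subgroup.closure_le]
      rintro k (hk | hk)
      · rw [SetLike.mem_coe, Subgroup.mem_centralizer_singleton_iff, hk]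
        exact (commutatorElement_eq_one_iff_mul_comm.mp (h.cen3x hg hx hv)).symm
      · rw [SetLike.mem_coe, Subgroup.mem_centralizer_singleton_iff, show k = y from hk]
        exact (commutatorElement_eq_one_iff_mul_comm.mp (h.cen3x hg hy hv)).symm
    have h4 := h3 ht
    rw [Subgroup.mem_centralizer_singleton_iff] at h4
    exact commutatorElement_eq_one_iff_mul_comm.mpr h4.symm
  have h5 : g4 Q = ⊥ := by
    rw [eq_bot_iff, g4, Subgroup.commutator_le]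
    intro v hv t _
    exact hall v hv t
  have h6 := h.w4
  rw [h5, Subgroup.mem_bot] at h6
  exact h.wne h6

/-- the commutator of a generating pair is not in the third term -/
theorem u_not_mem [Finite Q] (h : Four Q w) {x y : Q} (hg : Subgroup.closure {x, y} = ⊤) :
    ⁅x, y⁆ ∉ g3 Q := fun hu => h.Mne hg (h.M3 hu _ _) (h.M3 hu _ _) (h.M3 hu _ _)

/-- every element is `y ^ m * (c * x ^ i)` -/
theorem form (x y : Q) (hg : Subgroup.closure {x, y} = ⊤) (t : Q) :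
    ∃ m i : ℤ, ∃ c ∈ commutator Q, t = y ^ m * (c * x ^ i) := by
  have hn := normal_of_comm_le (commutator Q ⊔ Subgroup.zpowers x) le_sup_left
  obtain ⟨m, s, hs, rfl⟩ := form_pair hg (commutator Q ⊔ Subgroup.zpowers x)
    ((le_sup_right : _ ≤ commutator Q ⊔ Subgroup.zpowers x) (Subgroup.mem_zpowers x)) t
  rw [Subgroup.mem_sup_of_normal_left] at hs
  obtain ⟨c, hc, _, ⟨i, rfl⟩, rfl⟩ := hs
  exact ⟨m, i, c, hc, rfl⟩

/-- the commutator with a square -/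
theorem csq [Finite Q] (h : Four Q w) {c : Q} (hc : c ∈ commutator Q) (s : Q) :
    ⁅c, s * s⁆ = ⁅⁅c, s⁆, s⁆ := by
  rw [h.comm2 hc, ← mul_assoc, ← h.cen4 (g4_mem (g3_mem hc s) s), mul_assoc,
    h.sq3 (g3_mem hc s), mul_one]

/-- `⁅x, y * y⁆` -/
theorem fsq [Finite Q] (h : Four Q w) (x y : Q) :
    ⁅x, y * y⁆ = ⁅x, y⁆ * ⁅x, y⁆ * ⁅⁅x, y⁆, y⁆ := by
  have h1 : ⁅x, y * y⁆ = ⁅x, y⁆ * (y * ⁅x, y⁆ * y⁻¹) := by
    simp only [commutatorElement_def]; group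
  have h2 : y * ⁅x, y⁆ * y⁻¹ = (⁅⁅x, y⁆, y⁆)⁻¹ * ⁅x, y⁆ := by
    simp only [commutatorElement_def]; group
  have h3 : (⁅⁅x, y⁆, y⁆)⁻¹ = ⁅⁅x, y⁆, y⁆ :=
    inv_eq_of_mul_eq_one_left (h.sq3 (g3_mem (comm_mem x y) y))
  rw [h1, h2, h3, ← h.ab23 (comm_mem x y) (g3_mem (comm_mem x y) y), mul_assoc]

theorem fsq_mem [Finite Q] (h : Four Q w) (x y : Q) : ⁅x, y * y⁆ ∈ g3 Q := by
  rw [h.fsq]
  exact mul_mem (g4_le (h.sq _ (comm_mem x y))) (g3_mem (comm_mem x y) y)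

/-- `⁅⁅x, y * y⁆, t⁆` -/
theorem fsqM [Finite Q] (h : Four Q w) (x y t : Q) : ⁅⁅x, y * y⁆, t⁆ = ⁅⁅⁅x, y⁆, y⁆, t⁆ := by
  have h4 := h.sq _ (comm_mem x y)
  have h5 : ⁅⁅x, y⁆ * ⁅x, y⁆, t⁆ = 1 :=
    commutatorElement_eq_one_iff_mul_comm.mpr (h.cen4 h4 t)
  rw [h.fsq, h.tl (g4_le h4) (g3_mem (comm_mem x y) y), h5, one_mul]

/-- first exclusion, first part -/
theorem s1a [Finite Q] (h : Four Q w) {x y : Q} (hg : Subgroup.closure {x, y} = ⊤)
    (hx : ∀ t : Q, ⁅⁅⁅x, y⁆, x⁆, t⁆ = 1) : ⁅⁅x, y⁆, x⁆ = w := by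
  haveI : Fact (Nat.Prime 2) := ⟨Nat.prime_two⟩
  have hyy : ⁅⁅⁅x, y⁆, y⁆, y⁆ = w := by
    rcases h.Mval (comm_mem x y) y y with h1 | h1
    · exact absurd (h.Mne hg (hx x) (hx y) h1) id
    · exact h1
  set u := ⁅x, y⁆ with hu
  have hum : u ∈ commutator Q := comm_mem x y
  set a := ⁅u, x⁆ with ha
  have ham : a ∈ g3 Q := g3_mem hum x
  have hac : ∀ g, a * g = g * a := fun g => commutatorElement_eq_one_iff_mul_comm.mp (hx g)
  have ha2 : a * a = 1 := h.sq3 ham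
  have hainv : a⁻¹ = a := inv_eq_of_mul_eq_one_left ha2
  obtain ⟨t, ht⟩ := h.hyp.comm x (h.hyp.not_mem hg) w (g3_le (g4_le h.w4))
  have ht' : ⁅x, t⁆ = w := by rw [← commutatorElement_inv, ht, h.inv4 h.w4]
  obtain ⟨m, i, c, hc, rfl⟩ := form x y hg t
  obtain ⟨k, e, he, rfl⟩ := comm_form hg hc
  obtain ⟨n, hn⟩ := exists_nat_pow y m
  obtain ⟨k', hk'⟩ := exists_nat_pow u k
  rw [← hn, ← hk'] at ht'
  -- simplify the commutator
  have hex : e * x = x * e := commutatorElement_eq_one_iff_mul_comm.mp (h.cen3x hg hx he)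
  have hr : Commute (e * x ^ i) x := by
    have h1 : Commute e x := hex
    exact h1.mul_left ((Commute.refl x).zpow_left i)
  have h1 : ⁅x, y ^ n * (u ^ k' * e * x ^ i)⁆ = ⁅x, y ^ n * u ^ k'⁆ := by
    have h2 : (e * x ^ i) * x⁻¹ = x⁻¹ * (e * x ^ i) := (hr.inv_right).eq
    rw [commutatorElement_def, commutatorElement_def]
    calc x * (y ^ n * (u ^ k' * e * x ^ i)) * x⁻¹ * (y ^ n * (u ^ k' * e * x ^ i))⁻¹
        = x * (y ^ n * u ^ k') * ((e * x ^ i) * x⁻¹) * (e * x ^ i)⁻¹ * (y ^ n * u ^ k')⁻¹ := by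
          group
      _ = _ := by rw [h2]; group
  have hxu : ∀ k : ℕ, ⁅x, u ^ k⁆ = a ^ k := by
    intro k
    have h3 : x * u * x⁻¹ = a * u := by
      have : x * u * x⁻¹ = a⁻¹ * u := by rw [ha, commutatorElement_def]; group
      rw [this, hainv]
    have h4 : Commute a u := hac u
    rw [commutatorElement_def, ← conj_pow, h3, h4.mul_pow, mul_inv_cancel_right]
  have h2 : ⁅x, y ^ n * u ^ k'⁆ = ⁅x, y ^ n⁆ * a ^ k' := by
    have h3 : ⁅x, y ^ n * u ^ k'⁆ = ⁅x, y ^ n⁆ * (y ^ n * ⁅x, u ^ k'⁆ * (y ^ n)⁻¹) := by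
      simp only [commutatorElement_def]; group
    have h4 : a ^ k' * y ^ n = y ^ n * a ^ k' := Commute.pow_pow (hac y) k' n
    rw [h3, hxu, ← h4, mul_inv_cancel_right]
  rw [h1, h2] at ht'
  -- values of `⁅x, y ^ n⁆`
  have hu4 : u * u ∈ g4 Q := h.sq u hum
  let f2 := ⁅x, y * y⁆
  have hf2m : f2 ∈ g3 Q := h.fsq_mem x y
  have hf2y : ⁅f2, y⁆ = w := by
    show ⁅⁅x, y * y⁆, y⁆ = w
    rw [h.fsqM]; exact hyy
  have hf4 : ⁅x, y ^ 4⁆ = 1 := by
    have h3 : ⁅x, y ^ 4⁆ = f2 * ((y * y) * f2 * (y * y)⁻¹) := by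
      show ⁅x, y ^ 4⁆ = ⁅x, y * y⁆ * ((y * y) * ⁅x, y * y⁆ * (y * y)⁻¹)
      have e4 : y ^ 4 = (y * y) * (y * y) := by
        simp only [pow_succ, pow_zero, one_mul, mul_assoc]
      rw [e4]
      simp only [commutatorElement_def]; group
    rw [h3, h.conj3 hf2m, h.tr hf2m, hf2y, h.w2, one_mul, h.sq3 hf2m]
  have hper : ∀ j r : ℕ, ⁅x, y ^ (4 * j + r)⁆ = ⁅x, y ^ r⁆ := by
    intro j r
    have h5 : ⁅x, y ^ (4 * j)⁆ = 1 := by
      rw [pow_mul]
      have h6 : Commute x (y ^ 4) := commutatorElement_eq_one_iff_commute.mp hf4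
      exact commutatorElement_eq_one_iff_commute.mpr (h6.pow_right j)
    have h6 : ⁅x, y ^ (4 * j) * y ^ r⁆
        = ⁅x, y ^ (4 * j)⁆ * (y ^ (4 * j) * ⁅x, y ^ r⁆ * (y ^ (4 * j))⁻¹) := by
      simp only [commutatorElement_def]; group
    have h7 : Commute (y ^ (4 * j)) ⁅x, y ^ r⁆ := by
      have h8 : Commute (y ^ (4 * j)) x := by
        have := commutatorElement_eq_one_iff_commute.mp h5
        exact this.symm
      have h9 : Commute (y ^ (4 * j)) (y ^ r) := Commute.pow_pow (Commute.refl y) _ _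
      rw [commutatorElement_def]
      exact ((h8.mul_right h9).mul_right h8.inv_right).mul_right h9.inv_right
    rw [pow_add, h6, h5, one_mul, h7.eq, mul_inv_cancel_right]
  have hmod : n = 4 * (n / 4) + n % 4 := (Nat.div_add_mod n 4).symm
  rw [hmod, hper] at ht'
  have hcases : n % 4 = 0 ∨ n % 4 = 1 ∨ n % 4 = 2 ∨ n % 4 = 3 := by omega
  have hak : a ^ k' ∈ g3 Q := pow_mem ham k'
  rcases hcases with h0 | h0 | h0 | h0
  · rw [h0, pow_zero, commutatorElement_one_right, one_mul] at ht'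
    rcases Nat.even_or_odd' k' with ⟨l, hl | hl⟩
    · exfalso
      apply h.wne
      rw [← ht', hl, pow_mul, pow_two, ha2, one_pow]
    · rw [← ht', hl, pow_add, pow_mul, pow_two, ha2, one_pow, one_mul, pow_one]
  · exfalso
    rw [h0, pow_one] at ht'
    apply h.u_not_mem hg
    have h3 : ⁅x, y⁆ = w * (a ^ k')⁻¹ := by rw [← ht', mul_inv_cancel_right]
    rw [h3]
    exact mul_mem (g4_le h.w4) (inv_mem hak)
  · exfalso
    rw [h0, pow_two] at ht'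
    have h3 : ⁅f2 * a ^ k', y⁆ = 1 := by
      show ⁅⁅x, y * y⁆ * a ^ k', y⁆ = 1
      rw [ht']
      exact commutatorElement_eq_one_iff_mul_comm.mpr (h.wc y)
    have h4 : ⁅a ^ k', y⁆ = 1 :=
      commutatorElement_eq_one_iff_mul_comm.mpr (Commute.pow_left (hac y) k')
    rw [h.tl hf2m hak, h4, mul_one, hf2y] at h3
    exact h.wne h3
  · exfalso
    rw [h0] at ht'
    apply h.u_not_mem hg
    have h3 : ⁅x, y ^ 3⁆ = ⁅x, y⁆ * (y * f2 * y⁻¹) := by
      show ⁅x, y ^ 3⁆ = ⁅x, y⁆ * (y * ⁅x, y * y⁆ * y⁻¹)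
      have e4 : y ^ 3 = y * (y * y) := by
        simp only [pow_succ, pow_zero, one_mul, mul_assoc]
      rw [e4]
      simp only [commutatorElement_def]; group
    have h4 : y * f2 * y⁻¹ ∈ g3 Q := by
      rw [h.conj3 hf2m]
      exact mul_mem (g4_le (g4_mem hf2m y)) hf2m
    have h5 : ⁅x, y⁆ = w * (a ^ k')⁻¹ * (y * f2 * y⁻¹)⁻¹ := by
      rw [← ht', h3, mul_inv_cancel_right, mul_inv_cancel_right]
    rw [h5]
    exact mul_mem (mul_mem (g4_le h.w4) (inv_mem hak)) (inv_mem h4)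

/-- first exclusion -/
theorem s1 [Finite Q] (h : Four Q w) {x y : Q} (hg : Subgroup.closure {x, y} = ⊤)
    (h1 : ⁅⁅⁅x, y⁆, x⁆, x⁆ = 1) (h2 : ⁅⁅⁅x, y⁆, x⁆, y⁆ = 1) : False := by
  have hx : ∀ t : Q, ⁅⁅⁅x, y⁆, x⁆, t⁆ = 1 := h.Mgen hg (comm_mem x y) h1 h2
  have hyy : ⁅⁅⁅x, y⁆, y⁆, y⁆ = w := by
    rcases h.Mval (comm_mem x y) y y with h3 | h3
    · exact absurd (h.Mne hg h1 h2 h3) id
    · exact h3
  have h3 := h.s1a hg hx
  have hu' : ⁅x * (y * y), y⁆ = ⁅x, y⁆ := by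
    simp only [commutatorElement_def]; group
  have hg' : Subgroup.closure {x * (y * y), y} = ⊤ := by
    rw [eq_top_iff, ← hg, Subgroup.closure_le]
    have hyK : y ∈ Subgroup.closure {x * (y * y), y} := Subgroup.subset_closure (Or.inr rfl)
    have hxK : x * (y * y) ∈ Subgroup.closure {x * (y * y), y} :=
      Subgroup.subset_closure (Or.inl rfl)
    rintro k (hk | hk)
    · have : k = x * (y * y) * (y * y)⁻¹ := by rw [mul_inv_cancel_right]; exact hk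
      rw [SetLike.mem_coe, this]
      exact mul_mem hxK (inv_mem (mul_mem hyK hyK))
    · rw [SetLike.mem_coe, show k = y from hk]; exact hyK
  have h4 := h.s1a hg' (by
    intro t
    rw [hu', h.Ml (comm_mem x y), hx, one_mul, h.Ml (comm_mem x y)]
    exact h.sq4 (g4_mem (g3_mem (comm_mem x y) y) t))
  rw [hu', h.comm2 (comm_mem x y), h3, h.csq (comm_mem x y), hyy] at h4
  have h5 : ⁅w, x⁆ = 1 := commutatorElement_eq_one_iff_mul_comm.mpr (h.wc x)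
  rw [h5, one_mul, h.w2] at h4
  exact h.wne h4.symm

/-- second exclusion -/
theorem s2 [Finite Q] (h : Four Q w) {x y : Q} (hg : Subgroup.closure {x, y} = ⊤)
    (h1 : ⁅⁅⁅x, y⁆, x⁆, x⁆ = 1) (h2 : ⁅⁅⁅x, y⁆, y⁆, y⁆ = 1) : False := by
  have hxy : ⁅⁅⁅x, y⁆, x⁆, y⁆ = w := by
    rcases h.Mval (comm_mem x y) x y with h3 | h3
    · exact absurd (h.Mne hg h1 h3 h2) id
    · exact h3
  set u := ⁅x, y⁆ with hu
  have hum : u ∈ commutator Q := comm_mem x y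
  obtain ⟨α, hα, hαx, hαy⟩ := h.hyp.pair hg (g3_le (g3_mem hum x)) (one_mem _)
  rw [one_mul] at hαy
  obtain ⟨g, hgc⟩ := isConj_iff.mp (hα u)
  have h3 : α u = w * u := by
    have e1 : α u = ⁅⁅u, x⁆ * x, y⁆ := by rw [← hαx, ← hαy, hu, map_commutatorElement, hαy]
    have e2 : ⁅⁅u, x⁆ * x, y⁆ = (⁅u, x⁆ * ⁅x, y⁆ * (⁅u, x⁆)⁻¹) * ⁅⁅u, x⁆, y⁆ := by
      simp only [commutatorElement_def]; group
    rw [e1, e2, ← hu, ← h.ab23 hum (g3_mem hum x), mul_inv_cancel_right, hxy, h.wc]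
  rw [h3] at hgc
  have h4 : ⁅u, g⁆ = w := by
    have e1 : ⁅g, u⁆ = w := by rw [commutatorElement_def, hgc, mul_inv_cancel_right]
    rw [← commutatorElement_inv, e1, h.inv4 h.w4]
  have hMg : ∀ t : Q, ⁅⁅u, g⁆, t⁆ = 1 := by
    intro t
    rw [h4]
    exact commutatorElement_eq_one_iff_mul_comm.mpr (h.wc t)
  obtain ⟨m, i, c, hc, rfl⟩ := form x y hg g
  have hMc : ∀ t : Q, ⁅⁅u, c⁆, t⁆ = 1 := by
    intro t
    have : ⁅u, c⁆ = 1 := commutatorElement_eq_one_iff_mul_comm.mpr (h.ab hum hc)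
    rw [this, commutatorElement_one_left]
  have hMpow : ∀ (s t : Q) (k : ℤ), ⁅⁅u, s ^ k⁆, t⁆ = ⁅⁅u, s⁆, t⁆ ^ k := by
    intro s t k
    let φ : Q →* Q :=
      { toFun := fun s => ⁅⁅u, s⁆, t⁆
        map_one' := by simp
        map_mul' := fun a b => h.Ml hum a b t }
    exact map_zpow φ s k
  have hMf : ∀ t : Q, ⁅⁅u, y⁆, t⁆ ^ m * ⁅⁅u, x⁆, t⁆ ^ i = 1 := by
    intro t
    have := hMg t
    rw [h.Ml hum, h.Ml hum, hMc, one_mul, hMpow, hMpow] at this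
    exact this
  have hw2 : w ^ (2 : ℤ) = 1 := by rw [zpow_two]; exact h.w2
  have hodd : ∀ k : ℤ, w ^ k = 1 → ∃ l, k = 2 * l := by
    intro k hk
    rcases Int.even_or_odd' k with ⟨l, hl | hl⟩
    · exact ⟨l, hl⟩
    · exfalso
      rw [hl, zpow_add, zpow_mul, hw2, one_zpow, one_mul, zpow_one] at hk
      exact h.wne hk
  have hm := hMf x
  rw [h1, one_zpow, mul_one, h.Msymm hum, hxy] at hm
  have hi := hMf y
  rw [h2, one_zpow, one_mul, hxy] at hi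
  obtain ⟨m', rfl⟩ := hodd m hm
  obtain ⟨i', rfl⟩ := hodd i hi
  have hcx : Commute u (x * x) := commutatorElement_eq_one_iff_commute.mp (by
    rw [h.csq hum, h1])
  have hcy : Commute u (y * y) := commutatorElement_eq_one_iff_commute.mp (by
    rw [h.csq hum, h2])
  have hcc : Commute u c := h.ab hum hc
  have hfin : ⁅u, y ^ (2 * m') * (c * x ^ (2 * i'))⁆ = 1 := by
    apply commutatorElement_eq_one_iff_commute.mpr
    have e1 : y ^ (2 * m') = (y * y) ^ m' := by rw [zpow_mul, zpow_two]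
    have e2 : x ^ (2 * i') = (x * x) ^ i' := by rw [zpow_mul, zpow_two]
    rw [e1, e2]
    exact (hcy.zpow_right m').mul_right (hcc.mul_right (hcx.zpow_right i'))
  rw [hfin] at h4
  exact h.wne h4.symm

/-- third exclusion -/
theorem s3 [Finite Q] (h : Four Q w) {x y : Q} (hg : Subgroup.closure {x, y} = ⊤)
    (h1 : ⁅⁅⁅x, y⁆, x⁆, x⁆ = w) (h2 : ⁅⁅⁅x, y⁆, y⁆, y⁆ = w) (h3 : ⁅⁅⁅x, y⁆, x⁆, y⁆ = 1) :
    False := by
  set u := ⁅x, y⁆ with hu
  have hum : u ∈ commutator Q := comm_mem x y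
  set v := ⁅u, x⁆ with hv
  have hvm : v ∈ g3 Q := g3_mem hum x
  obtain ⟨α, hα, hαx, hαy⟩ := h.hyp.pair hg (g3_le hvm) (one_mem _)
  rw [one_mul] at hαy
  set g := (x * x) * (y * y) with hgdef
  have hαg : α g = w * g := by
    have e1 : α (x * x) = w * (x * x) := by
      rw [map_mul, hαx]
      calc v * x * (v * x) = v * (x * v * x⁻¹) * (x * x) := by group
        _ = v * (⁅v, x⁆ * v) * (x * x) := by rw [h.conj3 hvm]
        _ = w * (x * x) := by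
          rw [h1, h.wc v, ← mul_assoc v v w, h.sq3 hvm, one_mul]
    rw [hgdef, map_mul, e1, map_mul, hαy, mul_assoc]
  obtain ⟨z, hz⟩ := isConj_iff.mp (hα g)
  rw [hαg] at hz
  -- the commutators of squares
  set f := ⁅x, y * y⁆ with hf
  set k := ⁅y, x * x⁆ with hk
  have hfm : f ∈ g3 Q := h.fsq_mem x y
  have hkm : k ∈ g3 Q := h.fsq_mem y x
  have hfM : ∀ t : Q, ⁅f, t⁆ = ⁅⁅u, y⁆, t⁆ := fun t => h.fsqM x y t
  have hkM : ∀ t : Q, ⁅k, t⁆ = ⁅v, t⁆ := by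
    intro t
    rw [hk, h.fsqM y x t, hv, hu]
    exact h.Mtrans hg (by rw [Set.pair_comm]; exact hg) x t
  have hfx : ⁅f, x⁆ = 1 := by rw [hfM, h.Msymm hum]; exact h3
  have hfy : ⁅f, y⁆ = w := by rw [hfM]; exact h2
  have hkx : ⁅k, x⁆ = w := by rw [hkM]; exact h1
  have hky : ⁅k, y⁆ = 1 := by rw [hkM]; exact h3
  have hsq3 : ∀ e ∈ g3 Q, ∀ s : Q, Commute e (s * s) := by
    intro e he s
    apply commutatorElement_eq_one_iff_commute.mp
    rw [h.tr he]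
    exact h.sq4 (g4_mem he s)
  have hcxy : Commute (x * x) (y * y) := by
    have e1 : x * (y * y) * x⁻¹ = f * (y * y) := by rw [hf, commutatorElement_def]; group
    have e2 : x * f * x⁻¹ = f := by rw [h.conj3 hfm, hfx, one_mul]
    have e3 : (x * x) * (y * y) * (x * x)⁻¹ = y * y := by
      calc (x * x) * (y * y) * (x * x)⁻¹ = x * (x * (y * y) * x⁻¹) * x⁻¹ := by group
        _ = x * (f * (y * y)) * x⁻¹ := by rw [e1]
        _ = (x * f * x⁻¹) * (x * (y * y) * x⁻¹) := by group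
        _ = f * (f * (y * y)) := by rw [e2, e1]
        _ = y * y := by rw [← mul_assoc, h.sq3 hfm, one_mul]
    calc (x * x) * (y * y) = (x * x) * (y * y) * (x * x)⁻¹ * (x * x) := by group
      _ = _ := by rw [e3]
  have hgx : Commute (x * x) g := (Commute.refl _).mul_right hcxy
  have hgy : Commute (y * y) g := hcxy.symm.mul_right (Commute.refl _)
  have hgu : Commute u g := by
    apply commutatorElement_eq_one_iff_commute.mp
    have e1 : ⁅u, g⁆ = ⁅u, x * x⁆ * ((x * x) * ⁅u, y * y⁆ * (x * x)⁻¹) := by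
      rw [hgdef]; simp only [commutatorElement_def]; group
    rw [e1, h.csq hum, h.csq hum, h2]
    have e2 : ⁅⁅u, x⁆, x⁆ = w := h1
    rw [e2, ← h.wc, mul_inv_cancel_right, h.w2]
  have hgc : ∀ c ∈ commutator Q, Commute c g := by
    intro c hc
    obtain ⟨l, e, he, rfl⟩ := comm_form hg hc
    refine Commute.mul_left (hgu.zpow_left l) ?_
    exact (hsq3 e he x).mul_right (hsq3 e he y)
  have hxg : x * g * x⁻¹ = f * g := by
    have e1 : x * (y * y) * x⁻¹ = f * (y * y) := by rw [hf, commutatorElement_def]; group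
    calc x * g * x⁻¹ = (x * x) * (x * (y * y) * x⁻¹) := by rw [hgdef]; group
      _ = ((x * x) * f) * (y * y) := by rw [e1]; group
      _ = (f * (x * x)) * (y * y) := by rw [(hsq3 f hfm x).eq]
      _ = f * g := by rw [hgdef]; group
  have hyg : y * g * y⁻¹ = k * g := by
    have e1 : y * (x * x) * y⁻¹ = k * (x * x) := by rw [hk, commutatorElement_def]; group
    calc y * g * y⁻¹ = (y * (x * x) * y⁻¹) * (y * y) := by rw [hgdef]; group
      _ = k * g := by rw [e1, hgdef]; group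
  obtain ⟨m, i, c, hc, rfl⟩ := form x y hg z
  -- contradiction from an equation in the third term
  have hwM : ∀ t : Q, ⁅w, t⁆ = 1 := fun t => commutatorElement_eq_one_iff_mul_comm.mpr (h.wc t)
  -- the value of `x ^ i g x ^ (-i)`
  have hstep : ∀ j : ℤ, (x * x) ^ j * g * ((x * x) ^ j)⁻¹ = g := by
    intro j
    rw [(hgx.zpow_left j).eq, mul_inv_cancel_right]
  have hstepy : ∀ (j : ℤ) (e : Q), e ∈ g3 Q →
      (y * y) ^ j * (e * g) * ((y * y) ^ j)⁻¹ = e * g := by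
    intro j e he
    have e1 : Commute (y * y) (e * g) := (hsq3 e he y).symm.mul_right hgy
    rw [(e1.zpow_left j).eq, mul_inv_cancel_right]
  have hxi : ∃ e ∈ g3 Q, x ^ i * g * (x ^ i)⁻¹ = e * g ∧ (e = 1 ∨ e = f) := by
    rcases Int.even_or_odd' i with ⟨l, hl | hl⟩
    · refine ⟨1, one_mem _, ?_, Or.inl rfl⟩
      have e1 : x ^ i = (x * x) ^ l := by rw [hl, zpow_mul, zpow_two]
      rw [e1, hstep, one_mul]
    · refine ⟨f, hfm, ?_, Or.inr rfl⟩
      have e1 : x ^ i = x * (x * x) ^ l := by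
        rw [hl, zpow_add, zpow_mul, zpow_two, zpow_one]
        exact ((Commute.refl x).mul_left (Commute.refl x)).zpow_left l |>.eq
      calc x ^ i * g * (x ^ i)⁻¹ = x * ((x * x) ^ l * g * ((x * x) ^ l)⁻¹) * x⁻¹ := by
            rw [e1]; group
        _ = f * g := by rw [hstep, hxg]
  obtain ⟨e, he, hxe, hecase⟩ := hxi
  have hce : c * (e * g) * c⁻¹ = e * g := by
    have e1 : Commute c (e * g) := by
      have e2 : Commute c e := h.ab23 hc he
      exact e2.mul_right (hgc c hc)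
    rw [e1.eq, mul_inv_cancel_right]
  have hz1 : y ^ m * (e * g) * (y ^ m)⁻¹ = w * g := by
    rw [← hz]
    calc y ^ m * (e * g) * (y ^ m)⁻¹ = y ^ m * (c * (e * g) * c⁻¹) * (y ^ m)⁻¹ := by rw [hce]
      _ = y ^ m * (c * (x ^ i * g * (x ^ i)⁻¹) * c⁻¹) * (y ^ m)⁻¹ := by rw [hxe]
      _ = _ := by group
  rcases Int.even_or_odd' m with ⟨l, hl | hl⟩
  · have e1 : y ^ m = (y * y) ^ l := by rw [hl, zpow_mul, zpow_two]
    rw [e1, hstepy l e he] at hz1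
    have e2 : e = w := mul_right_cancel hz1
    rcases hecase with h4 | h4
    · exact h.wne (by rw [← e2, h4])
    · have h5 : ⁅e, y⁆ = w := by rw [h4]; exact hfy
      rw [e2, hwM] at h5
      exact h.wne h5.symm
  · have e1 : y ^ m = y * (y * y) ^ l := by
      rw [hl, zpow_add, zpow_mul, zpow_two, zpow_one]
      exact ((Commute.refl y).mul_left (Commute.refl y)).zpow_left l |>.eq
    have e2 : y ^ m * (e * g) * (y ^ m)⁻¹ = (y * e * y⁻¹) * k * g := by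
      calc y ^ m * (e * g) * (y ^ m)⁻¹
          = y * ((y * y) ^ l * (e * g) * ((y * y) ^ l)⁻¹) * y⁻¹ := by rw [e1]; group
        _ = (y * e * y⁻¹) * (y * g * y⁻¹) := by rw [hstepy l e he]; group
        _ = _ := by rw [hyg]; group
    rw [e2] at hz1
    have e3 : (y * e * y⁻¹) * k = w := mul_right_cancel hz1
    have e4 : ⁅(y * e * y⁻¹) * k, x⁆ = w := by
      have e5 : y * e * y⁻¹ = ⁅e, y⁆ * e := h.conj3 he y
      have e6 : ⁅⁅e, y⁆, x⁆ = 1 :=
        commutatorElement_eq_one_iff_mul_comm.mpr (h.cen4 (g4_mem he y) x)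
      have e7 : ⁅e, x⁆ = 1 := by
        rcases hecase with h4 | h4
        · rw [h4, commutatorElement_one_left]
        · rw [h4, hfx]
      rw [e5, h.tl (mul_mem (g4_le (g4_mem he y)) he) hkm, h.tl (g4_le (g4_mem he y)) he, e6, e7,
        hkx, one_mul, one_mul]
    rw [e3, hwM] at e4
    exact h.wne e4.symm

/-- the situation is impossible -/
theorem false [Finite Q] (h : Four Q w) : False := by
  haveI : Fact (Nat.Prime 2) := ⟨Nat.prime_two⟩
  obtain ⟨x, hx⟩ : ∃ z : Q, z ∉ frattini Q := by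
    by_contra hcon
    push Not at hcon
    obtain ⟨x, hx⟩ := h.hyp.gen
    exact IsMinGen.not_mem h.hyp.pg x (isMinGen_of h.hyp.min x hx) 0 (hcon _)
  obtain ⟨y, hg⟩ := h.hyp.exists_pair x hx
  have hg1 : Subgroup.closure {y, x} = ⊤ := by rw [Set.pair_comm]; exact hg
  have hg2 : Subgroup.closure {x * y, y} = ⊤ := by
    rw [eq_top_iff, ← hg, Subgroup.closure_le]
    have hyK : y ∈ Subgroup.closure {x * y, y} := Subgroup.subset_closure (Or.inr rfl)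
    have hxK : x * y ∈ Subgroup.closure {x * y, y} := Subgroup.subset_closure (Or.inl rfl)
    rintro k (hk | hk)
    · have : k = x * y * y⁻¹ := by rw [mul_inv_cancel_right]; exact hk
      rw [SetLike.mem_coe, this]
      exact mul_mem hxK (inv_mem hyK)
    · rw [SetLike.mem_coe, show k = y from hk]; exact hyK
  have hg3 : Subgroup.closure {x, x * y} = ⊤ := by
    rw [eq_top_iff, ← hg, Subgroup.closure_le]
    have hyK : x * y ∈ Subgroup.closure {x, x * y} := Subgroup.subset_closure (Or.inr rfl)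
    have hxK : x ∈ Subgroup.closure {x, x * y} := Subgroup.subset_closure (Or.inl rfl)
    rintro k (hk | hk)
    · rw [SetLike.mem_coe, hk]; exact hxK
    · have : k = x⁻¹ * (x * y) := by rw [inv_mul_cancel_left]; exact hk
      rw [SetLike.mem_coe, this]
      exact mul_mem (inv_mem hxK) hyK
  have hg4 : Subgroup.closure {y, x * y} = ⊤ := by rw [Set.pair_comm]; exact hg2
  have hum : ⁅x, y⁆ ∈ commutator Q := comm_mem x y
  have T : ∀ {x' y' : Q}, Subgroup.closure {x', y'} = ⊤ → ∀ s t : Q,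
      ⁅⁅⁅x', y'⁆, s⁆, t⁆ = ⁅⁅⁅x, y⁆, s⁆, t⁆ := fun hg' s t => h.Mtrans hg hg' s t
  have hb' : ⁅⁅⁅x, y⁆, y⁆, x⁆ = ⁅⁅⁅x, y⁆, x⁆, y⁆ := h.Msymm hum y x
  have Mr : ∀ s t r : Q, ⁅⁅⁅x, y⁆, s⁆, t * r⁆ = ⁅⁅⁅x, y⁆, s⁆, t⁆ * ⁅⁅⁅x, y⁆, s⁆, r⁆ :=
    fun s t r => h.tr (g3_mem hum s) t r
  have Ml' : ∀ s t r : Q, ⁅⁅⁅x, y⁆, s * t⁆, r⁆ = ⁅⁅⁅x, y⁆, s⁆, r⁆ * ⁅⁅⁅x, y⁆, t⁆, r⁆ :=
    fun s t r => h.Ml hum s t r
  rcases h.Mval hum x y with hb | hb
  · -- b = 1
    rcases h.Mval hum x x with ha | ha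
    · exact h.s1 hg ha hb
    · rcases h.Mval hum y y with hc | hc
      · exact h.s1 hg1 (by rw [T hg1]; exact hc) (by rw [T hg1, hb']; exact hb)
      · exact h.s3 hg ha hc hb
  · rcases h.Mval hum x x with ha | ha
    · rcases h.Mval hum y y with hc | hc
      · exact h.s2 hg ha hc
      · refine h.s3 hg4 ?_ ?_ ?_
        · rw [T hg4]; exact hc
        · rw [T hg4, Ml', Mr, Mr, ha, hb, hb', hb, hc, one_mul, h.w2, mul_one]
        · rw [T hg4, Mr, hb', hb, hc, h.w2]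
    · rcases h.Mval hum y y with hc | hc
      · refine h.s3 hg3 ?_ ?_ ?_
        · rw [T hg3]; exact ha
        · rw [T hg3, Ml', Mr, Mr, ha, hb, hb', hb, hc, h.w2, one_mul, mul_one]
        · rw [T hg3, Mr, ha, hb, h.w2]
      · refine h.s1 hg2 ?_ ?_
        · rw [T hg2, Ml', Mr, Mr, ha, hb, hb', hb, hc, h.w2, one_mul]
        · rw [T hg2, Ml', hb, hc, h.w2]

end Four

end Pool.Agent.X255.ACmax
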