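import Mathlib
import Pool.Agent.X255.ACmax.Four

/-!
Finite p-groups with as many class-preserving automorphisms as possible: necessity, and the
translation of the counting condition.
-/

set_option autoImplicit false

open scoped commutatorElement

namespace Pool.Agent.X255.ACmax

open Pool.Agent.Helper832.AutC

theorem g4_bot {G : Type} [Group G] [Finite G] (h : Hyp 2 G 2)
    (hcase : ∀ c ∈ commutator G, c ^ 2 ∈ g3 G) : g4 G = ⊥ := by
  haveI : Fact (Nat.Prime 2) := ⟨Nat.prime_two⟩
  by_contra hne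
  obtain ⟨N, hN, -, hNH, hcen, v, hv, hvN, hvp, hgenv⟩ :=
    exists_between h.pg (g4 G) ⊥ (bot_lt_iff_ne_bot.mpr hne)
  have hQ := h.quot N (((hNH.trans g4_le).trans g3_le).trans (comm_le_frattini h.pg))
  let π := QuotientGroup.mk' N
  have hπs : Function.Surjective π := QuotientGroup.mk'_surjective N
  have hv2 : π v * π v = 1 := by
    rw [← map_mul, ← pow_two]
    exact (QuotientGroup.eq_one_iff _).mpr hvp
  have hF : Four (G ⧸ N) (π v) := by
    refine ⟨hQ, ?_, ?_, hv2, ?_, ?_, ?_⟩
    · rw [← g4_map π hπs]; exact Subgroup.mem_map_of_mem π hv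
    · intro h1
      exact hvN ((QuotientGroup.eq_one_iff v).mp h1)
    · intro g
      obtain ⟨g, rfl⟩ := hπs g
      rw [← commutatorElement_eq_one_iff_mul_comm, ← map_commutatorElement]
      exact (QuotientGroup.eq_one_iff _).mpr (hcen v hv g)
    · intro c hc
      rw [← g4_map π hπs] at hc
      obtain ⟨c, hc, rfl⟩ := hc
      obtain ⟨k, hk⟩ := hgenv c hc
      have h1 : π v ^ k = π c := by
        have h2 : π (v ^ k * c⁻¹) = 1 := (QuotientGroup.eq_one_iff _).mpr hk
        rw [map_mul, map_inv, map_zpow, mul_inv_eq_one] at h2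
        exact h2
      have h3 : π v ^ (2 : ℤ) = 1 := by rw [zpow_two]; exact hv2
      rcases Int.even_or_odd' k with ⟨l, hl | hl⟩
      · left
        rw [← h1, hl, zpow_mul, h3, one_zpow]
      · right
        rw [← h1, hl, zpow_add, zpow_mul, h3, one_zpow, one_mul, zpow_one]
    · intro c hc
      rw [← map_commutator π hπs] at hc
      obtain ⟨c, hc, rfl⟩ := hc
      rw [← map_mul, ← g4_map π hπs, ← pow_two]
      exact Subgroup.mem_map_of_mem π (sq_mem_g4 h hcase c hc)
  exact hF.false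

/-- necessity -/
theorem necessity {p : ℕ} [hp : Fact p.Prime] {G : Type} [Group G] [Finite G] {d : ℕ}
    (h : Hyp p G d) :
    (g3 G = ⊥ ∧ ∀ x ∉ frattini G, ∀ c ∈ commutator G, IsConj x (x * c)) ∨
    (d = 2 ∧ IsCyclic (commutator G) ∧ (p = 2 → ∀ v ∈ g3 G, ∃ c ∈ commutator G, c ^ 4 = v)) ∨
    (p = 2 ∧ d = 2 ∧ g3 G ≠ ⊥ ∧ g4 G = ⊥ ∧ ∀ c ∈ commutator G, c ^ 2 = 1) := by
  by_cases hne : g3 G = ⊥
  · refine Or.inl ⟨hne, ?_⟩
    intro x hx c hc
    obtain ⟨t, ht⟩ := h.comm x hx (x * c * x⁻¹) (Subgroup.Normal.conj_mem inferInstance c hc x)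
    refine isConj_iff.mpr ⟨t, ?_⟩
    have h1 : t * x * t⁻¹ = ⁅t, x⁆ * x := by rw [commutatorElement_def]; group
    rw [h1, ht]; group
  · right
    have hd := eq_two h hne
    subst hd
    by_cases hcase : p ≠ 2 ∨ ∃ c ∈ commutator G, c ^ 2 ∉ g3 G
    · left
      exact ⟨rfl, cyc_case h hcase⟩
    · right
      push Not at hcase
      obtain ⟨hp2, hc2⟩ := hcase
      subst hp2
      have h4 := g4_bot h hc2
      refine ⟨rfl, rfl, hne, h4, ?_⟩
      intro c hc
      have h5 := sq_mem_g4 h hc2 c hc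
      rw [h4, Subgroup.mem_bot] at h5
      exact h5

/-- the displacement map -/
theorem disp_inj {G : Type} [Group G] {d : ℕ} (x : Fin d → G)
    (hx : Subgroup.closure (Set.range x) = ⊤) :
    ∃ Ψ : AutC G → (Fin d → commutator G), Function.Injective Ψ ∧
      ∀ (α : AutC G) (i : Fin d), α.1 (x i) = (Ψ α i : G) * x i := by
  refine ⟨fun α i => ⟨α.1 (x i) * (x i)⁻¹, ?_⟩, ?_, ?_⟩
  · obtain ⟨g, hg⟩ := isConj_iff.mp (α.2 (x i))
    rw [← hg]
    exact comm_mem g (x i)
  · intro α β hab
    apply Subtype.ext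
    have h1 : (α.1 : G →* G) = (β.1 : G →* G) := by
      refine MonoidHom.eq_of_eqOn_dense hx ?_
      rintro _ ⟨i, rfl⟩
      have := congrArg Subtype.val (congrFun hab i)
      exact mul_right_cancel this
    exact MulEquiv.ext (fun g => DFunLike.congr_fun h1 g)
  · intro α i
    show α.1 (x i) = α.1 (x i) * (x i)⁻¹ * x i
    rw [inv_mul_cancel_right]

theorem exists_gen_rank {G : Type} [Group G] [Finite G] :
    ∃ x : Fin (Group.rank G) → G, Subgroup.closure (Set.range x) = ⊤ := by
  classical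
  obtain ⟨S, hS, hcl⟩ := Group.rank_spec G
  rw [← hS]
  refine ⟨fun i => (S.equivFin.symm i : S), ?_⟩
  rw [← hcl]
  congr 1
  ext g
  constructor
  · rintro ⟨i, rfl⟩
    exact (S.equivFin.symm i).2
  · intro hg
    exact ⟨S.equivFin ⟨g, hg⟩, by simp⟩

theorem rank_min {G : Type} [Group G] [Finite G] (n : ℕ) (x : Fin n → G)
    (hx : Subgroup.closure (Set.range x) = ⊤) : Group.rank G ≤ n := by
  classical
  have h1 := Group.rank_le (S := Finset.univ.image x) (by
    rw [Finset.coe_image, Finset.coe_univ, Set.image_univ]; exact hx)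
  refine h1.trans (Finset.card_image_le.trans ?_)
  simp

/-- the counting condition gives the realisation property -/
theorem hyp_of_card {p : ℕ} {G : Type} [Group G] [Finite G] (hG : IsPGroup p G)
    (hcard : Nat.card (AutC G) = Nat.card (commutator G) ^ Group.rank G) :
    Hyp p G (Group.rank G) := by
  refine ⟨hG, ?_, exists_gen_rank, fun n x hx => rank_min n x hx⟩
  intro x hx c hc
  obtain ⟨Ψ, hinj, hΨ⟩ := disp_inj x hx
  have h1 : Nat.card (Fin (Group.rank G) → commutator G) ≤ Nat.card (AutC G) := by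
    rw [hcard, Nat.card_fun, Nat.card_eq_fintype_card (α := Fin _), Fintype.card_fin]
  have hbij := hinj.bijective_of_nat_card_le h1
  obtain ⟨α, hα⟩ := hbij.2 (fun i => ⟨c i, hc i⟩)
  refine ⟨α.1, α.2, fun i => ?_⟩
  rw [hΨ α i, hα]

/-- realisation for one generating family gives the counting condition -/
theorem card_of_real {G : Type} [Group G] [Finite G] {d : ℕ} (x : Fin d → G)
    (hx : Subgroup.closure (Set.range x) = ⊤)
    (hreal : ∀ c : Fin d → G, (∀ i, c i ∈ commutator G) →
      ∃ α ∈ AutC G, ∀ i, α (x i) = c i * x i) :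
    Nat.card (AutC G) = Nat.card (commutator G) ^ d := by
  obtain ⟨Ψ, hinj, hΨ⟩ := disp_inj x hx
  have hsurj : Function.Surjective Ψ := by
    intro c
    obtain ⟨α, hα, h1⟩ := hreal (fun i => c i) (fun i => (c i).2)
    refine ⟨⟨α, hα⟩, funext fun i => Subtype.ext ?_⟩
    have h2 := hΨ ⟨α, hα⟩ i
    have h3 : (c i : G) * x i = (Ψ ⟨α, hα⟩ i : G) * x i := by rw [← h2]; exact (h1 i).symm
    exact (mul_right_cancel h3).symm
  have h1 := Nat.card_eq_of_bijective Ψ ⟨hinj, hsurj⟩
  rw [h1, Nat.card_fun, Nat.card_eq_fintype_card (α := Fin _), Fintype.card_fin]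

/-- realisation for one generating pair gives the counting condition -/
theorem card_of_pair {G : Type} [Group G] [Finite G] (x y : G)
    (hx : Subgroup.closure {x, y} = ⊤)
    (hreal : ∀ c₁ ∈ commutator G, ∀ c₂ ∈ commutator G, ∃ α ∈ AutC G, α x = c₁ * x ∧ α y = c₂ * y) :
    Nat.card (AutC G) = Nat.card (commutator G) ^ 2 := by
  refine card_of_real ![x, y] (by rw [range_pair]; exact hx) (fun c hc => ?_)
  obtain ⟨α, hα, h1, h2⟩ := hreal (c 0) (hc 0) (c 1) (hc 1)
  refine ⟨α, hα, fun i => ?_⟩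
  fin_cases i
  · exact h1
  · exact h2

/-- a generating pair when the rank is two -/
theorem exists_pair_of_rank {G : Type} [Group G] [Finite G] (hr : Group.rank G = 2) :
    ∃ x y : G, Subgroup.closure {x, y} = ⊤ ∧ IsMinGen ![x, y] := by
  have key : ∀ d : ℕ, Group.rank G = d → ∃ x : Fin d → G, Subgroup.closure (Set.range x) = ⊤ := by
    intro d hd
    subst hd
    exact exists_gen_rank
  obtain ⟨x, hx⟩ := key 2 hr
  have e : Set.range x = {x 0, x 1} := by
    ext t
    constructor
    · rintro ⟨i, rfl⟩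
      fin_cases i
      · exact Or.inl rfl
      · exact Or.inr rfl
    · rintro (rfl | rfl)
      · exact ⟨0, rfl⟩
      · exact ⟨1, rfl⟩
  rw [e] at hx
  refine ⟨x 0, x 1, hx, ?_⟩
  refine isMinGen_of (fun n y hy => ?_) _ (by rw [range_pair]; exact hx)
  exact hr.symm.le.trans (rank_min n y hy)

end Pool.Agent.X255.ACmax
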