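import Mathlib
import Pool.Agent.X255.ACmax.Nec
import Pool.Agent.Helper832.AutC.Cyc

/-!
Geometric sums modulo prime powers, and the cyclic case of sufficiency.
-/

set_option autoImplicit false

open scoped commutatorElement

namespace Pool.Agent.X255.ACmax

open Pool.Agent.Helper832.AutC

theorem not_dvd_of_qq {p : ℕ} [hp : Fact p.Prime] {l : ℤ} (hq : (qq p : ℤ) ∣ l - 1) :
    (p : ℤ) ∣ l - 1 ∧ ¬ (p : ℤ) ∣ l := by
  have h1 : (p : ℤ) ∣ l - 1 := by
    refine dvd_trans ?_ hq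
    unfold qq
    by_cases hp2 : p = 2
    · subst hp2; norm_num
    · rw [if_neg hp2]
  refine ⟨h1, fun h2 => ?_⟩
  have h3 : (p : ℤ) ∣ 1 := by
    have h4 := dvd_sub h2 h1
    rwa [sub_sub_cancel] at h4
  have h8 : p ∣ 1 := by exact_mod_cast h3
  exact hp.out.one_lt.ne' (Nat.dvd_one.mp h8)

theorem dvd_of_geom {p : ℕ} [hp : Fact p.Prime] (l : ℤ) (hq : (qq p : ℤ) ∣ l - 1) (m n : ℕ)
    (h : (p : ℤ) ^ m ∣ ∑ i ∈ Finset.range n, l ^ i) : (p : ℤ) ^ m ∣ (n : ℤ) := by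
  obtain ⟨h1, h2⟩ := not_dvd_of_qq hq
  by_cases hl : l = 1
  · subst hl
    simpa using h
  have hpp : Prime (p : ℤ) := Nat.prime_iff_prime_int.mp hp.out
  have key : emultiplicity (p : ℤ) (l ^ n - 1)
      = emultiplicity (p : ℤ) (l - 1) + emultiplicity (p : ℤ) (n : ℤ) := by
    by_cases hp2 : p = 2
    · subst hp2
      have h3 := Int.two_pow_sub_pow' (x := l) (y := 1) n (by
        have : (qq 2 : ℤ) = 4 := by unfold qq; norm_num
        rw [this] at hq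
        exact hq) (by exact_mod_cast h2)
      rw [one_pow] at h3
      exact_mod_cast h3
    · have h3 := Int.emultiplicity_pow_sub_pow (x := l) (y := 1) hp.out
        (hp.out.odd_of_ne_two hp2) h1 h2 n
      rw [one_pow] at h3
      rw [h3, Int.natCast_emultiplicity]
  have h4 : (l - 1) * ∑ i ∈ Finset.range n, l ^ i = l ^ n - 1 := mul_geom_sum l n
  rw [← h4, emultiplicity_mul hpp] at key
  have hfin : emultiplicity (p : ℤ) (l - 1) ≠ ⊤ := by
    apply finiteMultiplicity_iff_emultiplicity_ne_top.mp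
    refine Int.finiteMultiplicity_iff.mpr ⟨?_, sub_ne_zero.mpr hl⟩
    rw [Int.natAbs_natCast]
    exact hp.out.one_lt.ne'
  have h5 : emultiplicity (p : ℤ) (∑ i ∈ Finset.range n, l ^ i) = emultiplicity (p : ℤ) (n : ℤ) :=
    ENat.add_right_injective_of_ne_top hfin key
  rw [pow_dvd_iff_le_emultiplicity, ← h5, ← pow_dvd_iff_le_emultiplicity]
  exact h

theorem geom_surj {p : ℕ} [hp : Fact p.Prime] (l : ℤ) (hq : (qq p : ℤ) ∣ l - 1) (m : ℕ)
    (n : ℤ) : ∃ j : ℕ, (p : ℤ) ^ m ∣ (∑ i ∈ Finset.range j, l ^ i) - n := by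
  obtain ⟨h1, h2⟩ := not_dvd_of_qq hq
  have hpp : Prime (p : ℤ) := Nat.prime_iff_prime_int.mp hp.out
  haveI : NeZero (p ^ m) := ⟨(pow_pos hp.out.pos m).ne'⟩
  let f : Fin (p ^ m) → ZMod (p ^ m) := fun j => ((∑ i ∈ Finset.range (j : ℕ), l ^ i : ℤ) :)
  have hinj : ∀ a b : Fin (p ^ m), (a : ℕ) ≤ b → f a = f b → a = b := by
    intro a b hab heq
    have h3 : ((p ^ m : ℕ) : ℤ) ∣ (∑ i ∈ Finset.range (b : ℕ), l ^ i)
        - ∑ i ∈ Finset.range (a : ℕ), l ^ i := by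
      rw [← ZMod.intCast_eq_intCast_iff_dvd_sub]
      exact heq
    obtain ⟨c, hc⟩ := Nat.exists_eq_add_of_le hab
    have h4 : (∑ i ∈ Finset.range (b : ℕ), l ^ i) - ∑ i ∈ Finset.range (a : ℕ), l ^ i
        = l ^ (a : ℕ) * ∑ i ∈ Finset.range c, l ^ i := by
      rw [hc, Finset.sum_range_add, add_sub_cancel_left, Finset.mul_sum]
      refine Finset.sum_congr rfl (fun i _ => ?_)
      rw [pow_add]
    rw [h4] at h3
    push_cast at h3
    have h5 : IsCoprime ((p : ℤ) ^ m) (l ^ (a : ℕ)) :=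
      ((Prime.coprime_iff_not_dvd hpp).mpr h2).pow
    have h6 := dvd_of_geom l hq m c (h5.dvd_of_dvd_mul_left h3)
    have h7 : p ^ m ∣ c := by exact_mod_cast h6
    have h8 : c < p ^ m := by
      have := b.2
      omega
    have h9 : c = 0 := Nat.eq_zero_of_dvd_of_lt h7 h8
    apply Fin.ext
    omega
  have hinj' : Function.Injective f := by
    intro a b hab
    rcases le_total (a : ℕ) b with h | h
    · exact hinj a b h hab
    · exact (hinj b a h hab.symm).symm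
  have hcard : Nat.card (ZMod (p ^ m)) ≤ Nat.card (Fin (p ^ m)) := by
    rw [Nat.card_zmod, Nat.card_eq_fintype_card, Fintype.card_fin]
  obtain ⟨j, hj⟩ := (hinj'.bijective_of_nat_card_le hcard).2 (n : ZMod (p ^ m))
  refine ⟨j, ?_⟩
  have h3 : ((p ^ m : ℕ) : ℤ) ∣ (∑ i ∈ Finset.range (j : ℕ), l ^ i) - n := by
    rw [← ZMod.intCast_eq_intCast_iff_dvd_sub]
    exact hj.symm
  exact_mod_cast h3

/-- powers of an element acting on a cyclic subgroup reach all the powers -/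
theorem orbit_surj {p : ℕ} [hp : Fact p.Prime] {G : Type} [Group G] [Finite G]
    (hG : IsPGroup p G) (y t z : G) (l : ℤ) (hq : (qq p : ℤ) ∣ l - 1)
    (hyt : y * t * y⁻¹ = t ^ l) (ht : ⁅y, z⁆ = t) (n : ℤ) : ∃ j : ℕ, ⁅y ^ j, z⁆ = t ^ n := by
  have h1 : ∀ j : ℕ, ⁅y ^ j, z⁆ = t ^ (∑ i ∈ Finset.range j, l ^ i) := by
    intro j
    induction j with
    | zero => simp
    | succ j ih =>
      have e1 : ⁅y ^ (j + 1), z⁆ = (y * ⁅y ^ j, z⁆ * y⁻¹) * ⁅y, z⁆ := by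
        rw [pow_succ']; simp only [commutatorElement_def]; group
      have e2 : y * t ^ (∑ i ∈ Finset.range j, l ^ i) * y⁻¹
          = t ^ (l * ∑ i ∈ Finset.range j, l ^ i) := by
        rw [← conj_zpow, hyt, ← zpow_mul]
      rw [e1, ih, e2, ht, ← zpow_add_one, Finset.sum_range_succ', pow_zero, Finset.mul_sum]
      congr 2
      refine Finset.sum_congr rfl (fun i _ => ?_)
      rw [pow_succ']
  obtain ⟨k, hk⟩ := hG t
  obtain ⟨j, c, hc⟩ := geom_surj l hq k n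
  refine ⟨j, ?_⟩
  have h2 : (∑ i ∈ Finset.range j, l ^ i) = n + ((p ^ k : ℕ) : ℤ) * c := by
    push_cast
    linarith
  rw [h1, h2, zpow_add, zpow_mul, zpow_natCast, hk, one_zpow, mul_one]

/-- the action on a cyclic derived subgroup -/
theorem cyc_act {p : ℕ} [hp : Fact p.Prime] {G : Type} [Group G] [Finite G]
    (hG : IsPGroup p G) (u : G) (hu : u ∈ commutator G)
    (hgen : ∀ c ∈ commutator G, ∃ k : ℤ, c = u ^ k)
    (h4 : p = 2 → ∀ v ∈ g3 G, ∃ c ∈ commutator G, c ^ 4 = v) (g : G) :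
    ∃ l : ℤ, (qq p : ℤ) ∣ l - 1 ∧ ∀ c ∈ commutator G, g * c * g⁻¹ = c ^ l := by
  have key : ∃ l : ℤ, (qq p : ℤ) ∣ l - 1 ∧ g * u * g⁻¹ = u ^ l := by
    have hv : ⁅g, u⁆ ∈ g3 G := by
      rw [← commutatorElement_inv]
      exact inv_mem (g3_mem hu g)
    have hgu : g * u * g⁻¹ = ⁅g, u⁆ * u := by rw [commutatorElement_def]; group
    by_cases hp2 : p = 2
    · obtain ⟨c, hc, hc4⟩ := h4 hp2 _ hv
      obtain ⟨k, hk⟩ := hgen c hc
      refine ⟨k * 4 + 1, ?_, ?_⟩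
      · unfold qq
        rw [if_pos hp2]
        exact ⟨k, by push_cast; ring⟩
      · rw [hgu, ← hc4, hk, zpow_add_one, zpow_mul]
        congr 1
        exact (zpow_natCast (u ^ k) 4).symm
    · obtain ⟨k, hk⟩ := hgen _ (g3_le hv)
      by_cases hpk : (p : ℤ) ∣ k
      · obtain ⟨k', rfl⟩ := hpk
        refine ⟨(p : ℤ) * k' + 1, ?_, ?_⟩
        · unfold qq
          rw [if_neg hp2]
          exact ⟨k', by ring⟩
        · rw [hgu, hk, zpow_add_one]
      · -- then `u` is in the third term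
        rw [hk] at hv
        have hu3 : u ∈ g3 G := mem_of_zpow_mem hG _ u k hpk hv
        have hle : commutator G ≤ g3 G := by
          intro c hc
          obtain ⟨k, rfl⟩ := hgen c hc
          exact zpow_mem hu3 k
        have hnil : Group.IsNilpotent G := hG.isNilpotent
        have hbot := eq_bot_of_le_comm _ hle
        have hu1 : u = 1 := by
          rw [hbot, Subgroup.mem_bot] at hu
          exact hu
        refine ⟨1, by simp, ?_⟩
        rw [hu1]; simp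
  obtain ⟨l, hl, hlu⟩ := key
  refine ⟨l, hl, ?_⟩
  intro c hc
  obtain ⟨k, rfl⟩ := hgen c hc
  rw [← conj_zpow, hlu, ← zpow_mul, ← zpow_mul, mul_comm]

/-- sufficiency in the cyclic case, for a suitable generating pair -/
theorem cyc_suf {p : ℕ} [hp : Fact p.Prime] {G : Type} [Group G] [Finite G]
    (hG : IsPGroup p G) (a b : G) (hab : Subgroup.closure {a, b} = ⊤)
    (hcyc : IsCyclic (commutator G))
    (h4 : p = 2 → ∀ v ∈ g3 G, ∃ c ∈ commutator G, c ^ 4 = v) :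
    ∃ x y : G, Subgroup.closure {x, y} = ⊤ ∧ ∀ c₁ ∈ commutator G, ∀ c₂ ∈ commutator G,
      ∃ α ∈ AutC G, α x = c₁ * x ∧ α y = c₂ * y := by
  obtain ⟨⟨⟨u, hu⟩, hgen'⟩⟩ := hcyc
  have hgen : ∀ c ∈ commutator G, ∃ k : ℤ, c = u ^ k := by
    intro c hc
    obtain ⟨k, hk⟩ := hgen' ⟨c, hc⟩
    exact ⟨k, (congrArg Subtype.val hk).symm⟩
  have hact := cyc_act hG u hu hgen h4
  -- a generator centralising the derived subgroup
  have pick : ∀ a b : G, Subgroup.closure {a, b} = ⊤ → ⁅a, u⁆ ∈ Subgroup.zpowers ⁅b, u⁆ →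
      ∃ x y : G, Subgroup.closure {x, y} = ⊤ ∧ ∀ c ∈ commutator G, x * c = c * x := by
    intro a b hab hmem
    obtain ⟨n, hn⟩ := hmem
    have hn' : ⁅b, u⁆ ^ n = ⁅a, u⁆ := hn
    obtain ⟨l, hl, hlc⟩ := hact b
    obtain ⟨j, hj⟩ := orbit_surj hG b ⁅b, u⁆ u l hl (hlc _ (comm_mem b u)) rfl n
    refine ⟨(b ^ j)⁻¹ * a, b, ?_, ?_⟩
    · rw [eq_top_iff, ← hab, Subgroup.closure_le]
      have hbK : b ∈ Subgroup.closure {(b ^ j)⁻¹ * a, b} := Subgroup.subset_closure (Or.inr rfl)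
      have haK : (b ^ j)⁻¹ * a ∈ Subgroup.closure {(b ^ j)⁻¹ * a, b} :=
        Subgroup.subset_closure (Or.inl rfl)
      rintro k (hk | hk)
      · have : k = b ^ j * ((b ^ j)⁻¹ * a) := by rw [mul_inv_cancel_left]; exact hk
        rw [SetLike.mem_coe, this]
        exact mul_mem (pow_mem hbK j) haK
      · rw [SetLike.mem_coe, show k = b from hk]; exact hbK
    · rw [hn'] at hj
      have h1 : b ^ j * u * (b ^ j)⁻¹ = a * u * a⁻¹ := by
        have e1 : b ^ j * u * (b ^ j)⁻¹ = ⁅b ^ j, u⁆ * u := by rw [commutatorElement_def]; group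
        have e2 : a * u * a⁻¹ = ⁅a, u⁆ * u := by rw [commutatorElement_def]; group
        rw [e1, e2, hj]
      have h2 : Commute ((b ^ j)⁻¹ * a) u := by
        show (b ^ j)⁻¹ * a * u = u * ((b ^ j)⁻¹ * a)
        calc (b ^ j)⁻¹ * a * u = (b ^ j)⁻¹ * (a * u * a⁻¹) * a := by group
          _ = (b ^ j)⁻¹ * (b ^ j * u * (b ^ j)⁻¹) * a := by rw [h1]
          _ = _ := by group
      intro c hc
      obtain ⟨k, rfl⟩ := hgen c hc
      exact h2.zpow_right k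
  have hxy : ∃ x y : G, Subgroup.closure {x, y} = ⊤ ∧ ∀ c ∈ commutator G, x * c = c * x := by
    rcases chain_of_cyclic hG ⟨⟨⟨u, hu⟩, hgen'⟩⟩ a u b u with h1 | h1
    · exact pick a b hab h1
    · exact pick b a (by rw [Set.pair_comm]; exact hab) h1
  obtain ⟨x, y, hxy, hx⟩ := hxy
  refine ⟨x, y, hxy, ?_⟩
  have hN : (Subgroup.zpowers ⁅x, y⁆).Normal := by
    constructor
    rintro _ ⟨k, rfl⟩ g
    obtain ⟨l, -, hl⟩ := hact g
    show g * ⁅x, y⁆ ^ k * g⁻¹ ∈ _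
    rw [← conj_zpow, hl _ (comm_mem x y)]
    exact zpow_mem (zpow_mem (Subgroup.mem_zpowers _) l) k
  have hle := comm_le_of_pair hxy _ (Subgroup.mem_zpowers ⁅x, y⁆)
  intro c₁ hc₁ c₂ hc₂
  -- first coordinate
  obtain ⟨n, hn⟩ : ∃ n : ℤ, ⁅y, x⁆ ^ n = c₁ := by
    obtain ⟨n, hn⟩ := hle hc₁
    refine ⟨-n, ?_⟩
    rw [← commutatorElement_inv, inv_zpow', neg_neg]
    exact hn
  obtain ⟨l, hl, hlc⟩ := hact y
  obtain ⟨j, hj⟩ := orbit_surj hG y ⁅y, x⁆ x l hl (hlc _ (comm_mem y x)) rfl n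
  rw [hn] at hj
  -- second coordinate
  obtain ⟨i, hi⟩ := hle (Subgroup.Normal.conj_mem inferInstance c₂ hc₂ (y ^ j)⁻¹)
  have hi' : ⁅x, y⁆ ^ i = (y ^ j)⁻¹ * c₂ * ((y ^ j)⁻¹)⁻¹ := hi
  have hxi : ⁅x ^ i, y⁆ = ⁅x, y⁆ ^ i := by
    have e1 : y * x * y⁻¹ = (⁅x, y⁆)⁻¹ * x := by rw [commutatorElement_def]; group
    have e2 : Commute (⁅x, y⁆)⁻¹ x := by
      have : Commute x ⁅x, y⁆ := hx _ (comm_mem x y)
      exact this.symm.inv_left
    have e3 : y * x ^ i * y⁻¹ = (⁅x, y⁆ ^ i)⁻¹ * x ^ i := by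
      rw [← conj_zpow, e1, e2.mul_zpow, inv_zpow]
    have e4 : Commute (x ^ i) (⁅x, y⁆ ^ i) := by
      have : Commute x ⁅x, y⁆ := hx _ (comm_mem x y)
      exact this.zpow_zpow i i
    calc ⁅x ^ i, y⁆ = x ^ i * (y * x ^ i * y⁻¹)⁻¹ := by rw [commutatorElement_def]; group
      _ = x ^ i * ((⁅x, y⁆ ^ i)⁻¹ * x ^ i)⁻¹ := by rw [e3]
      _ = x ^ i * (x ^ i)⁻¹ * ⁅x, y⁆ ^ i := by group
      _ = _ := by rw [mul_inv_cancel, one_mul]
  refine ⟨MulAut.conj (y ^ j * x ^ i), fun z => isConj_iff.mpr ⟨y ^ j * x ^ i, rfl⟩, ?_, ?_⟩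
  · show y ^ j * x ^ i * x * (y ^ j * x ^ i)⁻¹ = c₁ * x
    have e1 : y ^ j * x ^ i * x * (y ^ j * x ^ i)⁻¹ = ⁅y ^ j, x⁆ * x := by
      rw [commutatorElement_def]; group
    rw [e1, hj]
  · show y ^ j * x ^ i * y * (y ^ j * x ^ i)⁻¹ = c₂ * y
    have e1 : y ^ j * x ^ i * y * (y ^ j * x ^ i)⁻¹ = (y ^ j * ⁅x ^ i, y⁆ * (y ^ j)⁻¹) * y := by
      simp only [commutatorElement_def]; group
    rw [e1, hxi, hi']; group

end Pool.Agent.X255.ACmax
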