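import Mathlib
import Pool.Agent.X255.ACmax.Geom

/-!
Finite p-groups with as many class-preserving automorphisms as possible: sufficiency.
-/

set_option autoImplicit false

open scoped commutatorElement

namespace Pool.Agent.X255.ACmax

open Pool.Agent.Helper832.AutC

/-- construction of homomorphisms to abelian groups -/
theorem exists_hom {G : Type} [Group G] {A : Type} [CommGroup A] {d : ℕ} (x : Fin d → G)
    (hx : Subgroup.closure (Set.range x) = ⊤) (c : Fin d → A)
    (hrel : ∀ a : Fin d → ℤ, ∏ i, (Abelianization.of (x i)) ^ a i = 1 → ∏ i, (c i) ^ a i = 1) :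
    ∃ f : G →* A, ∀ i, f (x i) = c i := by
  classical
  let P : Multiplicative (Fin d → ℤ) →* Abelianization G :=
    { toFun := fun a => ∏ i, (Abelianization.of (x i)) ^ (Multiplicative.toAdd a i)
      map_one' := by simp
      map_mul' := by
        intro a b
        rw [← Finset.prod_mul_distrib]
        refine Finset.prod_congr rfl (fun i _ => ?_)
        rw [toAdd_mul, Pi.add_apply, zpow_add] }
  let R : Multiplicative (Fin d → ℤ) →* A :=
    { toFun := fun a => ∏ i, (c i) ^ (Multiplicative.toAdd a i)
      map_one' := by simp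
      map_mul' := by
        intro a b
        rw [← Finset.prod_mul_distrib]
        refine Finset.prod_congr rfl (fun i _ => ?_)
        rw [toAdd_mul, Pi.add_apply, zpow_add] }
  have hP : Function.Surjective P := by
    intro b
    obtain ⟨g, rfl⟩ : ∃ g : G, Abelianization.of g = b := QuotientGroup.mk_surjective b
    obtain ⟨a, ha⟩ := exists_exp_ab x hx g
    exact ⟨Multiplicative.ofAdd a, ha.symm⟩
  have hker : P.ker ≤ R.ker := by
    intro a ha
    exact hrel (Multiplicative.toAdd a) ha
  let f' : Abelianization G →* A := P.liftOfSurjective hP ⟨R, hker⟩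
  refine ⟨f'.comp Abelianization.of, fun i => ?_⟩
  have h1 : P (Multiplicative.ofAdd (Pi.single i 1)) = Abelianization.of (x i) := by
    show ∏ j, (Abelianization.of (x j)) ^ ((Pi.single i 1 : Fin d → ℤ) j) = _
    rw [Finset.prod_eq_single i]
    · rw [Pi.single_eq_same, zpow_one]
    · intro j _ hj
      rw [Pi.single_eq_of_ne hj, zpow_zero]
    · intro h; exact absurd (Finset.mem_univ i) h
  have h2 : R (Multiplicative.ofAdd (Pi.single i 1)) = c i := by
    show ∏ j, (c j) ^ ((Pi.single i 1 : Fin d → ℤ) j) = _
    rw [Finset.prod_eq_single i]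
    · rw [Pi.single_eq_same, zpow_one]
    · intro j _ hj
      rw [Pi.single_eq_of_ne hj, zpow_zero]
    · intro h; exact absurd (Finset.mem_univ i) h
  show f' (Abelianization.of (x i)) = c i
  rw [← h1, ← h2]
  exact MonoidHom.liftOfRightInverse_comp_apply P _ _ ⟨R, hker⟩ _

/-- the automorphism attached to a central homomorphism into the derived subgroup -/
theorem exists_aut {G : Type} [Group G] [Finite G] (f : G →* Subgroup.center G)
    (hf : ∀ g, (f g : G) ∈ commutator G) : ∃ α : MulAut G, ∀ g, α g = (f g : G) * g := by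
  have hkill : ∀ c ∈ commutator G, f c = 1 := by
    intro c hc
    have h1 : commutator G ≤ f.ker := Abelianization.commutator_subset_ker f
    exact h1 hc
  let φ : G →* G :=
    { toFun := fun g => (f g : G) * g
      map_one' := by simp
      map_mul' := by
        intro a b
        have h1 := Subgroup.mem_center_iff.mp (f b).2 a
        rw [map_mul, Subgroup.coe_mul]
        calc (f a : G) * (f b : G) * (a * b) = (f a : G) * ((f b : G) * a) * b := by group
          _ = (f a : G) * (a * (f b : G)) * b := by rw [h1]
          _ = _ := by group }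
  have hinj : Function.Injective φ := by
    rw [injective_iff_map_eq_one]
    intro g hg
    have h1 : (f g : G) * g = 1 := hg
    have h2 : g = (f g : G)⁻¹ := eq_inv_of_mul_eq_one_right h1
    have h3 : f g = 1 := by
      rw [h2]
      exact hkill _ (inv_mem (hf g))
    rw [h2, h3]; simp
  exact ⟨MulEquiv.ofBijective φ (Finite.injective_iff_bijective.mp hinj), fun g => rfl⟩

/-- powers and commutators in class two -/
theorem comm_pow_two {G : Type} [Group G] (hc : ∀ c ∈ commutator G, ∀ g : G, c * g = g * c)
    (t g c : G) (hcc : c ∈ commutator G) (n : ℕ) : ⁅t, g ^ n * c⁆ = ⁅t, g⁆ ^ n := by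
  have h0 : ∀ n : ℕ, ⁅t, g ^ n⁆ = ⁅t, g⁆ ^ n := by
    intro n
    have h1 : t * g * t⁻¹ = ⁅t, g⁆ * g := by rw [commutatorElement_def]; group
    have h2 : Commute ⁅t, g⁆ g := hc _ (comm_mem t g) g
    rw [commutatorElement_def, ← conj_pow, h1, h2.mul_pow, mul_inv_cancel_right]
  have h1 : c * t⁻¹ = t⁻¹ * c := hc c hcc t⁻¹
  rw [← h0, commutatorElement_def, commutatorElement_def]
  calc t * (g ^ n * c) * t⁻¹ * (g ^ n * c)⁻¹ = t * g ^ n * (c * t⁻¹) * c⁻¹ * (g ^ n)⁻¹ := by group
    _ = _ := by rw [h1]; group

/-- sufficiency in class at most two -/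
theorem suf_two {p : ℕ} [hp : Fact p.Prime] {G : Type} [Group G] [Finite G]
    (hG : IsPGroup p G) (h3 : g3 G = ⊥)
    (hA : ∀ x ∉ frattini G, ∀ c ∈ commutator G, IsConj x (x * c)) {d : ℕ} (x : Fin d → G)
    (hx : IsMinGen x) (c : Fin d → G) (hcm : ∀ i, c i ∈ commutator G) :
    ∃ α ∈ AutC G, ∀ i, α (x i) = c i * x i := by
  classical
  have hcen : ∀ c ∈ commutator G, ∀ g : G, c * g = g * c := by
    intro c hc g
    rw [← commutatorElement_eq_one_iff_mul_comm]
    have := g3_mem hc g
    rw [h3, Subgroup.mem_bot] at this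
    exact this
  have hA' : ∀ x ∉ frattini G, ∀ c ∈ commutator G, ∃ t : G, ⁅t, x⁆ = c := by
    intro x hx c hc
    obtain ⟨t, ht⟩ := isConj_iff.mp (hA x hx c hc)
    refine ⟨t, ?_⟩
    rw [commutatorElement_def, ht, ← hcen c hc, mul_inv_cancel_right]
  have hcen' : ∀ c ∈ commutator G, c ∈ Subgroup.center G := by
    intro c hc
    rw [Subgroup.mem_center_iff]
    intro g
    exact (hcen c hc g).symm
  -- the relations
  have hrel : ∀ a : Fin d → ℤ, ∏ i, (Abelianization.of (x i)) ^ a i = 1 →
      ∀ c ∈ commutator G, ∀ i, c ^ a i = 1 := by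
    intro a ha
    have key : ∀ n : ℕ, (∀ i, ((p ^ n : ℕ) : ℤ) ∣ a i) ∨ (∀ c ∈ commutator G, ∀ i, c ^ a i = 1) := by
      intro n
      induction n with
      | zero => left; intro i; simp
      | succ n ih =>
        rcases ih with ih | ih
        · choose b hb using ih
          by_cases hbp : ∀ i, (p : ℤ) ∣ b i
          · left
            intro i
            obtain ⟨k, hk⟩ := hbp i
            refine ⟨k, ?_⟩
            rw [hb i, hk]
            push_cast
            ring
          · right
            obtain ⟨y, hy⟩ : ∃ y : G, Abelianization.of y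
                = ∏ i, (Abelianization.of (x i)) ^ b i := QuotientGroup.mk_surjective _
            have hyF : y ∉ frattini G := fun hyF => hbp (exp_dvd hG x hx b y hyF hy)
            have hyp : y ^ (p ^ n) ∈ commutator G := by
              have h1 : Abelianization.of (y ^ (p ^ n)) = 1 := by
                rw [map_pow, hy, ← Finset.prod_pow, ← ha]
                refine Finset.prod_congr rfl (fun i _ => ?_)
                rw [hb i, mul_comm, zpow_mul, zpow_natCast]
              exact (QuotientGroup.eq_one_iff _).mp h1
            intro c hc i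
            obtain ⟨t, ht⟩ := hA' y hyF c hc
            have h1 : c ^ (p ^ n) = 1 := by
              rw [← ht, ← comm_pow_two hcen t y 1 (one_mem _) (p ^ n), mul_one]
              apply commutatorElement_eq_one_iff_mul_comm.mpr
              exact (hcen _ hyp t).symm
            rw [hb i, zpow_mul, zpow_natCast, h1, one_zpow]
        · exact Or.inr ih
    obtain ⟨n, hn⟩ := (IsPGroup.iff_card (p := p) (G := G)).mp hG
    rcases key n with h1 | h1
    · intro c _ i
      obtain ⟨k, hk⟩ := h1 i
      rw [hk, zpow_mul, zpow_natCast, ← hn, pow_card_eq_one', one_zpow]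
    · exact h1
  let c' : Fin d → Subgroup.center G := fun i => ⟨c i, hcen' _ (hcm i)⟩
  obtain ⟨f, hf⟩ := exists_hom x hx.gen c' (by
    intro a ha
    refine Finset.prod_eq_one (fun i _ => ?_)
    apply Subtype.ext
    exact hrel a ha (c i) (hcm i) i)
  have hfm : ∀ g, (f g : G) ∈ commutator G := by
    intro g
    have hg : g ∈ Subgroup.closure (Set.range x) := by rw [hx.gen]; trivial
    have h1 : Subgroup.closure (Set.range x) ≤
        (commutator G).comap ((Subgroup.center G).subtype.comp f) := by
      rw [Subgroup.closure_le]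
      rintro _ ⟨i, rfl⟩
      show ((f (x i) : Subgroup.center G) : G) ∈ commutator G
      rw [hf i]
      exact hcm i
    exact h1 hg
  have hkill : ∀ c ∈ commutator G, f c = 1 := by
    intro c hc
    have h1 : commutator G ≤ f.ker := Abelianization.commutator_subset_ker f
    exact h1 hc
  obtain ⟨α, hα⟩ := exists_aut f hfm
  refine ⟨α, ?_, fun i => by rw [hα, hf i]⟩
  -- class-preserving
  have key : ∀ n : ℕ, ∀ g : G, (∃ t : G, ⁅t, g⁆ = (f g : G)) ∨
      ∃ h : G, ∃ c ∈ commutator G, g = h ^ (p ^ n) * c := by
    intro n g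
    induction n with
    | zero => right; exact ⟨g, 1, one_mem _, by simp⟩
    | succ n ih =>
      rcases ih with ih | ⟨h, c, hc, rfl⟩
      · exact Or.inl ih
      · by_cases hhF : h ∈ frattini G
        · right
          obtain ⟨k, e, he, rfl⟩ := frattini_form hG h hhF
          have h1 : Commute (k ^ p) e := (hcen e he (k ^ p)).symm
          refine ⟨k, e ^ (p ^ n) * c, mul_mem (pow_mem he _) hc, ?_⟩
          rw [h1.mul_pow, ← pow_mul, pow_succ', mul_assoc]
        · left
          obtain ⟨t, ht⟩ := hA' h hhF (f h) (hfm h)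
          refine ⟨t, ?_⟩
          rw [comm_pow_two hcen t h c hc, ht, map_mul, map_pow, hkill c hc, mul_one,
            Subgroup.coe_pow]
  intro g
  show IsConj g (α g)
  rw [hα]
  obtain ⟨n, hn⟩ := (IsPGroup.iff_card (p := p) (G := G)).mp hG
  have hP : ∃ t : G, ⁅t, g⁆ = (f g : G) := by
    rcases key n g with h1 | ⟨h, c, hc, rfl⟩
    · exact h1
    · refine ⟨1, ?_⟩
      rw [← hn, pow_card_eq_one', one_mul, hkill c hc]
      simp
  obtain ⟨t, ht⟩ := hP
  refine isConj_iff.mpr ⟨t, ?_⟩
  rw [← ht, commutatorElement_def]; group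

/-- sufficiency in class three -/
theorem suf_three {G : Type} [Group G] [Finite G]
    (hG : IsPGroup 2 G) (h4 : g4 G = ⊥) (h2 : ∀ c ∈ commutator G, c ^ 2 = 1) (x y : G)
    (hgen : Subgroup.closure {x, y} = ⊤) (hx : IsMinGen ![x, y]) (c₁ c₂ : G)
    (hc₁ : c₁ ∈ commutator G) (hc₂ : c₂ ∈ commutator G) :
    ∃ α ∈ AutC G, α x = c₁ * x ∧ α y = c₂ * y := by
  classical
  haveI : Fact (Nat.Prime 2) := ⟨Nat.prime_two⟩
  have hcen3 : ∀ c ∈ g3 G, ∀ g : G, c * g = g * c := by
    intro c hc g
    rw [← commutatorElement_eq_one_iff_mul_comm]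
    have := g4_mem hc g
    rw [h4, Subgroup.mem_bot] at this
    exact this
  have hinv : ∀ c ∈ commutator G, c⁻¹ = c := by
    intro c hc
    apply inv_eq_of_mul_eq_one_left
    rw [← pow_two]
    exact h2 c hc
  have hab : ∀ a ∈ commutator G, ∀ b ∈ commutator G, a * b = b * a := by
    intro a ha b hb
    have h5 : (a * b)⁻¹ = a * b := hinv _ (mul_mem ha hb)
    rw [← h5, mul_inv_rev, hinv a ha, hinv b hb]
  have hcen' : ∀ c ∈ g3 G, c ∈ Subgroup.center G := by
    intro c hc
    rw [Subgroup.mem_center_iff]
    intro g
    exact (hcen3 c hc g).symm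
  -- the third term consists of commutators with any generator
  have hbig : ∀ x' y' : G, Subgroup.closure {x', y'} = ⊤ → ∀ c ∈ g3 G, ∃ t : G, ⁅t, x'⁆ = c := by
    intro x' y' hg' c hc
    let u := ⁅x', y'⁆
    have hu : u ∈ commutator G := comm_mem x' y'
    let vx := ⁅u, x'⁆
    let vy := ⁅u, y'⁆
    have hvx : vx ∈ g3 G := g3_mem hu x'
    have hvy : vy ∈ g3 G := g3_mem hu y'
    -- the third term is generated by `vx`, `vy`
    have hK : g3 G ≤ Subgroup.closure {vx, vy} := by
      have hKc : ∀ k ∈ Subgroup.closure {vx, vy}, ∀ g : G, k * g = g * k := by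
        intro k hk g
        have h5 : Subgroup.closure {vx, vy} ≤ g3 G := by
          rw [Subgroup.closure_le]
          rintro _ (rfl | rfl)
          · exact hvx
          · exact hvy
        exact hcen3 k (h5 hk) g
      have hKn : (Subgroup.closure {vx, vy}).Normal := by
        constructor
        intro k hk g
        rw [← hKc k hk g, mul_inv_cancel_right]
        exact hk
      let π := QuotientGroup.mk' (Subgroup.closure {vx, vy})
      have hπs : Function.Surjective π := QuotientGroup.mk'_surjective _
      have hvx1 : π vx = 1 := (QuotientGroup.eq_one_iff _).mpr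
        (Subgroup.subset_closure (Or.inl rfl))
      have hvy1 : π vy = 1 := (QuotientGroup.eq_one_iff _).mpr
        (Subgroup.subset_closure (Or.inr rfl))
      have hgπ : Subgroup.closure {π x', π y'} = ⊤ := by
        have e1 : ({π x', π y'} : Set _) = π '' {x', y'} := by rw [Set.image_pair]
        rw [e1, ← MonoidHom.map_closure, hg', Subgroup.map_top_of_surjective _ hπs]
      have hcu : ∀ g, Commute (π u) g := by
        intro g
        have hg : g ∈ Subgroup.closure {π x', π y'} := by rw [hgπ]; trivial
        have h6 : Subgroup.closure {π x', π y'} ≤ Subgroup.centralizer {π u} := by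
          rw [Subgroup.closure_le]
          rintro k (hk | hk)
          · rw [SetLike.mem_coe, Subgroup.mem_centralizer_singleton_iff, hk,
              eq_comm, ← commutatorElement_eq_one_iff_mul_comm, ← map_commutatorElement]
            exact hvx1
          · rw [SetLike.mem_coe, Subgroup.mem_centralizer_singleton_iff, show k = π y' from hk,
              eq_comm, ← commutatorElement_eq_one_iff_mul_comm, ← map_commutatorElement]
            exact hvy1
        have h7 := h6 hg
        rw [Subgroup.mem_centralizer_singleton_iff] at h7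
        exact h7.symm
      have hcen5 : commutator (G ⧸ Subgroup.closure {vx, vy}) ≤ Subgroup.center _ := by
        apply comm_le_of_pair hgπ
        rw [Subgroup.mem_center_iff]
        intro g
        rw [← map_commutatorElement]
        exact (hcu g).symm
      have hbot : g3 (G ⧸ Subgroup.closure {vx, vy}) = ⊥ := by
        rw [eq_bot_iff, g3, Subgroup.commutator_le]
        intro k hk g _
        exact commutatorElement_eq_one_iff_mul_comm.mpr
          ((Subgroup.mem_center_iff.mp (hcen5 hk)) g).symm
      rw [← g3_map π hπs, Subgroup.map_eq_bot_iff, QuotientGroup.ker_mk'] at hbot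
      exact hbot
    have hform : ∀ k ∈ Subgroup.closure {vx, vy}, k = 1 ∨ k = vx ∨ k = vy ∨ k = vy * vx := by
      have hvx2 : vx * vx = 1 := by rw [← pow_two]; exact h2 _ (g3_le hvx)
      have hvy2 : vy * vy = 1 := by rw [← pow_two]; exact h2 _ (g3_le hvy)
      have hvxy : vx * vy = vy * vx := hcen3 vx hvx vy
      have hvxi : vx⁻¹ = vx := hinv _ (g3_le hvx)
      have hvyi : vy⁻¹ = vy := hinv _ (g3_le hvy)
      intro k hk
      induction hk using Subgroup.closure_induction_right with
      | one => exact Or.inl rfl
      | mul_right g _ s hs ih =>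
        rcases hs with rfl | rfl
        · rcases ih with rfl | rfl | rfl | rfl
          · right; left; rw [one_mul]
          · left; exact hvx2
          · right; right; right; rfl
          · right; right; left; rw [mul_assoc, hvx2, mul_one]
        · rcases ih with rfl | rfl | rfl | rfl
          · right; right; left; rw [one_mul]
          · right; right; right; exact hvxy
          · left; exact hvy2
          · right; left; rw [mul_assoc, hvxy, ← mul_assoc, hvy2, one_mul]
      | mul_inv_cancel g _ s hs ih =>
        rcases hs with rfl | rfl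
        · rw [hvxi]
          rcases ih with rfl | rfl | rfl | rfl
          · right; left; rw [one_mul]
          · left; exact hvx2
          · right; right; right; rfl
          · right; right; left; rw [mul_assoc, hvx2, mul_one]
        · rw [hvyi]
          rcases ih with rfl | rfl | rfl | rfl
          · right; right; left; rw [one_mul]
          · right; right; right; exact hvxy
          · left; exact hvy2
          · right; left; rw [mul_assoc, hvxy, ← mul_assoc, hvy2, one_mul]
    have hyy : ⁅y' * y', x'⁆ = vy := by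
      have e1 : ⁅y' * y', x'⁆ = (y' * ⁅y', x'⁆ * y'⁻¹) * ⁅y', x'⁆ := by
        simp only [commutatorElement_def]; group
      have e2 : ⁅y', x'⁆ = u := by rw [← commutatorElement_inv]; exact hinv u hu
      have e3 : y' * u * y'⁻¹ = (⁅u, y'⁆)⁻¹ * u := by rw [commutatorElement_def]; group
      rw [e1, e2, e3, hinv _ (g3_le hvy), mul_assoc, ← pow_two, h2 u hu, mul_one]
    rcases hform c (hK hc) with h5 | h5 | h5 | h5
    · exact ⟨1, by rw [h5, commutatorElement_one_left]⟩
    · exact ⟨u, h5.symm⟩
    · exact ⟨y' * y', by rw [h5, hyy]⟩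
    · refine ⟨u * (y' * y'), ?_⟩
      have e1 : ⁅u * (y' * y'), x'⁆ = (u * ⁅y' * y', x'⁆ * u⁻¹) * ⁅u, x'⁆ := by
        simp only [commutatorElement_def]; group
      rw [e1, hyy, hab u hu vy (g3_le hvy), mul_inv_cancel_right, h5]
  -- central automorphisms
  have hcentral : ∀ e₁ ∈ g3 G, ∀ e₂ ∈ g3 G, ∃ α ∈ AutC G, α x = e₁ * x ∧ α y = e₂ * y ∧
      ∀ c ∈ commutator G, α c = c := by
    intro e₁ he₁ e₂ he₂
    let c' : Fin 2 → Subgroup.center G := ![⟨e₁, hcen' _ he₁⟩, ⟨e₂, hcen' _ he₂⟩]
    have hc'2 : ∀ i, c' i ^ 2 = 1 := by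
      intro i
      apply Subtype.ext
      fin_cases i
      · exact h2 _ (g3_le he₁)
      · exact h2 _ (g3_le he₂)
    obtain ⟨f, hf⟩ := exists_hom ![x, y] hx.gen c' (by
      intro a ha
      refine Finset.prod_eq_one (fun i _ => ?_)
      obtain ⟨k, hk⟩ := exp_dvd hG ![x, y] hx a 1 (one_mem _) (by rw [map_one]; exact ha.symm) i
      rw [hk, zpow_mul]
      have : c' i ^ (((2 : ℕ)) : ℤ) = 1 := by rw [zpow_natCast]; exact hc'2 i
      rw [this, one_zpow])
    have hf0 : f x = ⟨e₁, hcen' _ he₁⟩ := hf 0
    have hf1 : f y = ⟨e₂, hcen' _ he₂⟩ := hf 1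
    have hfm3 : ∀ g, (f g : G) ∈ g3 G := by
      intro g
      have hg : g ∈ Subgroup.closure {x, y} := by rw [hgen]; trivial
      have h1 : Subgroup.closure {x, y} ≤
          (g3 G).comap ((Subgroup.center G).subtype.comp f) := by
        rw [Subgroup.closure_le]
        rintro k (hk | hk)
        · show ((f k : Subgroup.center G) : G) ∈ g3 G
          rw [hk, hf0]; exact he₁
        · show ((f k : Subgroup.center G) : G) ∈ g3 G
          rw [show k = y from hk, hf1]; exact he₂
      exact h1 hg
    have hkill : ∀ c ∈ commutator G, f c = 1 := by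
      intro c hc
      have h1 : commutator G ≤ f.ker := Abelianization.commutator_subset_ker f
      exact h1 hc
    obtain ⟨α, hα⟩ := exists_aut f (fun g => g3_le (hfm3 g))
    refine ⟨α, ?_, by rw [hα, hf0], by rw [hα, hf1], ?_⟩
    · intro g
      show IsConj g (α g)
      rw [hα]
      by_cases hgF : g ∈ frattini G
      · obtain ⟨k, e, he, rfl⟩ := frattini_form hG g hgF
        have h5 : f (k ^ 2 * e) = 1 := by
          rw [map_mul, hkill e he, mul_one, map_pow]
          apply Subtype.ext
          exact h2 _ (g3_le (hfm3 k))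
        rw [h5, Subgroup.coe_one, one_mul]
      · obtain ⟨j, -, hj⟩ := exchange hG ![x, y] hx.gen ∅ g (by
          rw [Set.image_empty, Subgroup.closure_empty, bot_sup_eq]; exact hgF)
        have hg' : ∃ y' : G, Subgroup.closure {g, y'} = ⊤ := by
          fin_cases j
          · refine ⟨y, ?_⟩
            rw [← hj]
            congr 1
            ext t
            constructor
            · rintro (rfl | rfl)
              · exact ⟨0, by simp⟩
              · exact ⟨1, by simp⟩
            · rintro ⟨i, rfl⟩
              fin_cases i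
              · left; simp
              · right; simp
          · refine ⟨x, ?_⟩
            rw [← hj]
            congr 1
            ext t
            constructor
            · rintro (rfl | rfl)
              · exact ⟨1, by simp⟩
              · exact ⟨0, by simp⟩
            · rintro ⟨i, rfl⟩
              fin_cases i
              · right; simp
              · left; simp
        obtain ⟨y', hy'⟩ := hg'
        obtain ⟨t, ht⟩ := hbig g y' hy' _ (hfm3 g)
        refine isConj_iff.mpr ⟨t, ?_⟩
        rw [← ht, commutatorElement_def]; group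
    · intro c hc
      rw [hα, hkill c hc]; simp
  -- inner automorphisms realise everything modulo the third term
  let u := ⁅x, y⁆
  have hu : u ∈ commutator G := comm_mem x y
  have hui : u⁻¹ = u := hinv u hu
  have hmod : ∀ c ∈ commutator G, c ∈ g3 G ∨ u⁻¹ * c ∈ g3 G := by
    intro c hc
    obtain ⟨k, e, he, rfl⟩ := comm_form hgen hc
    have hu2 : u ^ (2 : ℤ) = 1 := by
      have := h2 u hu
      exact_mod_cast this
    rcases Int.even_or_odd' k with ⟨l, hl | hl⟩
    · left
      have : ⁅x, y⁆ ^ k = 1 := by
        show u ^ k = 1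
        rw [hl, zpow_mul, hu2, one_zpow]
      rw [this, one_mul]; exact he
    · right
      have : ⁅x, y⁆ ^ k = u := by
        show u ^ k = u
        rw [hl, zpow_add, zpow_mul, hu2, one_zpow, one_mul, zpow_one]
      rw [this, inv_mul_cancel_left]; exact he
  have hinner : ∃ g : G, (⁅g, x⁆)⁻¹ * c₁ ∈ g3 G ∧ (⁅g, y⁆)⁻¹ * c₂ ∈ g3 G := by
    have eyx : ⁅y, x⁆ = u := by rw [← commutatorElement_inv]; exact hui
    rcases hmod c₁ hc₁ with h5 | h5
    · rcases hmod c₂ hc₂ with h6 | h6
      · refine ⟨1, ?_, ?_⟩
        · rw [commutatorElement_one_left, inv_one, one_mul]; exact h5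
        · rw [commutatorElement_one_left, inv_one, one_mul]; exact h6
      · refine ⟨x, ?_, ?_⟩
        · rw [commutatorElement_self, inv_one, one_mul]; exact h5
        · exact h6
    · rcases hmod c₂ hc₂ with h6 | h6
      · refine ⟨y, ?_, ?_⟩
        · rw [eyx]; exact h5
        · rw [commutatorElement_self, inv_one, one_mul]; exact h6
      · refine ⟨x * y, ?_, ?_⟩
        · have e1 : ⁅x * y, x⁆ = (⁅u, x⁆)⁻¹ * u := by
            have e2 : ⁅x * y, x⁆ = x * ⁅y, x⁆ * x⁻¹ := by
              simp only [commutatorElement_def]; group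
            rw [e2, eyx, commutatorElement_def]; group
          have e3 : (⁅x * y, x⁆)⁻¹ * c₁ = (u⁻¹ * ⁅u, x⁆ * u) * (u⁻¹ * c₁) := by rw [e1]; group
          rw [e3]
          refine mul_mem ?_ h5
          have := Subgroup.Normal.conj_mem (inferInstance : (g3 G).Normal) _ (g3_mem hu x) u⁻¹
          rwa [inv_inv] at this
        · have e1 : ⁅x * y, y⁆ = u := by
            show ⁅x * y, y⁆ = ⁅x, y⁆
            simp only [commutatorElement_def]; group
          rw [e1]; exact h6
  obtain ⟨g, hg1, hg2⟩ := hinner
  obtain ⟨β, hβ, hβx, hβy, hβc⟩ := hcentral _ hg1 _ hg2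
  refine ⟨β * MulAut.conj g, ?_, ?_, ?_⟩
  · exact (AutC G).mul_mem hβ (fun z => isConj_iff.mpr ⟨g, rfl⟩)
  · show β (g * x * g⁻¹) = c₁ * x
    have e1 : g * x * g⁻¹ = ⁅g, x⁆ * x := by rw [commutatorElement_def]; group
    rw [e1, map_mul, hβc _ (comm_mem g x), hβx]; group
  · show β (g * y * g⁻¹) = c₂ * y
    have e1 : g * y * g⁻¹ = ⁅g, y⁆ * y := by rw [commutatorElement_def]; group
    rw [e1, map_mul, hβc _ (comm_mem g y), hβy]; group

end Pool.Agent.X255.ACmax
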